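import Pool.Agent.Lib.MP_70d3b5_lc.Real.Closure
import Pool.Agent.Lib.MP_70d3b5_lc.Hybrid

/-!
# Approximation of monotone real computations
-/

open Finset

namespace Pool.Agent.Lib.MP_70d3b5_lc.Real

variable {U V : Type} [Fintype V] [DecidableEq V]

/-- Monotone real computations with `s` gates that compute binary nondecreasing functions of real
numbers: each function in the list is (the indicator function of) a variable, a constant, or
obtained from functions further down the list.  The maximum and unary nondecreasing functions are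
free. -/
inductive RC : ℕ → List (Finset V → ℝ) → Prop
  | nil : RC 0 []
  | var {s F} (v : V) : RC s F → RC s ((fun X => if v ∈ X then 1 else 0) :: F)
  | const {s F} (r : ℝ) : RC s F → RC s ((fun _ => r) :: F)
  | max {s F f g} : RC s F → f ∈ F → g ∈ F → RC s ((fun X => max (f X) (g X)) :: F)
  | un {s F f} (φ : ℝ → ℝ) (hφ : Monotone φ) : RC s F → f ∈ F → RC s ((fun X => φ (f X)) :: F)
  | bin {s F f g} (φ : ℝ → ℝ → ℝ) (hφ : ∀ a b c d, a ≤ b → c ≤ d → φ a c ≤ φ b d) :
      RC s F → f ∈ F → g ∈ F → RC (s + 1) ((fun X => φ (f X) (g X)) :: F)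

omit [Fintype V] in
theorem RC.restrict (R : Finset V) {s : ℕ} {F : List (Finset V → ℝ)} (h : RC s F) :
    RC s (F.map fun f X => f (R ∪ X)) := by
  induction h with
  | nil => exact RC.nil
  | @var s F v _ ih =>
    rw [List.map_cons]
    by_cases hv : v ∈ R
    · have : (fun X : Finset V => if v ∈ R ∪ X then (1 : ℝ) else 0) = fun _ => 1 := by
        funext X; simp [hv]
      rw [this]
      exact ih.const 1
    · have : (fun X : Finset V => if v ∈ R ∪ X then (1 : ℝ) else 0) =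
          fun X => if v ∈ X then 1 else 0 := by
        funext X; simp [hv]
      rw [this]
      exact ih.var v
  | const r _ ih => exact ih.const r
  | max _ hf hg ih => exact RC.max ih (List.mem_map_of_mem hf) (List.mem_map_of_mem hg)
  | un φ hφ _ hf ih => exact RC.un φ hφ ih (List.mem_map_of_mem hf)
  | bin φ hφ _ hf hg ih => exact RC.bin φ hφ ih (List.mem_map_of_mem hf) (List.mem_map_of_mem hg)

/-- The core lemma. -/
theorem exists_coreR [Fintype U] {S : U → Finset V} {q κ : ℝ} {L N b : ℕ} (hN : 0 < N)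
    (hκ : 0 < κ) (hκL : L * N ≤ κ) (hq : 0 < q) (hS : Spread S q L) (T : Finset U)
    (hT : T.Nonempty) (A : U → Finset V) (hAS : ∀ u ∈ T, A u ⊆ S u)
    (hL : ∀ u ∈ T, (A u).card ≤ L) :
    ∃ K : Finset V, ∃ T' ⊆ T, T'.Nonempty ∧ (∀ u ∈ T', K ⊆ A u) ∧
      (T.card : ℝ) * q ^ K.card ≤ Fintype.card U * κ ^ K.card ∧
      pr (fun ω : Fin b → V → Fin N => ¬ ∃ u ∈ T', A u ⊆ K ∪ ZZ ω) ≤ (2 / 3) ^ b := by
  classical
  have hT0 : (0 : ℝ) < T.card := by exact_mod_cast hT.card_pos
  -- a heavy set of maximal size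
  let G : Finset (Finset V) := univ.filter fun K =>
    (T.card : ℝ) ≤ ((T.filter fun u => K ⊆ A u).card : ℝ) * κ ^ K.card
  have hG : G.Nonempty := ⟨∅, by simp [G]⟩
  obtain ⟨K, hK, hmax⟩ := G.exists_max_image card hG
  have hK' : (T.card : ℝ) ≤ ((T.filter fun u => K ⊆ A u).card : ℝ) * κ ^ K.card := by
    simpa [G] using hK
  set T' := T.filter fun u => K ⊆ A u with hT'
  have hT'0 : (0 : ℝ) < T'.card := by
    by_contra hc
    have : (T'.card : ℝ) = 0 := le_antisymm (not_lt.1 hc) (by positivity)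
    rw [this, zero_mul] at hK'
    linarith
  have hT'ne : T'.Nonempty := by
    rw [← card_pos]
    exact_mod_cast hT'0
  obtain ⟨u₀, hu₀⟩ := hT'ne
  obtain ⟨hu₀T, hKu₀⟩ := mem_filter.1 hu₀
  refine ⟨K, T', filter_subset _ _, ⟨u₀, hu₀⟩, fun u hu => (mem_filter.1 hu).2, ?_, ?_⟩
  · have hKL : K.card ≤ L := (card_le_card hKu₀).trans (hL u₀ hu₀T)
    have h1 : (T'.card : ℝ) ≤ ((univ.filter fun u => K ⊆ S u).card : ℝ) := by
      have : T' ⊆ univ.filter fun u => K ⊆ S u := by
        intro u hu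
        obtain ⟨h1, h2⟩ := mem_filter.1 hu
        exact mem_filter.2 ⟨mem_univ _, h2.trans (hAS u h1)⟩
      exact_mod_cast card_le_card this
    calc (T.card : ℝ) * q ^ K.card ≤ (T'.card * κ ^ K.card) * q ^ K.card := by gcongr
      _ = (T'.card * q ^ K.card) * κ ^ K.card := by ring
      _ ≤ (((univ.filter fun u => K ⊆ S u).card : ℝ) * q ^ K.card) * κ ^ K.card := by gcongr
      _ ≤ Fintype.card U * κ ^ K.card := by
        have := hS K hKL
        gcongr
  · -- the links of `K` are spread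
    have hs : ∀ B : Finset V, B.Nonempty →
        ((T'.filter fun u => B ⊆ A u \ K).card : ℝ) * κ ^ B.card ≤ 1 * T'.card := by
      intro B hB
      rw [one_mul]
      by_cases hd : Disjoint B K
      · have hc : K.card < (K ∪ B).card := by
          rw [card_union_of_disjoint hd.symm]
          have := hB.card_pos
          omega
        have hn : K ∪ B ∉ G := fun h => absurd (hmax _ h) (not_le.2 hc)
        have hn' : ((T.filter fun u => K ∪ B ⊆ A u).card : ℝ) * κ ^ (K ∪ B).card < T.card := by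
          simpa [G] using hn
        have he : T'.filter (fun u => B ⊆ A u \ K) = T.filter fun u => K ∪ B ⊆ A u := by
          ext u
          simp only [hT', mem_filter, union_subset_iff, subset_sdiff, and_assoc]
          tauto
        rw [he]
        rw [card_union_of_disjoint hd.symm, pow_add] at hn'
        have h2 : (((T.filter fun u => K ∪ B ⊆ A u).card : ℝ) * κ ^ B.card) * κ ^ K.card ≤
            T'.card * κ ^ K.card := by
          calc _ = ((T.filter fun u => K ∪ B ⊆ A u).card : ℝ) * (κ ^ K.card * κ ^ B.card) := by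
                ring
            _ ≤ T'.card * κ ^ K.card := hn'.le.trans hK'
        exact le_of_mul_le_mul_right h2 (by positivity)
      · have he : T'.filter (fun u => B ⊆ A u \ K) = ∅ := by
          refine filter_false_of_mem fun u _ h => hd ?_
          exact sdiff_disjoint.mono_left h
        rw [he]
        simp only [card_empty, Nat.cast_zero, zero_mul]
        positivity
    have h1 := hit_prob T' (fun u => A u \ K) ⟨u₀, hu₀⟩ hN hκ zero_le_one (L := L)
      (fun u hu => (card_le_card sdiff_subset).trans (hL u (mem_filter.1 hu).1)) hs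
    have h2 : (1 + (N : ℝ) / κ) ^ L ≤ 3 := by
      refine (pow_exp_bound (y := 1) hκ (by linarith)).trans ?_
      linarith [Real.exp_one_lt_d9]
    have h3 : 1 / 3 ≤ pr (fun ω : V → Fin N => ∃ u ∈ T', A u \ K ⊆ Z ω) := by
      have h4 := pr_nonneg (fun ω : V → Fin N => ∃ u ∈ T', A u \ K ⊆ Z ω)
      have h5 : 1 + 1 * ((1 + (N : ℝ) / κ) ^ L - 1) ≤ 3 := by linarith
      have h6 := h1.trans (mul_le_mul_of_nonneg_left h5 h4)
      linarith
    have h4 := pr_miss_le (b := b) hN T' (fun u => A u \ K) h3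
    have h5 : (1 - 1 / 3 : ℝ) = 2 / 3 := by norm_num
    rw [h5] at h4
    refine (pr_mono fun ω h => ?_).trans h4
    rintro ⟨u, hu, hA⟩
    refine h ⟨u, hu, ?_⟩
    intro v hv
    by_cases hvK : v ∈ K
    · exact mem_union_left _ hvK
    · exact mem_union_right _ (hA (mem_sdiff.2 ⟨hv, hvK⟩))

section approx

variable [Fintype U] [Nonempty U]

/-- The error on the positive side at a gate. -/
theorem trim_errorR {S : U → Finset V} {q κ : ℝ} {w N b : ℕ} (hN : 0 < N) (hκ : 0 < κ)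
    (hκL : ((2 * w : ℕ) : ℝ) * N ≤ κ) (hκq : κ ≤ q) (hS : Spread S q (2 * w))
    {g h₀ : Finset V → ℝ} (hg : MonoR g) (hg0 : ∀ X, h₀ X ≤ g X) (hh0 : SmallR (2 * w) h₀)
    (hcl : ∀ K : Finset V, K.card ≤ 2 * w → ∀ t,
      pr (fun ω : Fin b → V → Fin N => g (K ∪ ZZ ω) < t) ≤ (2 / 3) ^ b → t ≤ g K) :
    pr (fun u => ∀ A ⊆ S u, A.card ≤ w → g A < h₀ (S u)) ≤ (κ / q) ^ (w + 1) := by
  classical
  have hq : 0 < q := hκ.trans_le hκq
  have hU : (0 : ℝ) < Fintype.card U := by
    have : 0 < Fintype.card U := Fintype.card_pos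
    exact_mod_cast this
  set T : Finset U := univ.filter fun u => ∀ A ⊆ S u, A.card ≤ w → g A < h₀ (S u) with hT
  by_cases hTe : T.Nonempty
  swap
  · have : (pr fun u => ∀ A ⊆ S u, A.card ≤ w → g A < h₀ (S u)) = 0 := by
      rw [pr_def, ← hT, not_nonempty_iff_eq_empty.1 hTe]
      simp
    rw [this]
    positivity
  -- minimal subsets that reach the level
  have hex : ∀ u ∈ T, ∃ A ⊆ S u, h₀ (S u) ≤ g A ∧ A.card ≤ 2 * w := by
    intro u _
    obtain ⟨A, hA, hc, hh⟩ := hh0 (S u)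
    exact ⟨A, hA, hh.trans (hg0 A), hc⟩
  choose! A hA1 hA2 hA3 using hex
  obtain ⟨K, T', hT'T, hT'ne, hK, hcount, hmiss⟩ :=
    exists_coreR (b := b) hN hκ hκL hq hS T hTe A hA1 hA3
  obtain ⟨u₀, hu₀, hmin⟩ := exists_min_image T' (fun u => h₀ (S u)) hT'ne
  have hu₀T := hT'T hu₀
  have hgK : h₀ (S u₀) ≤ g K := by
    refine hcl K ((card_le_card (hK u₀ hu₀)).trans (hA3 u₀ hu₀T)) _
      ((pr_mono fun ω h => ?_).trans hmiss)
    rintro ⟨u, hu, hsub⟩
    have h1 := hA2 u (hT'T hu)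
    have h2 := hg _ _ hsub
    have h3 := hmin u hu
    linarith
  have hKc : w + 1 ≤ K.card := by
    by_contra hlt
    have := (mem_filter.1 hu₀T).2 K ((hK u₀ hu₀).trans (hA1 u₀ hu₀T)) (by omega)
    linarith
  rw [pr_def, ← hT]
  have h1 : (T.card : ℝ) / Fintype.card U ≤ (κ / q) ^ K.card := by
    rw [div_pow, div_le_div_iff₀ hU (by positivity)]
    linarith
  refine h1.trans ?_
  exact pow_le_pow_of_le_one (by positivity) ((div_le_one hq).2 hκq) hKc

/-- Approximation of monotone real computations. -/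
theorem RC.approx {S : U → Finset V} {q κ : ℝ} {w N b : ℕ} (hN : 0 < N) (hw : 1 ≤ w)
    (hb : 1 ≤ b) (hκ : 0 < κ)
    (hκL : ((2 * w : ℕ) : ℝ) * N ≤ κ) (hκq : κ ≤ q) (hS : Spread S q (2 * w))
    {s : ℕ} {F : List (Finset V → ℝ)} (hF : RC s F) :
    ∃ (BY : U → Prop) (BN : (Fin b → V → Fin N) → Prop),
      pr BY ≤ s * (κ / q) ^ (w + 1) ∧ pr BN ≤ s * (numSets V (2 * w) * (2 / 3) ^ b) ∧
      ∀ f ∈ F, ∃ h : Finset V → ℝ, MonoR h ∧ SmallR w h ∧
        (∀ u, ¬ BY u → f (S u) ≤ h (S u)) ∧ (∀ ω, ¬ BN ω → h (ZZ ω) ≤ f (ZZ ω)) := by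
  have hne : Nonempty (Fin N) := ⟨⟨0, hN⟩⟩
  have hδ1 : ((2 : ℝ) / 3) ^ b < 1 := pow_lt_one₀ (by norm_num) (by norm_num) (by omega)
  induction hF with
  | nil => exact ⟨fun _ => False, fun _ => False, by simp [pr], by simp [pr], by simp⟩
  | @var s F v _ ih =>
    obtain ⟨BY, BN, h1, h2, h3⟩ := ih
    refine ⟨BY, BN, h1, h2, fun f hf => ?_⟩
    rcases List.mem_cons.1 hf with rfl | hf
    · refine ⟨fun X => if v ∈ X then 1 else 0, fun X Y hXY => ?_, fun X => ?_,
        fun _ _ => le_rfl, fun _ _ => le_rfl⟩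
      · beta_reduce
        split_ifs with a1 a2 a2
        · exact le_rfl
        · exact absurd (hXY a1) a2
        · exact zero_le_one
        · exact le_rfl
      · by_cases hv : v ∈ X
        · exact ⟨{v}, by simpa using hv, by simpa using hw, by simp [hv]⟩
        · exact ⟨∅, by simp, by simp, by simp [hv]⟩
    · exact h3 f hf
  | @const s F r _ ih =>
    obtain ⟨BY, BN, h1, h2, h3⟩ := ih
    refine ⟨BY, BN, h1, h2, fun f hf => ?_⟩
    rcases List.mem_cons.1 hf with rfl | hf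
    · exact ⟨fun _ => r, fun X Y hXY => le_rfl, fun X => ⟨∅, by simp, by simp, le_rfl⟩,
        fun _ _ => le_rfl, fun _ _ => le_rfl⟩
    · exact h3 f hf
  | @max s F f₁ f₂ _ hf₁ hf₂ ih =>
    obtain ⟨BY, BN, h1, h2, h3⟩ := ih
    refine ⟨BY, BN, h1, h2, fun f hf => ?_⟩
    rcases List.mem_cons.1 hf with rfl | hf
    · obtain ⟨g₁, a1, a2, a3, a4⟩ := h3 f₁ hf₁
      obtain ⟨g₂, b1, b2, b3, b4⟩ := h3 f₂ hf₂
      refine ⟨fun X => Max.max (g₁ X) (g₂ X),
        fun X Y hXY => max_le_max (a1 X Y hXY) (b1 X Y hXY), fun X => ?_,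
        fun u hu => max_le_max (a3 u hu) (b3 u hu), fun ω hω => max_le_max (a4 ω hω) (b4 ω hω)⟩
      rcases le_total (g₁ X) (g₂ X) with h | h
      · obtain ⟨A, c1, c2, c3⟩ := b2 X
        refine ⟨A, c1, c2, ?_⟩
        beta_reduce
        rw [max_eq_right h]
        exact c3.trans (le_max_right _ _)
      · obtain ⟨A, c1, c2, c3⟩ := a2 X
        refine ⟨A, c1, c2, ?_⟩
        beta_reduce
        rw [max_eq_left h]
        exact c3.trans (le_max_left _ _)
    · exact h3 f hf
  | @un s F f₁ φ hφ _ hf₁ ih =>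
    obtain ⟨BY, BN, h1, h2, h3⟩ := ih
    refine ⟨BY, BN, h1, h2, fun f hf => ?_⟩
    rcases List.mem_cons.1 hf with rfl | hf
    · obtain ⟨g₁, a1, a2, a3, a4⟩ := h3 f₁ hf₁
      refine ⟨fun X => φ (g₁ X), fun X Y hXY => hφ (a1 X Y hXY), fun X => ?_,
        fun u hu => hφ (a3 u hu), fun ω hω => hφ (a4 ω hω)⟩
      obtain ⟨A, c1, c2, c3⟩ := a2 X
      exact ⟨A, c1, c2, hφ c3⟩
    · exact h3 f hf
  | @bin s F f₁ f₂ φ hφ _ hf₁ hf₂ ih =>
    obtain ⟨BY, BN, h1, h2, h3⟩ := ih
    obtain ⟨g₁, a1, a2, a3, a4⟩ := h3 f₁ hf₁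
    obtain ⟨g₂, b1, b2, b3, b4⟩ := h3 f₂ hf₂
    set h₀ : Finset V → ℝ := fun X => φ (g₁ X) (g₂ X) with hh₀
    have m0 : MonoR h₀ := fun X Y hXY => hφ _ _ _ _ (a1 X Y hXY) (b1 X Y hXY)
    have s0 : SmallR (2 * w) h₀ := by
      intro X
      obtain ⟨A, c1, c2, c3⟩ := a2 X
      obtain ⟨B, d1, d2, d3⟩ := b2 X
      refine ⟨A ∪ B, union_subset c1 d1, (card_union_le A B).trans (by omega), ?_⟩
      exact hφ _ _ _ _ (c3.trans (a1 _ _ subset_union_left)) (d3.trans (b1 _ _ subset_union_right))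
    obtain ⟨g, g1, g2, g3, g4⟩ := exists_closureR (ZZ : (Fin b → V → Fin N) → Finset V) h₀ m0
      (δ := (2 / 3) ^ b) (by positivity) hδ1 (2 * w)
    have t1 := trim_errorR hN hκ hκL hκq hS g1 g2 s0 g3
    refine ⟨fun u => BY u ∨ (∀ A ⊆ S u, A.card ≤ w → g A < h₀ (S u)),
      fun ω => BN ω ∨ (h₀ (ZZ ω) < g (ZZ ω)), ?_, ?_, fun f hf => ?_⟩
    · refine (pr_or_le _ _).trans ?_
      push_cast
      linarith
    · refine (pr_or_le _ _).trans ?_
      push_cast
      linarith
    · rcases List.mem_cons.1 hf with rfl | hf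
      · have hne0 : ∀ X : Finset V, (X.powerset.filter fun A => A.card ≤ w).Nonempty :=
          fun X => ⟨∅, by simp⟩
        refine ⟨fun X => (X.powerset.filter fun A => A.card ≤ w).sup' (hne0 X) g, ?_, ?_, ?_, ?_⟩
        · intro X Y hXY
          refine sup'_le _ _ fun A hA => ?_
          obtain ⟨e1, e2⟩ := mem_filter.1 hA
          exact le_sup' g (mem_filter.2 ⟨mem_powerset.2 ((mem_powerset.1 e1).trans hXY), e2⟩)
        · intro X
          obtain ⟨A, hA, hmax⟩ := exists_mem_eq_sup' (hne0 X) g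
          obtain ⟨e1, e2⟩ := mem_filter.1 hA
          refine ⟨A, mem_powerset.1 e1, e2, ?_⟩
          simp only
          rw [hmax]
          exact le_sup' g (mem_filter.2 ⟨mem_powerset.2 (Subset.refl _), e2⟩)
        · intro u hu
          rw [not_or] at hu
          obtain ⟨hu1, hu2⟩ := hu
          push Not at hu2
          obtain ⟨A, e1, e2, e3⟩ := hu2
          refine (hφ _ _ _ _ (a3 u hu1) (b3 u hu1)).trans (e3.trans ?_)
          exact le_sup' g (mem_filter.2 ⟨mem_powerset.2 e1, e2⟩)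
        · intro ω hω
          rw [not_or] at hω
          refine sup'_le _ _ fun A hA => ?_
          obtain ⟨e1, _⟩ := mem_filter.1 hA
          refine (g1 _ _ (mem_powerset.1 e1)).trans ((not_lt.1 hω.2).trans ?_)
          exact hφ _ _ _ _ (a4 ω hω.1) (b4 ω hω.1)
      · obtain ⟨h, y1, y2, y3, y4⟩ := h3 f hf
        exact ⟨h, y1, y2, fun u hu => y3 u (not_or.1 hu).1, fun ω hω => y4 ω (not_or.1 hω).1⟩

/-- The main comparison: for a function computed by a monotone real computation with `s` binary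
gates, the sets `S u` reach a given level with at most the probability with which the random set
reaches it, up to a small error. -/
theorem RC.compare {S : U → Finset V} {q κ : ℝ} {w N b : ℕ} (hN : 0 < N) (hw : 1 ≤ w)
    (hb : 2 ≤ b) (hκ : 0 < κ) (hκL : ((2 * w : ℕ) : ℝ) * N ≤ κ) (hκq : 4 * κ ≤ q)
    (hS : Spread S q (2 * w)) {s : ℕ} {F : List (Finset V → ℝ)} (hF : RC s F)
    {f : Finset V → ℝ} (hf : f ∈ F) (t : ℝ) :
    pr (fun u => t ≤ f (S u)) ≤ pr (fun ω : Fin b → V → Fin N => t ≤ f (ZZ ω)) +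
      (s * ((κ / q) ^ (w + 1) + numSets V (2 * w) * (2 / 3) ^ b) + (2 / 3) ^ b) := by
  obtain ⟨BY, BN, h1, h2, h3⟩ :=
    hF.approx (b := b) hN hw (by omega) hκ hκL (by linarith) hS
  obtain ⟨h, y1, y2, y3, y4⟩ := h3 f hf
  have a1 : pr (fun u => t ≤ f (S u)) ≤ pr (fun u => t ≤ h (S u)) + pr BY := by
    refine (pr_mono fun u hu => ?_).trans (pr_or_le _ _)
    by_cases hB : BY u
    · exact Or.inr hB
    · exact Or.inl (hu.trans (y3 u hB))
  have a2 : pr (fun ω : Fin b → V → Fin N => t ≤ h (ZZ ω)) ≤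
      pr (fun ω : Fin b → V → Fin N => t ≤ f (ZZ ω)) + pr BN := by
    refine (pr_mono fun ω hω => ?_).trans (pr_or_le _ _)
    by_cases hB : BN ω
    · exact Or.inr hB
    · exact Or.inl (hω.trans (y4 ω hB))
  have a3 := small_compare (b := b) hN hb (by linarith) (q := q) (by linarith) hS
    (h := fun X => t ≤ h X) (fun X Y hXY hX => hX.trans (y1 X Y hXY)) (fun X hX => by
      obtain ⟨A, c1, c2, c3⟩ := y2 X
      exact ⟨A, c1, c2, hX.trans c3⟩)
  linarith

end approx

end Pool.Agent.Lib.MP_70d3b5_lc.Real
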