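import Pool.Agent.Lib.MP_70d3b5_lc.Defs

/-!
# Circuits with monotone real gates and arbitrary gates

Circuits on Boolean inputs whose wires carry real numbers.  The gates are constants, the maximum
of two wires, gates that compute an arbitrary nondecreasing function of two wires, and arbitrary
gates, which compute an arbitrary function of bits of the form: wire `i` is at least `t`.
-/

namespace Pool.Agent.Lib.MP_70d3b5_lc.Real

/-- A gate of a circuit.  The arguments of a gate are numbers of wires: on `n` inputs, the wires
`0, …, n - 1` are the inputs, and the `j`-th gate (counted from `0`) of the circuit writes wire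
`n + j`.  A gate that refers to a wire that has not been written yet reads `0`.  The gate
`mon φ hφ i j` applies the nondecreasing function `φ` to the wires `i` and `j`.  The gate `any h l`
applies the arbitrary function `h` to the list of bits which tell for the pairs `(i, t)` in `l`
whether the wire `i` is at least `t`. -/
inductive Gate : Type
  | const (r : ℝ) : Gate
  | max (i j : ℕ) : Gate
  | mon (φ : ℝ → ℝ → ℝ) (hφ : ∀ a b c d, a ≤ b → c ≤ d → φ a c ≤ φ b d) (i j : ℕ) : Gate
  | any (h : List Bool → ℝ) (l : List (ℕ × ℝ)) : Gate

open Classical in
/-- The bits read by an arbitrary gate. -/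
noncomputable def args (w : List ℝ) (l : List (ℕ × ℝ)) : List Bool :=
  l.map fun p => decide (p.2 ≤ w.getD p.1 0)

/-- The value of a gate, given the values of the earlier wires. -/
noncomputable def Gate.eval (w : List ℝ) : Gate → ℝ
  | .const r => r
  | .max i j => Max.max (w.getD i 0) (w.getD j 0)
  | .mon φ _ i j => φ (w.getD i 0) (w.getD j 0)
  | .any h l => h (args w l)

/-- The values of all wires, given the values of the first ones. -/
noncomputable def run (w : List ℝ) : List Gate → List ℝ
  | [] => w
  | g :: gs => run (w ++ [g.eval w]) gs

/-- The bits read by the arbitrary gates, in order. -/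
noncomputable def trace (w : List ℝ) : List Gate → List (List Bool)
  | [] => []
  | .any h l :: gs => args w l :: trace (w ++ [h (args w l)]) gs
  | .const r :: gs => trace (w ++ [r]) gs
  | .max i j :: gs => trace (w ++ [Max.max (w.getD i 0) (w.getD j 0)]) gs
  | .mon φ _ i j :: gs => trace (w ++ [φ (w.getD i 0) (w.getD j 0)]) gs

/-- The number of gates that compute nondecreasing functions (other than the maximum). -/
def mons : List Gate → ℕ
  | [] => 0
  | .mon _ _ _ _ :: gs => mons gs + 1
  | _ :: gs => mons gs

/-- The total number of bits read by the arbitrary gates. -/
def fan : List Gate → ℕ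
  | [] => 0
  | .any _ l :: gs => l.length + fan gs
  | _ :: gs => fan gs

/-- The level of the wire written by a gate, given the levels of the earlier wires: the largest
number of arbitrary gates on a path that ends with this wire. -/
def Gate.level (v : List ℕ) : Gate → ℕ
  | .const _ => 0
  | .max i j => Max.max (v.getD i 0) (v.getD j 0)
  | .mon _ _ i j => Max.max (v.getD i 0) (v.getD j 0)
  | .any _ l => (l.map fun p => v.getD p.1 0).foldr Max.max 0 + 1

/-- The largest level of a wire, given the levels of the first wires. -/
def depthFrom (v : List ℕ) : List Gate → ℕ
  | [] => 0
  | g :: gs => Max.max (g.level v) (depthFrom (v ++ [g.level v]) gs)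

/-- The nesting depth of the arbitrary gates of a circuit on `n` inputs: the largest number of
arbitrary gates on a path. -/
def depth (n : ℕ) (gs : List Gate) : ℕ := depthFrom (List.replicate n 0) gs

/-- The input wires: the bits as real numbers `0` and `1`. -/
noncomputable def inp (x : List Bool) : List ℝ := x.map fun b => if b then 1 else 0

/-- An increasing chain of inputs of length `n`. -/
def Chain (n : ℕ) (x : ℕ → List Bool) : Prop :=
  (∀ i, (x i).length = n) ∧ ∀ i p, (x i).getD p false = true → (x (i + 1)).getD p false = true

/-- Along every increasing chain of inputs of length `n`, the bits read by the arbitrary gates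
change at most `A` times. -/
def AltLe (n : ℕ) (gs : List Gate) (A : ℕ) : Prop :=
  ∀ (m : ℕ) (x : ℕ → List Bool), Chain n x →
    ((Finset.range m).filter fun i => trace (inp (x i)) gs ≠ trace (inp (x (i + 1))) gs).card ≤ A

/-- The lists of bits read by the arbitrary gates that occur on inputs of length `n`. -/
noncomputable def traces (n : ℕ) (gs : List Gate) : Finset (List (List Bool)) :=
  (Finset.univ : Finset (Fin n → Bool)).image fun x => trace (inp (List.ofFn x)) gs

/-- The circuit with gates `gs` and output wire `out` is correct on `x`: the output is at least
`1` if and only if `x` belongs to `L`. -/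
def Correct (L : Set (List Bool)) (gs : List Gate) (out : ℕ) (x : List Bool) : Prop :=
  1 ≤ (run (inp x) gs).getD out 0 ↔ x ∈ L

end Pool.Agent.Lib.MP_70d3b5_lc.Real
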