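import Pool.Agent.Lib.MP_70d3b5_lc.Real.Approx
import Pool.Agent.Lib.MP_70d3b5_lc.Real.Defs

/-!
# Freezing the arbitrary gates
-/

open Finset

namespace Pool.Agent.Lib.MP_70d3b5_lc.Real

section sim

variable {V : Type}

/-- The function on wire `i`. -/
def wire (W : List (Finset V → ℝ)) (i : ℕ) : Finset V → ℝ := W.getD i fun _ => 0

/-- Append a function to a list of functions. -/
def ext (W : List (Finset V → ℝ)) (f : Finset V → ℝ) : List (Finset V → ℝ) := W ++ [f]

theorem wire_ext_cases (W : List (Finset V → ℝ)) (f : Finset V → ℝ) (i : ℕ) :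
    wire (ext W f) i = wire W i ∨ wire (ext W f) i = f ∨ wire (ext W f) i = fun _ => 0 := by
  unfold wire ext
  rcases lt_trichotomy i W.length with hi | hi | hi
  · rw [List.getD_append _ _ _ _ hi]
    exact Or.inl rfl
  · subst hi
    rw [List.getD_append_right _ _ _ _ le_rfl]
    refine Or.inr (Or.inl ?_)
    simp
  · rw [List.getD_append_right _ _ _ _ hi.le]
    have e1 : i - W.length = (i - W.length - 1) + 1 := by omega
    rw [e1]
    refine Or.inr (Or.inr ?_)
    simp

/-- The list `w` is the value of the list of functions `W` at `X`. -/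
def Match (w : List ℝ) (W : List (Finset V → ℝ)) (X : Finset V) : Prop :=
  w.length = W.length ∧ ∀ i, w.getD i 0 = wire W i X

theorem Match.append {w : List ℝ} {W : List (Finset V → ℝ)} {X : Finset V}
    (h : Match w W X) {r : ℝ} {f : Finset V → ℝ} (hb : r = f X) :
    Match (w ++ [r]) (ext W f) X := by
  refine ⟨by simp [h.1, ext], fun i => ?_⟩
  unfold wire ext
  rcases lt_trichotomy i w.length with hi | hi | hi
  · rw [List.getD_append _ _ _ _ hi, List.getD_append _ _ _ _ (h.1 ▸ hi)]
    exact h.2 i
  · subst hi
    rw [List.getD_append_right _ _ _ _ le_rfl, List.getD_append_right _ _ _ _ h.1.ge, h.1]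
    simpa using hb
  · rw [List.getD_append_right _ _ _ _ hi.le, List.getD_append_right _ _ _ _ (h.1 ▸ hi.le)]
    have e1 : i - w.length = (i - w.length - 1) + 1 := by omega
    rw [← h.1, e1]
    simp

/-- Evaluation of a circuit in which the bits read by the arbitrary gates are replaced by the
lists in `a`: the functions on all wires. -/
def simW : List Gate → List (Finset V → ℝ) → List (List Bool) → List (Finset V → ℝ)
  | [], W, _ => W
  | .const r :: gs, W, a => simW gs (ext W (fun _ => r)) a
  | .max i j :: gs, W, a => simW gs (ext W (fun X => Max.max (wire W i X) (wire W j X))) a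
  | .mon φ _ i j :: gs, W, a => simW gs (ext W (fun X => φ (wire W i X) (wire W j X))) a
  | .any h _ :: gs, W, a => simW gs (ext W (fun _ => h (a.headD []))) a.tail

/-- Some pair in the list `l` whose entry in `c` is false is true at `X`. -/
def rise (W : List (Finset V → ℝ)) : List (ℕ × ℝ) → List Bool → Finset V → Prop
  | [], _, _ => False
  | p :: l, c, X => (c.headD false = false ∧ p.2 ≤ wire W p.1 X) ∨ rise W l c.tail X

/-- The disjunction of those bits read by arbitrary gates whose value in the list `a` is false. -/
def simG : List Gate → List (Finset V → ℝ) → List (List Bool) → Finset V → Prop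
  | [], _, _, _ => False
  | .const r :: gs, W, a, X => simG gs (ext W (fun _ => r)) a X
  | .max i j :: gs, W, a, X => simG gs (ext W (fun X => Max.max (wire W i X) (wire W j X))) a X
  | .mon φ _ i j :: gs, W, a, X => simG gs (ext W (fun X => φ (wire W i X) (wire W j X))) a X
  | .any h l :: gs, W, a, X => rise W l (a.headD []) X ∨
      simG gs (ext W (fun _ => h (a.headD []))) a.tail X

theorem not_rise {w : List ℝ} {W : List (Finset V → ℝ)} {X : Finset V}
    (h : Match w W X) (l : List (ℕ × ℝ)) : ¬ rise W l (args w l) X := by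
  induction l with
  | nil => exact fun h => h
  | cons p l ih =>
    rintro (⟨h1, h2⟩ | h1)
    · rw [← h.2 p.1] at h2
      simp only [args, List.map_cons, List.headD_cons, decide_eq_false_iff_not] at h1
      exact h1 h2
    · exact ih h1

theorem args_eq {w w' : List ℝ} {W : List (Finset V → ℝ)} {X Y : Finset V}
    (h : Match w W X) (h' : Match w' W Y) (hm : ∀ i, wire W i X ≤ wire W i Y) (l : List (ℕ × ℝ))
    (hr : ¬ rise W l (args w l) Y) : args w' l = args w l := by
  classical
  induction l with
  | nil => rfl
  | cons p l ih =>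
    simp only [rise, args, List.map_cons, List.headD_cons, List.tail_cons, not_or, not_and,
      decide_eq_false_iff_not] at hr
    have e : (p.2 ≤ w'.getD p.1 0) ↔ (p.2 ≤ w.getD p.1 0) := by
      rw [h.2, h'.2]
      constructor
      · intro h1
        by_contra h2
        rw [← h.2] at h2
        exact hr.1 h2 h1
      · exact fun h1 => h1.trans (hm _)
    have := ih hr.2
    simp only [args, List.map_cons] at this ⊢
    rw [this]
    congr 1
    exact decide_eq_decide.2 e

theorem sim_true {X : Finset V} (gs : List Gate) :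
    ∀ (w : List ℝ) (W : List (Finset V → ℝ)), Match w W X →
      Match (run w gs) (simW gs W (trace w gs)) X ∧ ¬ simG gs W (trace w gs) X := by
  induction gs with
  | nil => intro w W h; exact ⟨h, fun h => h⟩
  | cons g gs ih =>
    intro w W h
    cases g with
    | const r => exact ih _ _ (h.append (f := fun _ => r) rfl)
    | max i j =>
      refine ih _ _ (h.append (f := fun X => Max.max (wire W i X) (wire W j X)) ?_)
      simp only [Gate.eval, h.2]
    | mon φ hφ i j =>
      refine ih _ _ (h.append (f := fun X => φ (wire W i X) (wire W j X)) ?_)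
      simp only [Gate.eval, h.2]
    | any f l =>
      have h1 := ih (w ++ [f (args w l)]) (ext W (fun _ => f (args w l)))
        (h.append (f := fun _ => f (args w l)) rfl)
      refine ⟨h1.1, ?_⟩
      rintro (h2 | h2)
      · exact not_rise h l h2
      · exact h1.2 h2

theorem sim_mono {X Y : Finset V} (gs : List Gate) :
    ∀ (w w' : List ℝ) (W : List (Finset V → ℝ)), Match w W X → Match w' W Y →
      (∀ i, wire W i X ≤ wire W i Y) → ¬ simG gs W (trace w gs) Y →
      trace w' gs = trace w gs := by
  induction gs with
  | nil => intro w w' W _ _ _ _; rfl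
  | cons g gs ih =>
    intro w w' W h h' hm hn
    have happ : ∀ {f : Finset V → ℝ}, (f X ≤ f Y) → ∀ i, wire (ext W f) i X ≤
        wire (ext W f) i Y := by
      intro f hf i
      rcases wire_ext_cases W f i with h | h | h <;> rw [h]
      · exact hm i
      · exact hf
    cases g with
    | const r =>
      exact ih _ _ _ (h.append (f := fun _ => r) rfl)
        (h'.append (f := fun _ => r) rfl) (happ le_rfl) hn
    | max i j =>
      refine ih _ _ _ (h.append (f := fun X => Max.max (wire W i X) (wire W j X)) ?_)
        (h'.append (f := fun X => Max.max (wire W i X) (wire W j X)) ?_)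
        (happ (max_le_max (hm i) (hm j))) hn
      · simp only [h.2]
      · simp only [h'.2]
    | mon φ hφ i j =>
      refine ih _ _ _ (h.append (f := fun X => φ (wire W i X) (wire W j X)) ?_)
        (h'.append (f := fun X => φ (wire W i X) (wire W j X)) ?_)
        (happ (hφ _ _ _ _ (hm i) (hm j))) hn
      · simp only [h.2]
      · simp only [h'.2]
    | any f l =>
      simp only [simG, trace, List.headD_cons, List.tail_cons, not_or] at hn
      have e := args_eq h h' hm l hn.1
      simp only [trace]
      rw [e]
      exact congrArg _ (ih _ _ (ext W (fun _ => f (args w l)))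
        (h.append rfl) (h'.append rfl) (happ le_rfl) hn.2)

open Classical in
/-- The indicator function of a property. -/
noncomputable def ind (P : Finset V → Prop) (X : Finset V) : ℝ := if P X then 1 else 0

theorem one_le_ind {P : Finset V → Prop} {X : Finset V} : 1 ≤ ind P X ↔ P X := by
  unfold ind
  split_ifs with h <;> simp [h]

theorem ind_congr {P Q : Finset V → Prop} (h : ∀ X, P X ↔ Q X) : ind P = ind Q := by
  have : P = Q := funext fun X => propext (h X)
  rw [this]

theorem ind_or {P Q R : Finset V → Prop} (h : ∀ X, P X ↔ Q X ∨ R X) :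
    ind P = fun X => Max.max (ind Q X) (ind R X) := by
  funext X
  unfold ind
  by_cases h1 : Q X <;> by_cases h2 : R X
  · rw [if_pos ((h X).2 (Or.inl h1)), if_pos h1, if_pos h2, max_self]
  · rw [if_pos ((h X).2 (Or.inl h1)), if_pos h1, if_neg h2, max_eq_left zero_le_one]
  · rw [if_pos ((h X).2 (Or.inr h2)), if_neg h1, if_pos h2, max_eq_right zero_le_one]
  · rw [if_neg (fun h3 => ((h X).1 h3).elim h1 h2), if_neg h1, if_neg h2, max_self]

variable [DecidableEq V]

theorem rise_rc (l : List (ℕ × ℝ)) : ∀ (s : ℕ) (W F : List (Finset V → ℝ)) (c : List Bool),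
    RC s F → (∀ i, wire W i ∈ F) → ∃ F', RC s F' ∧
      ind (rise W l c) ∈ F' ∧ ∀ f ∈ F, f ∈ F' := by
  classical
  induction l with
  | nil =>
    intro s W F c hF _
    refine ⟨_, hF.const 0, ?_, fun f hf => List.mem_cons_of_mem _ hf⟩
    have : ind (rise W [] c) = fun _ : Finset V => (0 : ℝ) := by
      funext X
      simp [ind, rise]
    rw [this]
    exact List.mem_cons_self ..
  | cons p l ih =>
    intro s W F c hF hW
    obtain ⟨F', h1, h2, h3⟩ := ih s W F c.tail hF hW
    cases hc : c.headD false with
    | true =>
      refine ⟨F', h1, ?_, h3⟩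
      have : ind (rise W (p :: l) c) = ind (rise W l c.tail) := by
        refine ind_congr fun X => ?_
        change (c.headD false = false ∧ _) ∨ _ ↔ _
        rw [hc]
        exact ⟨fun h => h.elim (fun h => absurd h.1 Bool.noConfusion) id, Or.inr⟩
      rw [this]
      exact h2
    | false =>
      have hφ : Monotone fun r : ℝ => if p.2 ≤ r then (1 : ℝ) else 0 := by
        intro a b hab
        simp only
        split_ifs with a1 a2 a2
        · exact le_rfl
        · exact absurd (a1.trans hab) a2
        · exact zero_le_one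
        · exact le_rfl
      have h4 := RC.un (fun r : ℝ => if p.2 ≤ r then (1 : ℝ) else 0) hφ h1 (h3 _ (hW p.1))
      refine ⟨_, RC.max h4 (List.mem_cons_self ..) (List.mem_cons_of_mem _ h2), ?_,
        fun f hf => List.mem_cons_of_mem _ (List.mem_cons_of_mem _ (h3 f hf))⟩
      have : ind (rise W (p :: l) c) = fun X : Finset V =>
          Max.max (if p.2 ≤ wire W p.1 X then (1 : ℝ) else 0) (ind (rise W l c.tail) X) := by
        rw [ind_or (Q := fun X => p.2 ≤ wire W p.1 X) (R := rise W l c.tail) fun X => ?_]
        · funext X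
          unfold ind
          congr 1
        · change (c.headD false = false ∧ _) ∨ _ ↔ _
          rw [hc]
          simp
      rw [this]
      exact List.mem_cons_self ..

theorem sim_rc (gs : List Gate) : ∀ (s : ℕ) (W F : List (Finset V → ℝ)) (a : List (List Bool)),
    RC s F → (∀ i, wire W i ∈ F) → ∃ F', RC (s + mons gs) F' ∧
      (∀ i, wire (simW gs W a) i ∈ F') ∧ ind (simG gs W a) ∈ F' ∧ ∀ f ∈ F, f ∈ F' := by
  classical
  induction gs with
  | nil =>
    intro s W F a hF hW
    refine ⟨_, hF.const 0, fun i => List.mem_cons_of_mem _ (hW i), ?_,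
      fun f hf => List.mem_cons_of_mem _ hf⟩
    have : ind (simG [] W a) = fun _ : Finset V => (0 : ℝ) := by
      funext X
      simp [ind, simG]
    rw [this]
    exact List.mem_cons_self ..
  | cons g gs ih =>
    intro s W F a hF hW
    have happ : ∀ {f : Finset V → ℝ} {F' : List (Finset V → ℝ)}, f ∈ F' →
        (∀ i, wire W i ∈ F') → (fun _ => 0) ∈ F' → ∀ i, wire (ext W f) i ∈ F' := by
      intro f F' hf hF' hff i
      rcases wire_ext_cases W f i with h | h | h <;> rw [h]
      · exact hF' i
      · exact hf
      · exact hff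
    have hc : ∀ r : ℝ, ∃ F', RC s F' ∧ (fun _ => r) ∈ F' ∧ (fun _ => 0) ∈ F' ∧
        ∀ f ∈ F, f ∈ F' := fun r => ⟨_, (hF.const 0).const r, List.mem_cons_self ..,
      List.mem_cons_of_mem _ (List.mem_cons_self ..),
      fun f hf => List.mem_cons_of_mem _ (List.mem_cons_of_mem _ hf)⟩
    cases g with
    | const r =>
      obtain ⟨F₀, h1, h2, h3, h4⟩ := hc r
      obtain ⟨F', h5, h6, h7, h8⟩ := ih s _ F₀ a h1 (happ h2 (fun i => h4 _ (hW i)) h3)
      exact ⟨F', h5, h6, h7, fun f hf => h8 f (h4 f hf)⟩
    | max i j =>
      have h1 : RC s ((fun X => Max.max (wire W i X) (wire W j X)) :: (fun _ => 0) :: F) :=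
        RC.max (hF.const 0) (List.mem_cons_of_mem _ (hW i)) (List.mem_cons_of_mem _ (hW j))
      obtain ⟨F', h2, h3, h4, h5⟩ := ih _ _ _ a h1
        (happ (f := fun X => Max.max (wire W i X) (wire W j X))
        (List.mem_cons_self ..) (fun i => List.mem_cons_of_mem _ (List.mem_cons_of_mem _ (hW i)))
        (List.mem_cons_of_mem _ (List.mem_cons_self ..)))
      exact ⟨F', h2, h3, h4,
        fun f hf => h5 f (List.mem_cons_of_mem _ (List.mem_cons_of_mem _ hf))⟩
    | mon φ hφ i j =>
      have h1 : RC (s + 1) ((fun X => φ (wire W i X) (wire W j X)) :: (fun _ => 0) :: F) :=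
        RC.bin φ hφ (hF.const 0) (List.mem_cons_of_mem _ (hW i)) (List.mem_cons_of_mem _ (hW j))
      obtain ⟨F', h2, h3, h4, h5⟩ := ih _ _ _ a h1
        (happ (f := fun X => φ (wire W i X) (wire W j X))
        (List.mem_cons_self ..) (fun i => List.mem_cons_of_mem _ (List.mem_cons_of_mem _ (hW i)))
        (List.mem_cons_of_mem _ (List.mem_cons_self ..)))
      refine ⟨F', ?_, h3, h4,
        fun f hf => h5 f (List.mem_cons_of_mem _ (List.mem_cons_of_mem _ hf))⟩
      have : s + mons (.mon φ hφ i j :: gs) = s + 1 + mons gs := by simp only [mons]; omega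
      rw [this]
      exact h2
    | any h l =>
      obtain ⟨F₀, h1, h2, h3, h4⟩ := hc (h (a.headD []))
      obtain ⟨F', h6, h7, h8, h9⟩ := ih s (ext W (fun _ => h (a.headD []))) F₀ a.tail
        h1 (happ (f := fun _ => h (a.headD [])) h2 (fun i => h4 _ (hW i)) h3)
      obtain ⟨F'', k1, k2, k3⟩ := rise_rc l _ W F' (a.headD []) h6
        (fun i => h9 _ (h4 _ (hW i)))
      refine ⟨_, RC.max k1 k2 (k3 _ h8), fun i => List.mem_cons_of_mem _ (k3 _ (h7 i)),
        ?_, fun f hf => List.mem_cons_of_mem _ (k3 _ (h9 f (h4 f hf)))⟩
      have : ind (simG (.any h l :: gs) W a) = fun X : Finset V =>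
          Max.max (ind (rise W l (a.headD [])) X)
            (ind (simG gs (ext W (fun _ => h (a.headD []))) a.tail) X) := by
        exact ind_or fun X => Iff.rfl
      rw [this]
      exact List.mem_cons_self ..

end sim

end Pool.Agent.Lib.MP_70d3b5_lc.Real
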