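import Pool.Agent.Lib.MP_70d3b5_lc.Arb.Level
import Pool.Agent.Lib.MP_70d3b5_lc.Real.Defs

/-!
# Nesting depth, traces and alternation
-/

open Finset

namespace Pool.Agent.Lib.MP_70d3b5_lc.Real

open Arb (radix radix_lt radix_congr radix_lex le_foldr_max prod_le_mean)

/-- The number of true bits read by the arbitrary gates of level `i`. -/
noncomputable def ones (i : ℕ) : List Gate → List ℝ → List ℕ → ℕ
  | [], _, _ => 0
  | .any h l :: gs, w, v => (if (Gate.any h l).level v = i then (args w l).count true else 0) +
      ones i gs (w ++ [h (args w l)]) (v ++ [(Gate.any h l).level v])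
  | .const r :: gs, w, v => ones i gs (w ++ [r]) (v ++ [0])
  | .max p q :: gs, w, v => ones i gs (w ++ [Max.max (w.getD p 0) (w.getD q 0)])
      (v ++ [Max.max (v.getD p 0) (v.getD q 0)])
  | .mon φ _ p q :: gs, w, v => ones i gs (w ++ [φ (w.getD p 0) (w.getD q 0)])
      (v ++ [Max.max (v.getD p 0) (v.getD q 0)])

/-- The total number of bits read by the arbitrary gates of level `i`. -/
def fanAt (i : ℕ) : List Gate → List ℕ → ℕ
  | [], _ => 0
  | .any h l :: gs, v => (if (Gate.any h l).level v = i then l.length else 0) +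
      fanAt i gs (v ++ [(Gate.any h l).level v])
  | .const _ :: gs, v => fanAt i gs (v ++ [0])
  | .max p q :: gs, v => fanAt i gs (v ++ [Max.max (v.getD p 0) (v.getD q 0)])
  | .mon _ _ p q :: gs, v => fanAt i gs (v ++ [Max.max (v.getD p 0) (v.getD q 0)])

/-- The arbitrary gates of level less than `i` read the same bits. -/
def Same (i : ℕ) : List Gate → List ℝ → List ℝ → List ℕ → Prop
  | [], _, _, _ => True
  | .any h l :: gs, w, w', v => ((Gate.any h l).level v < i → args w l = args w' l) ∧
      Same i gs (w ++ [h (args w l)]) (w' ++ [h (args w' l)]) (v ++ [(Gate.any h l).level v])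
  | .const r :: gs, w, w', v => Same i gs (w ++ [r]) (w' ++ [r]) (v ++ [0])
  | .max p q :: gs, w, w', v => Same i gs (w ++ [Max.max (w.getD p 0) (w.getD q 0)])
      (w' ++ [Max.max (w'.getD p 0) (w'.getD q 0)]) (v ++ [Max.max (v.getD p 0) (v.getD q 0)])
  | .mon φ _ p q :: gs, w, w', v => Same i gs (w ++ [φ (w.getD p 0) (w.getD q 0)])
      (w' ++ [φ (w'.getD p 0) (w'.getD q 0)]) (v ++ [Max.max (v.getD p 0) (v.getD q 0)])

theorem ones_le_fanAt (i : ℕ) (gs : List Gate) : ∀ (w : List ℝ) (v : List ℕ),
    ones i gs w v ≤ fanAt i gs v := by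
  induction gs with
  | nil => intro w v; exact le_rfl
  | cons g gs ih =>
    intro w v
    cases g with
    | const r => exact ih _ _
    | max p q => exact ih _ _
    | mon φ hφ p q => exact ih _ _
    | any h l =>
      refine Nat.add_le_add ?_ (ih _ _)
      split_ifs
      · exact List.count_le_length.trans (by simp [args])
      · exact le_rfl

/-- Wires of level less than `i` can only go up. -/
def Up (i : ℕ) (w w' : List ℝ) (v : List ℕ) : Prop :=
  w.length = v.length ∧ w'.length = v.length ∧
    ∀ p, v.getD p 0 < i → w.getD p 0 ≤ w'.getD p 0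

theorem Up.append {i : ℕ} {w w' : List ℝ} {v : List ℕ} (h : Up i w w' v) {b b' : ℝ}
    {c : ℕ} (hb : c < i → b ≤ b') : Up i (w ++ [b]) (w' ++ [b']) (v ++ [c]) := by
  obtain ⟨h1, h2, h3⟩ := h
  refine ⟨by simp [h1], by simp [h2], fun p hp => ?_⟩
  rcases lt_trichotomy p v.length with hl | hl | hl
  · rw [List.getD_append _ _ _ _ hl] at hp
    rw [List.getD_append _ _ _ _ (h1 ▸ hl), List.getD_append _ _ _ _ (h2 ▸ hl)]
    exact h3 p hp
  · subst hl
    rw [List.getD_append_right _ _ _ _ le_rfl] at hp
    rw [List.getD_append_right _ _ _ _ h1.le, h1, List.getD_append_right _ _ _ _ h2.le, h2]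
    simp only [Nat.sub_self, List.getD_cons_zero] at hp ⊢
    exact hb hp
  · rw [List.getD_append_right _ _ _ _ (by omega), List.getD_append_right _ _ _ _ (by omega)]
    have e1 : p - w.length = (p - w.length - 1) + 1 := by omega
    have e2 : p - w'.length = (p - w'.length - 1) + 1 := by omega
    rw [e1, e2]
    simp

theorem count_args {w w' : List ℝ} (l : List (ℕ × ℝ))
    (h : ∀ p ∈ l, w.getD p.1 0 ≤ w'.getD p.1 0) :
    (args w l).count true ≤ (args w' l).count true ∧
      ((args w l).count true = (args w' l).count true → args w l = args w' l) := by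
  classical
  induction l with
  | nil => exact ⟨le_rfl, fun _ => rfl⟩
  | cons p l ih =>
    obtain ⟨h1, h2⟩ := ih fun q hq => h q (List.mem_cons_of_mem _ hq)
    have h3 : p.2 ≤ w.getD p.1 0 → p.2 ≤ w'.getD p.1 0 :=
      fun h4 => h4.trans (h p (List.mem_cons_self ..))
    simp only [args, List.map_cons, List.count_cons] at h1 h2 ⊢
    by_cases hx : p.2 ≤ w.getD p.1 0 <;> by_cases hy : p.2 ≤ w'.getD p.1 0
    · simp only [hx, hy, decide_true, beq_self_eq_true, if_true, Nat.add_le_add_iff_right,
        Nat.add_right_cancel_iff, List.cons.injEq, true_and]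
      exact ⟨h1, h2⟩
    · exact absurd (h3 hx) hy
    · simp only [hx, hy, decide_true, decide_false, beq_self_eq_true, Bool.false_beq,
        Bool.not_true, Bool.false_eq_true, if_false, if_true, add_zero]
      constructor
      · omega
      · intro h4
        omega
    · simp only [hx, hy, decide_false, Bool.false_beq, Bool.not_true, Bool.false_eq_true, if_false,
        add_zero, List.cons.injEq, true_and]
      exact ⟨h1, h2⟩

theorem step (i : ℕ) (gs : List Gate) : ∀ (w w' : List ℝ) (v : List ℕ), Up i w w' v →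
    Same i gs w w' v → ones i gs w v ≤ ones i gs w' v ∧
      (ones i gs w v = ones i gs w' v → Same (i + 1) gs w w' v) := by
  induction gs with
  | nil => intro w w' v _ _; exact ⟨le_rfl, fun _ => trivial⟩
  | cons g gs ih =>
    intro w w' v hU hS
    cases g with
    | const r => exact ih _ _ _ (hU.append fun _ => le_rfl) hS
    | max p q =>
      refine ih _ _ _ (hU.append fun hc => ?_) hS
      exact max_le_max (hU.2.2 p (lt_of_le_of_lt (le_max_left _ _) hc))
        (hU.2.2 q (lt_of_le_of_lt (le_max_right _ _) hc))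
    | mon φ hφ p q =>
      refine ih _ _ _ (hU.append fun hc => ?_) hS
      exact hφ _ _ _ _ (hU.2.2 p (lt_of_le_of_lt (le_max_left _ _) hc))
        (hU.2.2 q (lt_of_le_of_lt (le_max_right _ _) hc))
    | any h l =>
      obtain ⟨hS1, hS2⟩ := hS
      obtain ⟨h1, h2⟩ := ih (w ++ [h (args w l)]) (w' ++ [h (args w' l)])
        (v ++ [(Gate.any h l).level v])
        (hU.append fun hc => by rw [← hS1 hc]) hS2
      simp only [ones, Same]
      by_cases hl : (Gate.any h l).level v = i
      · have h3 : ∀ p ∈ l, w.getD p.1 0 ≤ w'.getD p.1 0 := by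
          intro p hp
          refine hU.2.2 p.1 ?_
          have h4 : v.getD p.1 0 ≤ (l.map fun p => v.getD p.1 0).foldr Max.max 0 :=
            le_foldr_max (List.mem_map_of_mem (f := fun p : ℕ × ℝ => v.getD p.1 0) hp)
          have h5 : (Gate.any h l).level v =
            (l.map fun p => v.getD p.1 0).foldr Max.max 0 + 1 := rfl
          omega
        obtain ⟨h6, h7⟩ := count_args l h3
        rw [if_pos hl, if_pos hl]
        refine ⟨by omega, fun h8 => ⟨fun _ => h7 (by omega), h2 (by omega)⟩⟩
      · rw [if_neg hl, if_neg hl, zero_add, zero_add]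
        exact ⟨h1, fun h8 => ⟨fun h9 => hS1 (by omega), h2 h8⟩⟩

theorem same_zero (gs : List Gate) : ∀ (w w' : List ℝ) (v : List ℕ), Same 0 gs w w' v := by
  induction gs with
  | nil => intro w w' v; trivial
  | cons g gs ih =>
    intro w w' v
    cases g with
    | const r => exact ih _ _ _
    | max p q => exact ih _ _ _
    | mon φ hφ p q => exact ih _ _ _
    | any h l => exact ⟨fun h => absurd h (Nat.not_lt_zero _), ih _ _ _⟩

theorem Same.trace_eq {i : ℕ} (gs : List Gate) : ∀ (w w' : List ℝ) (v : List ℕ),
    Same i gs w w' v → depthFrom v gs < i → trace w gs = trace w' gs := by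
  induction gs with
  | nil => intro w w' v _ _; rfl
  | cons g gs ih =>
    intro w w' v hS hd
    have hd' : depthFrom (v ++ [g.level v]) gs < i := lt_of_le_of_lt (le_max_right _ _) hd
    have hd'' : g.level v < i := lt_of_le_of_lt (le_max_left _ _) hd
    cases g with
    | const r => exact ih _ _ _ hS hd'
    | max p q => exact ih _ _ _ hS hd'
    | mon φ hφ p q => exact ih _ _ _ hS hd'
    | any h l =>
      obtain ⟨hS1, hS2⟩ := hS
      have e := hS1 hd''
      simp only [trace]
      rw [ih _ _ _ hS2 hd', e]

/-- The potential. -/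
noncomputable def pot (n : ℕ) (gs : List Gate) (w : List ℝ) : ℕ :=
  radix (fun i => fanAt i gs (List.replicate n 0)) (fun i => ones i gs w (List.replicate n 0))
    (depth n gs + 1)

/-- The wires can only go up. -/
def Le (w w' : List ℝ) : Prop :=
  w.length = w'.length ∧ ∀ p, w.getD p 0 ≤ w'.getD p 0

theorem pot_step {n : ℕ} {gs : List Gate} {x y : List ℝ} (hx : x.length = n)
    (h : Le x y) :
    pot n gs x ≤ pot n gs y ∧ (trace x gs ≠ trace y gs → pot n gs x < pot n gs y) := by
  classical
  have hy : y.length = n := by rw [← h.1, hx]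
  set v : List ℕ := List.replicate n 0 with hv
  have hU : ∀ i, Up i x y v := fun i => ⟨by simp [hv, hx], by simp [hv, hy], fun p _ => h.2 p⟩
  have hS : ∀ i, (∀ j < i, ones j gs x v = ones j gs y v) → Same i gs x y v := by
    intro i
    induction i with
    | zero => intro _; exact same_zero _ _ _ _
    | succ i ih =>
      intro h1
      exact (step i gs x y v (hU i) (ih fun j hj => h1 j (by omega))).2 (h1 i (by omega))
  by_cases hall : ∀ j < depth n gs + 1, ones j gs x v = ones j gs y v
  · have h1 : trace x gs = trace y gs := (hS _ hall).trace_eq gs x y v (Nat.lt_succ_self _)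
    have h2 : pot n gs x = pot n gs y := radix_congr hall
    exact ⟨h2.le, fun h3 => absurd h1 h3⟩
  · push Not at hall
    have hex : ∃ j, j < depth n gs + 1 ∧ ones j gs x v ≠ ones j gs y v := hall
    obtain ⟨h1, h2⟩ := Nat.find_spec hex
    have h3 : ∀ j < Nat.find hex, ones j gs x v = ones j gs y v := by
      intro j hj
      by_contra hc
      exact Nat.find_min hex hj ⟨hj.trans h1, hc⟩
    have h4 := (step _ gs x y v (hU _) (hS _ h3)).1
    have h5 : pot n gs x < pot n gs y :=
      radix_lex (fun i => ones_le_fanAt i gs x v) h3 (lt_of_le_of_ne h4 h2) _ h1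
    exact ⟨h5.le, fun _ => h5⟩

theorem length_inp (x : List Bool) : (inp x).length = x.length := by simp [inp]

theorem getD_inp (x : List Bool) (p : ℕ) :
    (inp x).getD p 0 = if x.getD p false = true then 1 else 0 := by
  unfold inp
  by_cases hp : p < x.length
  · simp [List.getD_eq_getElem?_getD, hp]
  · simp [List.getD_eq_getElem?_getD, hp]

theorem le_inp {x y : List Bool} (hl : x.length = y.length)
    (h : ∀ p, x.getD p false = true → y.getD p false = true) : Le (inp x) (inp y) := by
  refine ⟨by rw [length_inp, length_inp, hl], fun p => ?_⟩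
  rw [getD_inp, getD_inp]
  split_ifs with h1 h2 h2
  · exact le_rfl
  · exact absurd (h p h1) h2
  · exact zero_le_one
  · exact le_rfl

theorem altLe_prod (n : ℕ) (gs : List Gate) :
    AltLe n gs (∏ i ∈ range (depth n gs + 1), (fanAt i gs (List.replicate n 0) + 1) - 1) := by
  intro m x hx
  have h1 : ((range m).filter fun i => trace (inp (x i)) gs ≠ trace (inp (x (i + 1))) gs).card +
      pot n gs (inp (x 0)) ≤ pot n gs (inp (x m)) := by
    induction m with
    | zero => simp
    | succ m ih =>
      have h2 := pot_step (gs := gs) (n := n) ((length_inp _).trans (hx.1 m))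
        (le_inp ((hx.1 m).trans (hx.1 (m + 1)).symm) (hx.2 m))
      rw [range_add_one, filter_insert]
      split_ifs with h3
      · rw [card_insert_of_notMem (by simp)]
        have := h2.2 h3
        omega
      · have := h2.1
        omega
  have h2 : pot n gs (inp (x m)) <
      ∏ i ∈ range (depth n gs + 1), (fanAt i gs (List.replicate n 0) + 1) :=
    radix_lt (fun i => ones_le_fanAt i gs _ _) _
  omega

theorem sum_fanAt (gs : List Gate) : ∀ (v : List ℕ) (d : ℕ), depthFrom v gs ≤ d →
    ∑ i ∈ range d, fanAt (i + 1) gs v = fan gs := by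
  induction gs with
  | nil => intro v d _; simp [fanAt, fan]
  | cons g gs ih =>
    intro v d hd
    have hd' : depthFrom (v ++ [g.level v]) gs ≤ d := (le_max_right _ _).trans hd
    have hd'' : g.level v ≤ d := (le_max_left _ _).trans hd
    cases g with
    | const r => exact ih _ _ hd'
    | max p q => exact ih _ _ hd'
    | mon φ hφ p q => exact ih _ _ hd'
    | any h l =>
      simp only [fanAt, fan]
      rw [sum_add_distrib, ih _ _ hd']
      congr 1
      have h5 : (Gate.any h l).level v =
        (l.map fun p => v.getD p.1 0).foldr Max.max 0 + 1 := rfl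
      rw [h5] at hd'' ⊢
      set c := (l.map fun p => v.getD p.1 0).foldr Max.max 0
      rw [sum_eq_single c]
      · rw [if_pos rfl]
      · intro b _ hb
        rw [if_neg (by omega)]
      · intro hc
        exact absurd (mem_range.2 (by omega)) hc

theorem fanAt_zero (gs : List Gate) : ∀ v : List ℕ, fanAt 0 gs v = 0 := by
  induction gs with
  | nil => intro v; rfl
  | cons g gs ih =>
    intro v
    cases g with
    | const r => exact ih _
    | max p q => exact ih _
    | mon φ hφ p q => exact ih _
    | any h l =>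
      simp only [fanAt]
      rw [ih, if_neg (by simp [Gate.level])]

theorem fanAt_eq_zero (gs : List Gate) : ∀ (v : List ℕ) (i : ℕ), depthFrom v gs < i →
    fanAt i gs v = 0 := by
  induction gs with
  | nil => intro v i _; rfl
  | cons g gs ih =>
    intro v i hd
    have hd' : depthFrom (v ++ [g.level v]) gs < i := lt_of_le_of_lt (le_max_right _ _) hd
    have hd'' : g.level v < i := lt_of_le_of_lt (le_max_left _ _) hd
    cases g with
    | const r => exact ih _ _ hd'
    | max p q => exact ih _ _ hd'
    | mon φ hφ p q => exact ih _ _ hd'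
    | any h l =>
      simp only [fanAt]
      rw [ih _ _ hd', if_neg hd''.ne]

/-- The alternation is bounded in terms of the nesting depth and the number of bits read by the
arbitrary gates. -/
theorem altLe_depth {n d : ℕ} {gs : List Gate} (hd : 1 ≤ d) (h : depth n gs ≤ d) :
    ∃ A, AltLe n gs A ∧ (A + 1 : ℝ) ≤ (fan gs / d + 1 : ℝ) ^ d := by
  refine ⟨_, altLe_prod n gs, ?_⟩
  set v : List ℕ := List.replicate n 0 with hv
  have h1 : ∏ i ∈ range (depth n gs + 1), (fanAt i gs v + 1) =
      ∏ i ∈ range (d + 1), (fanAt i gs v + 1) := by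
    refine prod_subset (range_subset_range.2 (by omega)) fun i _ hi => ?_
    rw [mem_range, not_lt] at hi
    have h0 : depth n gs = depthFrom v gs := rfl
    rw [fanAt_eq_zero gs v i (by omega), zero_add]
  have h2 : ∏ i ∈ range (d + 1), (fanAt i gs v + 1) = ∏ i ∈ range d, (fanAt (i + 1) gs v + 1) := by
    rw [prod_range_succ', fanAt_zero]
    simp
  have h3 := prod_le_mean d hd fun i => fanAt (i + 1) gs v
  rw [sum_fanAt gs v d h] at h3
  have h4 : 1 ≤ ∏ i ∈ range (depth n gs + 1), (fanAt i gs v + 1) :=
    Nat.one_le_iff_ne_zero.2 (prod_ne_zero_iff.2 fun i _ => by omega)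
  have h5 : ((∏ i ∈ range (depth n gs + 1), (fanAt i gs v + 1) - 1 : ℕ) + 1 : ℝ) =
      ((∏ i ∈ range d, (fanAt (i + 1) gs v + 1) : ℕ) : ℝ) := by
    rw [← h2, ← h1, Nat.cast_sub h4]
    push_cast
    ring
  rw [h5]
  exact h3

/-! ### The number of traces -/

theorem Le.append {w w' : List ℝ} (h : Le w w') {b b' : ℝ} (hb : b ≤ b') :
    Le (w ++ [b]) (w' ++ [b']) := by
  obtain ⟨h1, h2⟩ := h
  refine ⟨by simp [h1], fun p => ?_⟩
  rcases lt_trichotomy p w.length with hl | hl | hl
  · rw [List.getD_append _ _ _ _ hl, List.getD_append _ _ _ _ (h1 ▸ hl)]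
    exact h2 p
  · subst hl
    rw [List.getD_append_right _ _ _ _ le_rfl, List.getD_append_right _ _ _ _ h1.ge, ← h1]
    simp only [Nat.sub_self, List.getD_cons_zero]
    exact hb
  · rw [List.getD_append_right _ _ _ _ (by omega), List.getD_append_right _ _ _ _ (by omega)]
    have e1 : p - w.length = (p - w.length - 1) + 1 := by omega
    rw [← h1, e1]
    simp

theorem args_between {w₁ w₂ w₃ : List ℝ} (h₁ : Le w₁ w₂) (h₂ : Le w₂ w₃) (l : List (ℕ × ℝ))
    (h : args w₁ l = args w₃ l) : args w₂ l = args w₁ l := by
  have c1 := count_args (w := w₁) (w' := w₂) l fun p _ => h₁.2 p.1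
  have c2 := count_args (w := w₂) (w' := w₃) l fun p _ => h₂.2 p.1
  rw [h] at c1 ⊢
  exact c2.2 (le_antisymm c2.1 c1.1)

theorem trace_between (gs : List Gate) : ∀ w₁ w₂ w₃ : List ℝ, Le w₁ w₂ → Le w₂ w₃ →
    trace w₁ gs = trace w₃ gs → trace w₂ gs = trace w₁ gs := by
  induction gs with
  | nil => intro _ _ _ _ _ _; rfl
  | cons g gs ih =>
    intro w₁ w₂ w₃ h₁ h₂ h
    cases g with
    | const r => exact ih _ _ _ (h₁.append le_rfl) (h₂.append le_rfl) h
    | max p q =>
      exact ih _ _ _ (h₁.append (max_le_max (h₁.2 p) (h₁.2 q)))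
        (h₂.append (max_le_max (h₂.2 p) (h₂.2 q))) h
    | mon φ hφ p q =>
      exact ih _ _ _ (h₁.append (hφ _ _ _ _ (h₁.2 p) (h₁.2 q)))
        (h₂.append (hφ _ _ _ _ (h₂.2 p) (h₂.2 q))) h
    | any f l =>
      simp only [trace, List.cons.injEq] at h ⊢
      obtain ⟨h3, h4⟩ := h
      have h5 := args_between h₁ h₂ l h3
      refine ⟨h5, ih _ _ _ (h₁.append ?_) (h₂.append ?_) h4⟩
      · rw [h5]
      · rw [h5, h3]

theorem Chain.le {n : ℕ} {x : ℕ → List Bool} (h : Chain n x) {i j : ℕ} (hij : i ≤ j) :
    Le (inp (x i)) (inp (x j)) := by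
  refine le_inp (by rw [h.1, h.1]) ?_
  induction j, hij using Nat.le_induction with
  | base => exact fun _ h => h
  | succ j _ ih => exact fun p hp => h.2 j p (ih p hp)

theorem mem_traces {n : ℕ} {gs : List Gate} {x : List Bool} (hx : x.length = n) :
    trace (inp x) gs ∈ traces n gs := by
  subst hx
  unfold traces
  refine mem_image.2 ⟨fun i => x[i], mem_univ _, ?_⟩
  rw [show (List.ofFn fun i : Fin x.length => x[i]) = x from List.ofFn_getElem ..]

/-- Along an increasing chain, no value of the bits read by the arbitrary gates comes back. -/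
theorem altLe_traces (n : ℕ) (gs : List Gate) : AltLe n gs ((traces n gs).card - 1) := by
  classical
  intro m x hx
  set S := (range m).filter fun i => trace (inp (x i)) gs ≠ trace (inp (x (i + 1))) gs with hS
  have hmem : ∀ i ∈ S, trace (inp (x i)) gs ≠ trace (inp (x (i + 1))) gs :=
    fun i hi => (mem_filter.1 hi).2
  have hinj : Set.InjOn (fun i => trace (inp (x (i + 1))) gs) (S : Set ℕ) := by
    have key : ∀ i j, j ∈ S → i < j →
        trace (inp (x (i + 1))) gs ≠ trace (inp (x (j + 1))) gs := by
      intro i j hj hij he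
      have := trace_between gs _ _ _ (hx.le (show i + 1 ≤ j by omega))
        (hx.le (show j ≤ j + 1 by omega)) he
      exact hmem j hj (this.trans he)
    intro i hi j hj he
    rcases lt_trichotomy i j with h | h | h
    · exact absurd he (key i j hj h)
    · exact h
    · exact absurd he.symm (key j i hi h)
  have hnot : trace (inp (x 0)) gs ∉ S.image fun i => trace (inp (x (i + 1))) gs := by
    intro h
    obtain ⟨i, hi, he⟩ := mem_image.1 h
    have := trace_between gs _ _ _ (hx.le (Nat.zero_le i)) (hx.le (show i ≤ i + 1 by omega))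
      he.symm
    exact hmem i hi (this.trans he.symm)
  have h1 : (insert (trace (inp (x 0)) gs)
      (S.image fun i => trace (inp (x (i + 1))) gs)).card ≤ (traces n gs).card := by
    refine card_le_card fun y hy => ?_
    rcases mem_insert.1 hy with rfl | hy
    · exact mem_traces (hx.1 0)
    · obtain ⟨i, _, rfl⟩ := mem_image.1 hy
      exact mem_traces (hx.1 _)
  rw [card_insert_of_notMem hnot, card_image_of_injOn hinj] at h1
  omega

theorem traces_card_pos (n : ℕ) (gs : List Gate) : 1 ≤ (traces n gs).card :=
  card_pos.2 ⟨_, mem_traces (List.length_replicate (n := n) (a := false))⟩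

end Pool.Agent.Lib.MP_70d3b5_lc.Real
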