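import Pool.Agent.Lib.MP_70d3b5_lc.Arb.Stage
import Pool.Agent.Lib.MP_70d3b5_lc.Real.Circuit
import Pool.Agent.Lib.MP_70d3b5_lc.Real.Level

/-!
# Changes along the stages of the noise
-/

open Finset

namespace Pool.Agent.Lib.MP_70d3b5_lc.Real

open Arb (SetAlt sum_noise)

/-! ### The output as an additional arbitrary gate -/

/-- The circuit with an additional arbitrary gate that reads the output. -/
def addOut (gs : List Gate) (out : ℕ) : List Gate := gs ++ [.any (fun _ => 0) [(out, 1)]]

theorem trace_addOut (gs : List Gate) (out : ℕ) : ∀ w : List ℝ,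
    trace w (addOut gs out) = trace w gs ++ [args (run w gs) [(out, 1)]] := by
  unfold addOut
  induction gs with
  | nil => intro w; rfl
  | cons g gs ih =>
    intro w
    cases g with
    | const r => exact ih _
    | max p q => exact ih _
    | mon φ hφ p q => exact ih _
    | any h l =>
      simp only [List.cons_append, trace]
      rw [ih]
      rfl

theorem mons_addOut (gs : List Gate) (out : ℕ) : mons (addOut gs out) = mons gs := by
  unfold addOut
  induction gs with
  | nil => rfl
  | cons g gs ih =>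
    cases g with
    | const r => exact ih
    | max p q => exact ih
    | mon φ hφ p q => exact congrArg (· + 1) ih
    | any h l => exact ih

/-- The output bit. -/
def outB (gs : List Gate) (out : ℕ) (w : List ℝ) : Prop := 1 ≤ (run w gs).getD out 0

theorem trace_addOut_eq {gs : List Gate} {out : ℕ} {w w' : List ℝ} :
    trace w (addOut gs out) = trace w' (addOut gs out) ↔
      trace w gs = trace w' gs ∧ (outB gs out w ↔ outB gs out w') := by
  classical
  rw [trace_addOut, trace_addOut]
  unfold outB
  constructor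
  · intro h
    obtain ⟨h1, h2⟩ := List.append_inj' h rfl
    simp only [args, List.map_cons, List.map_nil, List.cons.injEq, and_true] at h2
    exact ⟨h1, decide_eq_decide.1 h2⟩
  · rintro ⟨h1, h2⟩
    rw [h1]
    simp only [args, List.map_cons, List.map_nil]
    rw [decide_eq_decide.2 h2]

theorem run_mono (gs : List Gate) : ∀ (w w' : List ℝ), Le w w' → trace w gs = trace w' gs →
    Le (run w gs) (run w' gs) := by
  induction gs with
  | nil => intro w w' h _; exact h
  | cons g gs ih =>
    intro w w' h ht
    cases g with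
    | const r => exact ih _ _ (h.append le_rfl) ht
    | max p q => exact ih _ _ (h.append (max_le_max (h.2 p) (h.2 q))) ht
    | mon φ hφ p q => exact ih _ _ (h.append (hφ _ _ _ _ (h.2 p) (h.2 q))) ht
    | any f l =>
      simp only [trace, List.cons.injEq] at ht
      refine ih _ _ (h.append (le_of_eq ?_)) ht.2
      simp only [Gate.eval]
      rw [ht.1]

theorem AltLe.addOut {n : ℕ} {gs : List Gate} {out A : ℕ} (h : AltLe n gs A) :
    AltLe n (addOut gs out) (2 * A + 1) := by
  classical
  intro m x hx
  have h1 : ∀ m : ℕ, ((range m).filter fun i => trace (inp (x i)) (Real.addOut gs out) ≠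
      trace (inp (x (i + 1))) (Real.addOut gs out)).card +
      (if outB gs out (inp (x m)) then 0 else 1) ≤
      2 * ((range m).filter fun i =>
        trace (inp (x i)) gs ≠ trace (inp (x (i + 1))) gs).card + 1 := by
    intro m
    induction m with
    | zero => simp; split_ifs <;> omega
    | succ m ih =>
      rw [range_add_one, filter_insert, filter_insert]
      by_cases ht : trace (inp (x m)) gs = trace (inp (x (m + 1))) gs
      · rw [if_neg (not_not.2 ht)]
        have hle : Le (inp (x m)) (inp (x (m + 1))) :=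
          le_inp ((hx.1 m).trans (hx.1 (m + 1)).symm) (hx.2 m)
        have hm : outB gs out (inp (x m)) → outB gs out (inp (x (m + 1))) :=
          fun h => h.trans ((run_mono gs _ _ hle ht).2 out)
        by_cases hb : outB gs out (inp (x m)) ↔ outB gs out (inp (x (m + 1)))
        · rw [if_neg (not_not.2 (trace_addOut_eq.2 ⟨ht, hb⟩))]
          have : (if outB gs out (inp (x (m + 1))) then 0 else 1) =
              (if outB gs out (inp (x m)) then 0 else 1) := by simp only [hb]
          rw [this]
          exact ih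
        · rw [if_pos (fun hc => hb (trace_addOut_eq.1 hc).2), card_insert_of_notMem (by simp)]
          have h3 : ¬ outB gs out (inp (x m)) := fun h3 => hb ⟨hm, fun _ => h3⟩
          have h4 : outB gs out (inp (x (m + 1))) := by
            by_contra h4
            exact hb ⟨hm, fun h => absurd h h4⟩
          rw [if_neg h3] at ih
          rw [if_pos h4]
          omega
      · rw [if_pos ht, if_pos (fun hc => ht (trace_addOut_eq.1 hc).1),
          card_insert_of_notMem (by simp), card_insert_of_notMem (by simp)]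
        split_ifs at ih ⊢ <;> omega
  have h2 := h1 m
  have h3 := h m x hx
  omega

/-! ### The sum over the stages -/

variable {U V : Type} [Fintype V] [DecidableEq V] [Fintype U] [Nonempty U]

/-- The sum over the stages of the probability that a random set `S u` changes `T`, when the
changes above any given set are detected by monotone real functions of small complexity. -/
theorem sum_signal {τ : Type} {T : Finset V → τ} {A : ℕ} (hT : SetAlt T A) {S : U → Finset V}
    {q κ : ℝ} {w N b m : ℕ} (hN : 0 < N) (hw : 1 ≤ w)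
    (hb : 2 ≤ b) (hκ : 0 < κ) (hκL : ((2 * w : ℕ) : ℝ) * N ≤ κ) (hκq : 4 * κ ≤ q)
    (hS : Spread S q (2 * w)) {s : ℕ} (g : Finset V → Finset V → Prop)
    (hg : ∀ X, ∃ F, RC s F ∧ ind (g X) ∈ F) (hgT : ∀ X Y, X ⊆ Y → (g X Y ↔ T X ≠ T Y)) :
    ∑ j ∈ range m, pr (fun p : (Fin j → Fin b → V → Fin N) × U =>
      T (RR p.1) ≠ T (RR p.1 ∪ S p.2)) ≤
    A + m * (s * ((κ / q) ^ (w + 1) + numSets V (2 * w) * (2 / 3) ^ b) + (2 / 3) ^ b) := by
  classical
  set ε : ℝ := s * ((κ / q) ^ (w + 1) + numSets V (2 * w) * (2 / 3) ^ b) + (2 / 3) ^ b with hε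
  have hne : Nonempty (Fin N) := ⟨⟨0, hN⟩⟩
  have h1 : ∀ j ∈ range m, pr (fun p : (Fin j → Fin b → V → Fin N) × U =>
      T (RR p.1) ≠ T (RR p.1 ∪ S p.2)) ≤
      pr (fun p : (Fin j → Fin b → V → Fin N) × (Fin b → V → Fin N) =>
        T (RR p.1) ≠ T (RR p.1 ∪ ZZ p.2)) + ε := by
    intro j _
    rw [pr_prod (fun (ω : Fin j → Fin b → V → Fin N) (u : U) => T (RR ω) ≠ T (RR ω ∪ S u)),
      pr_prod (fun (ω : Fin j → Fin b → V → Fin N) (z : Fin b → V → Fin N) =>
        T (RR ω) ≠ T (RR ω ∪ ZZ z))]
    have h3 : ∀ ω : Fin j → Fin b → V → Fin N, pr (fun u => T (RR ω) ≠ T (RR ω ∪ S u)) ≤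
        pr (fun z : Fin b → V → Fin N => T (RR ω) ≠ T (RR ω ∪ ZZ z)) + ε := by
      intro ω
      obtain ⟨F, hF, hgF⟩ := hg (RR ω)
      have h4 := (hF.restrict (RR ω)).compare hN hw hb hκ hκL hκq hS (b := b)
        (List.mem_map_of_mem (f := fun f X => f (RR ω ∪ X)) hgF) 1
      have e1 : pr (fun u => 1 ≤ ind (g (RR ω)) (RR ω ∪ S u)) =
          pr (fun u => T (RR ω) ≠ T (RR ω ∪ S u)) :=
        pr_congr fun u => one_le_ind.trans (hgT _ _ subset_union_left)
      have e2 : pr (fun z : Fin b → V → Fin N => 1 ≤ ind (g (RR ω)) (RR ω ∪ ZZ z)) =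
          pr (fun z : Fin b → V → Fin N => T (RR ω) ≠ T (RR ω ∪ ZZ z)) :=
        pr_congr fun z => one_le_ind.trans (hgT _ _ subset_union_left)
      rw [← e1, ← e2]
      exact h4
    have h0 : (0 : ℝ) < Fintype.card (Fin j → Fin b → V → Fin N) := by
      have : 0 < Fintype.card (Fin j → Fin b → V → Fin N) := Fintype.card_pos
      exact_mod_cast this
    rw [div_add' _ _ _ h0.ne']
    refine div_le_div_of_nonneg_right ?_ h0.le
    refine (sum_le_sum fun ω _ => h3 ω).trans ?_
    rw [sum_add_distrib]
    simp [mul_comm]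
  refine (sum_le_sum h1).trans ?_
  rw [sum_add_distrib]
  have h2 := sum_noise (b := b) (m := m) hT hN
  simp only [sum_const, card_range, nsmul_eq_mul]
  linarith

/-! ### Encodings of sets by input strings -/

/-- A map from sets to strings of length `n` each of whose bits is constant or tells whether a
fixed element belongs to the set. -/
structure Enc (V : Type) (n : ℕ) where
  /-- the string of a set -/
  str : Finset V → List Bool
  /-- the length -/
  len : ∀ X, (str X).length = n
  /-- the bits -/
  bit : ∀ p, (∃ c : Bool, ∀ X, (str X).getD p false = c) ∨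
    (∃ v : V, ∀ X, (str X).getD p false = true ↔ v ∈ X)

/-- The functions on the input wires. -/
noncomputable def Enc.inputs {n : ℕ} (e : Enc V n) : List (Finset V → ℝ) :=
  (List.range n).map fun p X => if (e.str X).getD p false = true then 1 else 0

omit [Fintype V] [DecidableEq V] in
theorem Enc.match_inputs {n : ℕ} (e : Enc V n) (X : Finset V) :
    Match (inp (e.str X)) e.inputs X := by
  refine ⟨by rw [length_inp, e.len]; simp [Enc.inputs], fun i => ?_⟩
  rw [getD_inp]
  by_cases hi : i < n
  · simp [wire, Enc.inputs, List.getD_eq_getElem?_getD, hi]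
  · have h1 : (e.str X).getD i false = false := by
      rw [List.getD_eq_default]
      rw [e.len]
      omega
    rw [h1]
    simp [wire, Enc.inputs, List.getD_eq_getElem?_getD, hi]

omit [Fintype V] [DecidableEq V] in
theorem Enc.mono {n : ℕ} (e : Enc V n) {X Y : Finset V} (h : X ⊆ Y) (p : ℕ)
    (hp : (e.str X).getD p false = true) : (e.str Y).getD p false = true := by
  rcases e.bit p with ⟨c, hc⟩ | ⟨v, hv⟩
  · rw [hc] at hp ⊢
    exact hp
  · exact (hv Y).2 (h ((hv X).1 hp))

theorem Enc.inputs_rc {n : ℕ} (e : Enc V n) : ∃ F : List (Finset V → ℝ),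
    RC 0 F ∧ ∀ i, wire e.inputs i ∈ F := by
  classical
  have h1 : ∀ l : List V, ∃ F : List (Finset V → ℝ), RC 0 F ∧
      (∀ v ∈ l, (fun X : Finset V => if v ∈ X then (1 : ℝ) else 0) ∈ F) ∧ (fun _ => 0) ∈ F ∧
      (fun _ => 1) ∈ F := by
    intro l
    induction l with
    | nil => exact ⟨_, (RC.nil.const 0).const 1, by simp, by simp, by simp⟩
    | cons v l ih =>
      obtain ⟨F, a1, a2, a3, a4⟩ := ih
      refine ⟨_, a1.var v, ?_, List.mem_cons_of_mem _ a3, List.mem_cons_of_mem _ a4⟩
      intro u hu
      rcases List.mem_cons.1 hu with rfl | hu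
      · exact List.mem_cons_self ..
      · exact List.mem_cons_of_mem _ (a2 u hu)
  obtain ⟨F, a1, a2, a3, a4⟩ := h1 univ.toList
  refine ⟨F, a1, fun i => ?_⟩
  by_cases hi : i < n
  · have e1 : wire e.inputs i =
        fun X : Finset V => if (e.str X).getD i false = true then 1 else 0 := by
      simp [wire, Enc.inputs, List.getD_eq_getElem?_getD, hi]
    rw [e1]
    rcases e.bit i with ⟨c, hc⟩ | ⟨v, hv⟩
    · simp only [hc]
      cases c
      · simpa using a3
      · simpa using a4
    · simp only [hv]
      exact a2 v (by simp)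
  · have e1 : wire e.inputs i = fun _ : Finset V => (0 : ℝ) := by
      simp [wire, Enc.inputs, List.getD_eq_getElem?_getD, hi]
    rw [e1]
    exact a3

/-- The bits read by the arbitrary gates and the output bit. -/
noncomputable def Enc.tr {n : ℕ} (e : Enc V n) (gs : List Gate) (out : ℕ) (X : Finset V) :
    List (List Bool) := trace (inp (e.str X)) (addOut gs out)

omit [Fintype V] [DecidableEq V] in
theorem Enc.setAlt {n : ℕ} (e : Enc V n) {gs : List Gate} {out A : ℕ} (hA : AltLe n gs A) :
    SetAlt (e.tr gs out) (2 * A + 1) := by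
  classical
  intro m X hX I hI
  have h1 := hA.addOut (out := out) m (fun i => e.str (X i))
    ⟨fun i => e.len _, fun i p hp => e.mono (hX i) p hp⟩
  refine (card_le_card fun i hi => ?_).trans h1
  obtain ⟨h2, h3⟩ := hI i hi
  exact mem_filter.2 ⟨mem_range.2 h2, h3⟩

/-- The main lemma on the stages, above a fixed set `X₀`. -/
theorem Enc.stages {n : ℕ} (e : Enc V n) {gs : List Gate} {out A : ℕ} (hA : AltLe n gs A)
    {S : U → Finset V} {q κ : ℝ} {w N b m : ℕ} (hN : 0 < N) (hw : 1 ≤ w)
    (hb : 2 ≤ b) (hκ : 0 < κ) (hκL : ((2 * w : ℕ) : ℝ) * N ≤ κ) (hκq : 4 * κ ≤ q)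
    (hS : Spread S q (2 * w)) (X₀ : Finset V) :
    ∑ j ∈ range m, pr (fun p : (Fin j → Fin b → V → Fin N) × U =>
      e.tr gs out (X₀ ∪ RR p.1) ≠ e.tr gs out (X₀ ∪ RR p.1 ∪ S p.2)) ≤
    (2 * A + 1) + m * (mons gs * ((κ / q) ^ (w + 1) + numSets V (2 * w) * (2 / 3) ^ b) +
      (2 / 3) ^ b) := by
  classical
  obtain ⟨F₀, hF₀, hW₀⟩ := e.inputs_rc
  have hT : SetAlt (fun X => e.tr gs out (X₀ ∪ X)) (2 * A + 1) := by
    intro m X hX I hI
    exact e.setAlt hA m (fun i => X₀ ∪ X i) (fun i => union_subset_union_right (hX i)) I hI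
  have hmono : ∀ (X Y : Finset V), X ⊆ Y → ∀ i, wire e.inputs i X ≤ wire e.inputs i Y := by
    intro X Y hXY i
    have h1 := (e.match_inputs X).2 i
    have h2 := (e.match_inputs Y).2 i
    rw [← h1, ← h2]
    exact (le_inp ((e.len X).trans (e.len Y).symm) (fun p => e.mono hXY p)).2 i
  have key := sum_signal (m := m) (b := b) hT hN hw hb hκ hκL hκq hS (s := mons gs)
    (fun X Y => simG (addOut gs out) e.inputs (e.tr gs out (X₀ ∪ X)) (X₀ ∪ Y)) (fun X => by
      obtain ⟨F', h1, _, h3, _⟩ :=
        sim_rc (addOut gs out) 0 e.inputs F₀ (e.tr gs out (X₀ ∪ X)) hF₀ hW₀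
      rw [zero_add, mons_addOut] at h1
      refine ⟨_, h1.restrict X₀, ?_⟩
      have := List.mem_map_of_mem (f := fun (f : Finset V → ℝ) X => f (X₀ ∪ X)) h3
      exact this) (fun X Y hXY => by
      constructor
      · intro h1 h2
        have h3 := (sim_true (addOut gs out) (inp (e.str (X₀ ∪ Y))) e.inputs
          (e.match_inputs (X₀ ∪ Y))).2
        change ¬ simG (addOut gs out) e.inputs (e.tr gs out (X₀ ∪ Y)) (X₀ ∪ Y) at h3
        rw [← h2] at h3
        exact h3 h1
      · intro h1
        by_contra h2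
        exact h1 (sim_mono (addOut gs out) (inp (e.str (X₀ ∪ X))) (inp (e.str (X₀ ∪ Y))) e.inputs
          (e.match_inputs _) (e.match_inputs _)
          (hmono _ _ (union_subset_union_right hXY)) h2).symm)
  simp only [union_assoc]
  simp only [Nat.cast_add, Nat.cast_mul, Nat.cast_ofNat, Nat.cast_one] at key
  exact key

end Pool.Agent.Lib.MP_70d3b5_lc.Real
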