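import Pool.Agent.Lib.MP_70d3b5_lc.Arb.Avg
import Pool.Agent.Lib.MP_70d3b5_lc.Real.Stage

/-!
# The hard distribution for real gates
-/

open Finset

namespace Pool.Agent.Lib.MP_70d3b5_lc.Real

open Arb (dist sum_dist)

open Classical in
/-- The probability that the circuit with gates `gs` and output wire `out` is correct for `L`, for
the distribution `D` on the inputs of length `n`. -/
noncomputable def success (L : Set (List Bool)) {n : ℕ} (D : (Fin n → Bool) → ℝ)
    (gs : List Gate) (out : ℕ) : ℝ :=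
  ∑ x : Fin n → Bool, if Correct L gs out (List.ofFn x) then D x else 0

/-- The encoding used in the worst case. -/
noncomputable def encE {k q : ℕ} [NeZero q] (h s n : ℕ) : Enc (Fin k × ZMod q) n where
  str X := enc h s n X
  len X := length_enc _ _ _ X
  bit p := by
    by_cases hp : p < n
    · by_cases h1 : p = s
      · left
        refine ⟨true, fun X => ?_⟩
        rw [getD_enc X hp]
        exact Or.inl h1
      · by_cases h2 : ∃ v : Fin k × ZMod q, p = pos h v
        · right
          obtain ⟨v, hv⟩ := h2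
          refine ⟨v, fun X => ?_⟩
          rw [getD_enc X hp]
          constructor
          · rintro (h3 | ⟨w, hw, h3⟩)
            · exact absurd h3 h1
            · rwa [← pos_inj h (h3.trans hv)]
          · intro h3
            exact Or.inr ⟨v, h3, hv.symm⟩
        · left
          refine ⟨false, fun X => ?_⟩
          rw [Bool.eq_false_iff, ne_eq, getD_enc X hp]
          rintro (h3 | ⟨w, hw, h3⟩)
          · exact h1 h3
          · exact h2 ⟨w, h3.symm⟩
    · left
      refine ⟨false, fun X => ?_⟩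
      rw [List.getD_eq_default]
      rw [length_enc]
      omega

/-- The success probability of a circuit on the hard distribution. -/
theorem success_le {h s n k q w b m N : ℕ} [Fact q.Prime] (hk : k ≤ q)
    (hd : 2 * w ≤ q) (hw : 1 ≤ w) (hb : 2 ≤ b) (hm : 0 < m) (hN : 2 * b * m ≤ N)
    (hq : 4 * (2 * w * N) ≤ q) (gs : List Gate) (out : ℕ) (L : Set (List Bool))
    (hC : ∀ X : Finset (Fin k × ZMod q), enc h s n X ∈ L ↔
      ∃ c : Fin (2 * w) → ZMod q, graph k c ⊆ X) {A : ℕ} (hA : AltLe n gs A) :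
    success L (dist q w m N b h s n k) gs out ≤ 1 / 2 + (A + 1) / m +
      ((mons gs * ((1 / 4) ^ (w + 1) + numSets (Fin k × ZMod q) (2 * w) * (2 / 3) ^ b) +
      (2 / 3) ^ b) + (q : ℝ) ^ (2 * w) * (1 / 2) ^ k) / 2 := by
  classical
  have hq0 : 0 < q := (Fact.out : q.Prime).pos
  have hN0 : 0 < N := lt_of_lt_of_le (by positivity) hN
  have hne : Nonempty (Fin N) := ⟨⟨0, hN0⟩⟩
  have : NeZero q := ⟨hq0.ne'⟩
  have hqR : (0 : ℝ) < q := by exact_mod_cast hq0
  have hmR : (0 : ℝ) < m := by exact_mod_cast hm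
  set T : Finset (Fin k × ZMod q) → List (List Bool) := fun X =>
    trace (inp (enc h s n X)) (addOut gs out) with hTdef
  set κ : ℝ := ((2 * w : ℕ) : ℝ) * N with hκ
  have hκ0 : 0 < κ := by
    have h1 : (0 : ℝ) < ((2 * w : ℕ) : ℝ) := by
      have : 0 < 2 * w := by omega
      exact_mod_cast this
    have h2 : (0 : ℝ) < N := by exact_mod_cast hN0
    positivity
  have hκq : 4 * κ ≤ q := by
    rw [hκ]
    exact_mod_cast hq
  have hκq' : κ / q ≤ 1 / 4 := by
    rw [div_le_div_iff₀ hqR (by norm_num)]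
    linarith
  have hpow : (κ / q) ^ (w + 1) ≤ (1 / 4) ^ (w + 1) :=
    pow_le_pow_left₀ (by positivity) hκq' _
  have hsig := (encE (k := k) (q := q) h s n).stages (out := out) hA
    (S := fun c : Fin (2 * w) → ZMod q => graph k c) (q := q) (κ := κ) (w := w) (N := N)
    (b := b) (m := m) hN0 hw hb hκ0 le_rfl hκq (spread_graph hk hd) ∅
  simp only [empty_union] at hsig
  set ε : ℝ := mons gs * ((1 / 4) ^ (w + 1) +
    numSets (Fin k × ZMod q) (2 * w) * (2 / 3) ^ b) + (2 / 3) ^ b with hε
  set η : ℝ := (q : ℝ) ^ (2 * w) * (1 / 2) ^ k with hη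
  have hsig' : ∑ j ∈ range m, pr (fun p : (Fin j → Fin b → Fin k × ZMod q → Fin N) ×
      (Fin (2 * w) → ZMod q) => T (RR p.1) ≠ T (RR p.1 ∪ graph k p.2)) ≤
      (2 * A + 1) + m * ε := by
    refine hsig.trans ?_
    rw [hε]
    gcongr
  have h1 : success L (dist q w m N b h s n k) gs out = 1 / (2 * m) * ∑ j ∈ range m,
      (pr (fun ω : Fin j → Fin b → Fin k × ZMod q → Fin N => Correct L gs out (enc h s n (RR ω))) +
      pr (fun p : (Fin j → Fin b → Fin k × ZMod q → Fin N) × (Fin (2 * w) → ZMod q) =>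
        Correct L gs out (enc h s n (RR p.1 ∪ graph k p.2)))) :=
    sum_dist hN0 (fun x => Correct L gs out x)
  have h2 : ∀ j ∈ range m,
      pr (fun ω : Fin j → Fin b → Fin k × ZMod q → Fin N => Correct L gs out (enc h s n (RR ω))) +
      pr (fun p : (Fin j → Fin b → Fin k × ZMod q → Fin N) × (Fin (2 * w) → ZMod q) =>
        Correct L gs out (enc h s n (RR p.1 ∪ graph k p.2))) ≤
      1 + η + pr (fun p : (Fin j → Fin b → Fin k × ZMod q → Fin N) ×
      (Fin (2 * w) → ZMod q) => T (RR p.1) ≠ T (RR p.1 ∪ graph k p.2)) := by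
    intro j hj
    have e1 : pr (fun ω : Fin j → Fin b → Fin k × ZMod q → Fin N =>
        Correct L gs out (enc h s n (RR ω))) =
        pr (fun p : (Fin j → Fin b → Fin k × ZMod q → Fin N) × (Fin (2 * w) → ZMod q) =>
        Correct L gs out (enc h s n (RR p.1))) :=
      (pr_fst (fun ω : Fin j → Fin b → Fin k × ZMod q → Fin N =>
        Correct L gs out (enc h s n (RR ω)))).symm
    have e2 : pr (fun p : (Fin j → Fin b → Fin k × ZMod q → Fin N) × (Fin (2 * w) → ZMod q) =>
        Correct L gs out (enc h s n (RR p.1 ∪ graph k p.2))) ≤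
        pr (fun p : (Fin j → Fin b → Fin k × ZMod q → Fin N) × (Fin (2 * w) → ZMod q) =>
          ¬ Correct L gs out (enc h s n (RR p.1))) +
        pr (fun p : (Fin j → Fin b → Fin k × ZMod q → Fin N) × (Fin (2 * w) → ZMod q) =>
          (∃ c : Fin (2 * w) → ZMod q, graph k c ⊆ RR p.1) ∨
            T (RR p.1) ≠ T (RR p.1 ∪ graph k p.2)) := by
      refine (pr_mono fun p hp => ?_).trans (pr_or_le _ _)
      by_cases h3 : Correct L gs out (enc h s n (RR p.1))
      · right
        by_cases h4 : ∃ c : Fin (2 * w) → ZMod q, graph k c ⊆ RR p.1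
        · exact Or.inl h4
        · right
          intro h5
          have h6 := (trace_addOut_eq.1 h5).2
          have h7 : enc h s n (RR p.1 ∪ graph k p.2) ∈ L :=
            (hC _).2 ⟨p.2, subset_union_right⟩
          have h8 := h6.2 (hp.2 h7)
          exact h4 ((hC _).1 (h3.1 h8))
      · exact Or.inl h3
    have e3 : pr (fun p : (Fin j → Fin b → Fin k × ZMod q → Fin N) × (Fin (2 * w) → ZMod q) =>
          ¬ Correct L gs out (enc h s n (RR p.1))) =
        1 - pr (fun p : (Fin j → Fin b → Fin k × ZMod q → Fin N) × (Fin (2 * w) → ZMod q) =>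
          Correct L gs out (enc h s n (RR p.1))) := pr_compl _
    have e4 := pr_or_le (fun p : (Fin j → Fin b → Fin k × ZMod q → Fin N) ×
      (Fin (2 * w) → ZMod q) => ∃ c : Fin (2 * w) → ZMod q, graph k c ⊆ RR p.1)
      (fun p => T (RR p.1) ≠ T (RR p.1 ∪ graph k p.2))
    have e5 : pr (fun p : (Fin j → Fin b → Fin k × ZMod q → Fin N) ×
        (Fin (2 * w) → ZMod q) => ∃ c : Fin (2 * w) → ZMod q, graph k c ⊆ RR p.1) ≤ η := by
      rw [pr_fst (fun ω : Fin j → Fin b → Fin k × ZMod q → Fin N =>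
        ∃ c : Fin (2 * w) → ZMod q, graph k c ⊆ RR ω)]
      exact noise_bound hN hN0 (mem_range.1 hj)
    rw [e1]
    linarith
  rw [h1]
  have h3 : ∑ j ∈ range m,
      (pr (fun ω : Fin j → Fin b → Fin k × ZMod q → Fin N => Correct L gs out (enc h s n (RR ω))) +
      pr (fun p : (Fin j → Fin b → Fin k × ZMod q → Fin N) × (Fin (2 * w) → ZMod q) =>
        Correct L gs out (enc h s n (RR p.1 ∪ graph k p.2)))) ≤
      m * (1 + η) + ((2 * A + 1) + m * ε) := by
    refine (sum_le_sum h2).trans ?_
    rw [sum_add_distrib]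
    simp only [sum_const, card_range, nsmul_eq_mul]
    linarith
  calc 1 / (2 * (m : ℝ)) * _ ≤ 1 / (2 * (m : ℝ)) * (m * (1 + η) + ((2 * A + 1) + m * ε)) := by
        gcongr
    _ = 1 / 2 + (2 * A + 1) / (2 * m) + (ε + η) / 2 := by
        field_simp
        ring
    _ ≤ 1 / 2 + (A + 1) / m + (ε + η) / 2 := by
        have : (2 * (A : ℝ) + 1) / (2 * m) ≤ (A + 1) / m := by
          rw [div_le_div_iff₀ (by positivity) hmR]
          nlinarith
        linarith

end Pool.Agent.Lib.MP_70d3b5_lc.Real
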