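import Pool.Agent.Lib.MP_70d3b5_lc.Approx

/-!
# Approximate closure of monotone real functions on sets
-/

open Finset

namespace Pool.Agent.Lib.MP_70d3b5_lc.Real

variable {V : Type} [Fintype V] [DecidableEq V]

/-- Monotone real functions on sets. -/
def MonoR (f : Finset V → ℝ) : Prop := ∀ X Y, X ⊆ Y → f X ≤ f Y

/-- Every value of `h` is attained at a subset with at most `w` elements. -/
def SmallR (w : ℕ) (h : Finset V → ℝ) : Prop := ∀ X, ∃ A ⊆ X, A.card ≤ w ∧ h X ≤ h A

theorem pr_true {Ω : Type} [Fintype Ω] [Nonempty Ω] : pr (fun _ : Ω => True) = 1 := by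
  classical
  have h : (0 : ℝ) < Fintype.card Ω := by exact_mod_cast Fintype.card_pos
  rw [pr_def, filter_true_of_mem (fun _ _ => trivial), card_univ, div_self h.ne']

section closure

variable {Ω : Type} [Fintype Ω] [Nonempty Ω] (R : Ω → Finset V) (h₀ : Finset V → ℝ)

/-- A violated closure condition, at an attained level. -/
theorem exists_level_of_violation {g : Finset V → ℝ} {δ : ℝ} (hδ1 : δ < 1) {K : Finset V} {t : ℝ}
    (hp : pr (fun ω => g (K ∪ R ω) < t) ≤ δ) :
    ∃ Y, t ≤ g Y ∧ pr (fun ω => g (K ∪ R ω) < g Y) ≤ δ := by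
  classical
  -- some value is at least `t`
  have h1 : ∃ Y, t ≤ g Y := by
    by_contra hc
    push Not at hc
    have : pr (fun ω => g (K ∪ R ω) < t) = 1 := by
      rw [← pr_true (Ω := Ω)]
      exact pr_congr fun ω => ⟨fun _ => trivial, fun _ => hc _⟩
    linarith
  obtain ⟨Y₀, hY₀⟩ := h1
  obtain ⟨Y, hY, hmin⟩ := exists_min_image (univ.filter fun Y : Finset V => t ≤ g Y) g
    ⟨Y₀, by simpa using hY₀⟩
  have hY' : t ≤ g Y := by simpa using hY
  refine ⟨Y, hY', le_trans (pr_mono fun ω h => ?_) hp⟩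
  by_contra hc
  push Not at hc
  exact absurd (hmin (K ∪ R ω) (by simpa using hc)) (not_le.2 h)

theorem closure_aux {δ : ℝ} (hδ : 0 ≤ δ) (hδ1 : δ < 1) (L : ℕ) : ∀ (n : ℕ)
    (D : Finset (Finset V)) (_ : D ⊆ univ.filter fun A : Finset V => A.card ≤ L)
    (_ : ((univ.filter fun A : Finset V => A.card ≤ L) \ D).card ≤ n)
    (g : Finset V → ℝ) (θ : ℝ) (_ : MonoR g) (_ : ∀ X, h₀ X ≤ g X)
    (_ : pr (fun ω => h₀ (R ω) < g (R ω)) ≤ D.card * δ)
    (_ : ∀ t, θ < t → ∀ K : Finset V, K.card ≤ L → pr (fun ω => g (K ∪ R ω) < t) ≤ δ → t ≤ g K)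
    (_ : ∀ K ∈ D, θ ≤ g K),
    ∃ g : Finset V → ℝ, MonoR g ∧ (∀ X, h₀ X ≤ g X) ∧
      (∀ K : Finset V, K.card ≤ L → ∀ t, pr (fun ω => g (K ∪ R ω) < t) ≤ δ → t ≤ g K) ∧
      pr (fun ω => h₀ (R ω) < g (R ω)) ≤ numSets V L * δ := by
  classical
  intro n
  induction n with
  | zero =>
    intro D hD hn g θ hg hg0 hp hθ hDθ
    -- all small sets are treated
    refine ⟨g, hg, hg0, fun K hK t ht => ?_, hp.trans ?_⟩
    · rcases lt_or_ge θ t with h | h
      · exact hθ t h K hK ht
      · have hKD : K ∈ D := by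
          by_contra hc
          have : K ∈ (univ.filter fun A : Finset V => A.card ≤ L) \ D :=
            mem_sdiff.2 ⟨by simpa using hK, hc⟩
          have := card_pos.2 ⟨K, this⟩
          omega
        exact h.trans (hDθ K hKD)
    · refine mul_le_mul_of_nonneg_right ?_ hδ
      exact_mod_cast card_le_card hD
  | succ n ih =>
    intro D hD hn g θ hg hg0 hp hθ hDθ
    by_cases hcl : ∀ K : Finset V, K.card ≤ L → ∀ t, pr (fun ω => g (K ∪ R ω) < t) ≤ δ → t ≤ g K
    · refine ⟨g, hg, hg0, hcl, hp.trans ?_⟩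
      refine mul_le_mul_of_nonneg_right ?_ hδ
      exact_mod_cast card_le_card hD
    -- violated conditions
    let P : Finset (Finset V × Finset V) := univ.filter fun p =>
      p.1.card ≤ L ∧ pr (fun ω => g (p.1 ∪ R ω) < g p.2) ≤ δ ∧ g p.1 < g p.2
    have hviol : ∀ (K : Finset V) (t : ℝ), K.card ≤ L → pr (fun ω => g (K ∪ R ω) < t) ≤ δ →
        g K < t → ∃ Y, (K, Y) ∈ P ∧ t ≤ g Y := by
      intro K t hK ht hlt
      obtain ⟨Y, h1, h2⟩ := exists_level_of_violation R hδ1 ht
      exact ⟨Y, by simp [P, hK, h2, hlt.trans_le h1], h1⟩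
    have hne : P.Nonempty := by
      push Not at hcl
      obtain ⟨K, hK, t, ht, hlt⟩ := hcl
      obtain ⟨Y, hY, _⟩ := hviol K t hK ht hlt
      exact ⟨_, hY⟩
    obtain ⟨⟨K, Y⟩, hKY, hmax⟩ := exists_max_image P (fun p => g p.2) hne
    obtain ⟨hK, hpK, hlt⟩ : K.card ≤ L ∧ pr (fun ω => g (K ∪ R ω) < g Y) ≤ δ ∧ g K < g Y := by
      simpa [P] using hKY
    set t := g Y with ht
    have htθ : t ≤ θ := by
      by_contra hc
      push Not at hc
      exact absurd (hθ t hc K hK hpK) (not_le.2 hlt)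
    have hKD : K ∉ D := fun h => absurd (htθ.trans (hDθ K h)) (not_le.2 hlt)
    set g' : Finset V → ℝ := fun X => if K ⊆ X then max (g X) t else g X with hg'
    have hgg' : ∀ X, g X ≤ g' X := by
      intro X
      simp only [hg']
      split_ifs
      · exact le_max_left _ _
      · exact le_rfl
    refine ih (insert K D) ?_ ?_ g' t ?_ (fun X => (hg0 X).trans (hgg' X)) ?_ ?_ ?_
    · intro A hA
      rcases mem_insert.1 hA with rfl | hA
      · simpa using hK
      · exact hD hA
    · have h1 : ((univ.filter fun A : Finset V => A.card ≤ L) \ insert K D) =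
          ((univ.filter fun A : Finset V => A.card ≤ L) \ D).erase K := by
        ext A
        simp only [mem_sdiff, mem_insert, mem_erase, not_or]
        tauto
      have h2 : K ∈ (univ.filter fun A : Finset V => A.card ≤ L) \ D :=
        mem_sdiff.2 ⟨by simpa using hK, hKD⟩
      rw [h1, card_erase_of_mem h2]
      omega
    · intro X Y hXY
      simp only [hg']
      by_cases h1 : K ⊆ X
      · rw [if_pos h1, if_pos (h1.trans hXY)]
        exact max_le_max (hg X Y hXY) le_rfl
      · rw [if_neg h1]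
        exact (hg X Y hXY).trans (hgg' Y)
    · have h1 : pr (fun ω => h₀ (R ω) < g' (R ω)) ≤
          pr (fun ω => h₀ (R ω) < g (R ω)) + pr (fun ω => g (K ∪ R ω) < t) := by
        refine (pr_mono fun ω hω => ?_).trans (pr_or_le _ _)
        simp only [hg'] at hω
        by_cases h1 : K ⊆ R ω
        · rw [if_pos h1] at hω
          rcases lt_or_ge (g (R ω)) t with h2 | h2
          · right
            rwa [union_eq_right.2 h1]
          · left
            rwa [max_eq_left h2] at hω
        · rw [if_neg h1] at hω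
          exact Or.inl hω
      rw [card_insert_of_notMem hKD]
      push_cast
      linarith
    · intro t' ht' K' hK' hp'
      have h1 : pr (fun ω => g (K' ∪ R ω) < t') ≤ δ := by
        refine le_trans (pr_mono fun ω hω => ?_) hp'
        simp only [hg']
        split_ifs
        · exact max_lt hω ht'
        · exact hω
      by_contra hc
      push Not at hc
      obtain ⟨Y', hY', h2⟩ := hviol K' t' hK' h1 ((hgg' K').trans_lt hc)
      have h3 := hmax _ hY'
      simp only at h3
      linarith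
    · intro K' hK'
      rcases mem_insert.1 hK' with rfl | hK'
      · simp only [hg', if_pos (Subset.refl _)]
        exact le_max_right _ _
      · exact htθ.trans ((hDθ K' hK').trans (hgg' K'))

/-- Approximate closure. -/
theorem exists_closureR (hh : MonoR h₀) {δ : ℝ} (hδ : 0 ≤ δ) (hδ1 : δ < 1) (L : ℕ) :
    ∃ g : Finset V → ℝ, MonoR g ∧ (∀ X, h₀ X ≤ g X) ∧
      (∀ K : Finset V, K.card ≤ L → ∀ t, pr (fun ω => g (K ∪ R ω) < t) ≤ δ → t ≤ g K) ∧
      pr (fun ω => h₀ (R ω) < g (R ω)) ≤ numSets V L * δ := by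
  classical
  refine closure_aux R h₀ hδ hδ1 L _ ∅ (empty_subset _) le_rfl h₀ (h₀ univ) hh
    (fun _ => le_rfl) ?_ ?_ (by simp)
  · rw [pr_def]
    simp
  · intro t ht K _ hp
    exfalso
    have : pr (fun ω => h₀ (K ∪ R ω) < t) = 1 := by
      rw [← pr_true (Ω := Ω)]
      exact pr_congr fun ω => ⟨fun _ => trivial, fun _ => (hh _ _ (subset_univ _)).trans_lt ht⟩
    linarith

end closure

end Pool.Agent.Lib.MP_70d3b5_lc.Real
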