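import Pool.Agent.Lib.MP_70d3b5_lc.Hybrid

/-!
# The number of members of a spread family that are contained in a uniform random set
-/

open Finset

namespace Pool.Agent.Lib.MP_70d3b5_lc.Real

theorem pr_prod' {α β : Type*} [Fintype α] [Fintype β] (P : α → β → Prop) :
    pr (fun p : α × β => P p.1 p.2) = (∑ b, pr (fun a => P a b)) / Fintype.card β := by
  rw [pr_swap P]
  exact pr_prod (fun b a => P a b)

/-! ### Two recursions -/

theorem up_sum {a f : ℕ → ℝ} {l : ℝ} (hl0 : 0 ≤ l) (hl : l ≤ 1)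
    (ha : ∀ r : ℕ, a (r + 1) ≤ l / (r + 1) * (a r + f r)) (hf : ∀ r, 0 ≤ f r) (R : ℕ) :
    ∑ r ∈ range R, a (r + 1) ≤
      (∑ r ∈ range R, l ^ (r + 1) / ((r + 1).factorial : ℝ)) * a 0 +
        2 * ∑ r ∈ range R, f r := by
  let E : ℕ → ℝ := fun r => Nat.rec 0 (fun r e => (e + f r) / (r + 1)) r
  have hE0 : E 0 = 0 := rfl
  have hE : ∀ r : ℕ, E (r + 1) = (E r + f r) / (r + 1) := fun r => rfl
  have hEn : ∀ r, 0 ≤ E r := by
    intro r
    induction r with
    | zero => exact le_of_eq hE0.symm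
    | succ r ih =>
      rw [hE]
      have := hf r
      positivity
  have h1 : ∀ r : ℕ, a r ≤ l ^ r / (r.factorial : ℝ) * a 0 + E r := by
    intro r
    induction r with
    | zero => simp [hE0]
    | succ r ih =>
      have h2 : l / (r + 1) * (a r + f r) ≤
          l / (r + 1) * (l ^ r / (r.factorial : ℝ) * a 0 + E r + f r) := by
        gcongr
      have h3 : l / (r + 1) * (E r + f r) ≤ (E r + f r) / (r + 1) := by
        rw [div_mul_eq_mul_div]
        have h4 := hEn r
        have h5 := hf r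
        refine div_le_div_of_nonneg_right ?_ (by positivity)
        nlinarith
      have h4 : l / ((r : ℝ) + 1) * (l ^ r / (r.factorial : ℝ) * a 0) =
          l ^ (r + 1) / ((r + 1).factorial : ℝ) * a 0 := by
        rw [Nat.factorial_succ, pow_succ]
        push_cast
        field_simp
      rw [hE]
      calc a (r + 1) ≤ _ := ha r
        _ ≤ _ := h2
        _ = l / ((r : ℝ) + 1) * (l ^ r / (r.factorial : ℝ) * a 0) +
            l / (r + 1) * (E r + f r) := by ring
        _ ≤ _ := by rw [h4]; linarith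
  have h2 : ∀ R, ∑ r ∈ range R, E (r + 1) + E R ≤ 2 * ∑ r ∈ range R, f r := by
    intro R
    induction R with
    | zero => simp [hE0]
    | succ R ih =>
      rw [sum_range_succ, sum_range_succ]
      rcases Nat.eq_zero_or_pos R with rfl | hR
      · simp only [range_zero, sum_empty, hE, hE0]
        norm_num
        linarith
      · have h3 : E (R + 1) ≤ (E R + f R) / 2 := by
          rw [hE]
          have h4 := hEn R
          have h5 := hf R
          have : (1 : ℝ) ≤ R := by exact_mod_cast hR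
          refine div_le_div_of_nonneg_left (by positivity) (by norm_num) (by linarith)
        have h4 := hEn R
        have h5 := hf R
        linarith
  calc ∑ r ∈ range R, a (r + 1) ≤
      ∑ r ∈ range R, (l ^ (r + 1) / ((r + 1).factorial : ℝ) * a 0 + E (r + 1)) :=
        sum_le_sum fun r _ => h1 (r + 1)
    _ = (∑ r ∈ range R, l ^ (r + 1) / ((r + 1).factorial : ℝ)) * a 0 +
        ∑ r ∈ range R, E (r + 1) := by rw [sum_add_distrib, sum_mul]
    _ ≤ _ := by
      have := h2 R
      have := hEn R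
      linarith

theorem down_sum {b : ℕ → ℝ} {l η : ℝ} (hl0 : 0 ≤ l) (hl : l ≤ 1) (hη : 0 ≤ η)
    (hb : ∀ r : ℕ, l / (r + 1) * (b r - η) ≤ b (r + 1)) (r : ℕ) :
    l ^ r / (r.factorial : ℝ) * b 0 - η ≤ b r := by
  induction r with
  | zero => simp [hη]
  | succ r ih =>
    have h4 : l / ((r : ℝ) + 1) * (l ^ r / (r.factorial : ℝ) * b 0) =
        l ^ (r + 1) / ((r + 1).factorial : ℝ) * b 0 := by
      rw [Nat.factorial_succ, pow_succ]
      push_cast
      field_simp
    rcases Nat.eq_zero_or_pos r with rfl | hR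
    · have := hb 0
      simp only [Nat.cast_zero, zero_add, div_one] at this ⊢
      simp only [pow_one, Nat.factorial_one, Nat.cast_one, div_one]
      nlinarith
    · have h1 : l / (r + 1) * (l ^ r / (r.factorial : ℝ) * b 0 - 2 * η) ≤
          l / (r + 1) * (b r - η) := by
        have : l ^ r / (r.factorial : ℝ) * b 0 - 2 * η ≤ b r - η := by linarith
        gcongr
      have h2 : l / ((r : ℝ) + 1) * (2 * η) ≤ η := by
        have h3 : l / ((r : ℝ) + 1) ≤ 1 / 2 := by
          have : (1 : ℝ) ≤ r := by exact_mod_cast hR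
          rw [div_le_div_iff₀ (by positivity) (by norm_num)]
          linarith
        nlinarith
      have h3 := hb r
      rw [mul_sub, h4] at h1
      linarith

/-! ### Counting members -/

section count

set_option linter.unusedSectionVars false

variable {U V : Type} [Fintype V] [DecidableEq V] [Fintype U]

/-- The number of members contained in `X`. -/
def cnt (S : U → Finset V) (X : Finset V) : ℕ := (univ.filter fun u => S u ⊆ X).card

/-- The members contained in `X` are pairwise disjoint. -/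
def Dj (S : U → Finset V) (X : Finset V) : Prop :=
  ∀ u v, S u ⊆ X → S v ⊆ X → u ≠ v → Disjoint (S u) (S v)

theorem cnt_eq_zero {S : U → Finset V} {X : Finset V} : cnt S X = 0 ↔ ¬ ∃ u, S u ⊆ X := by
  rw [cnt, card_eq_zero, filter_eq_empty_iff]
  simp

theorem Dj.mono {S : U → Finset V} {X Y : Finset V} (h : Dj S Y) (hXY : X ⊆ Y) : Dj S X :=
  fun u v hu hv => h u v (hu.trans hXY) (hv.trans hXY)

theorem sum_pr_subset (S : U → Finset V) (P : Finset V → Prop) (m : ℕ)
    (hP : ∀ X, P X → cnt S X = m) :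
    ∑ u, pr (fun X => P X ∧ S u ⊆ X) = m * pr P := by
  classical
  simp only [pr_def]
  rw [← sum_div, mul_div_assoc']
  congr 1
  have : ∑ u, ((univ.filter fun X => P X ∧ S u ⊆ X).card) = m * (univ.filter P).card := by
    have h1 : ∀ u, (univ.filter fun X => P X ∧ S u ⊆ X).card =
        ∑ X ∈ univ.filter P, if S u ⊆ X then 1 else 0 := by
      intro u
      rw [← card_filter, filter_filter]
    rw [sum_congr rfl fun u _ => h1 u, sum_comm]
    have h2 : ∀ X ∈ univ.filter P, (∑ u, if S u ⊆ X then 1 else 0) = m := by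
      intro X hX
      rw [← card_filter]
      exact hP X (mem_filter.1 hX).2
    rw [sum_congr rfl h2, sum_const, smul_eq_mul, mul_comm]
  exact_mod_cast this

theorem up_one {k : ℕ} {S : U → Finset V} (hS : ∀ u, (S u).card = k) (h : Finset V → Prop)
    (r : ℕ) (u : U) :
    (2 ^ k - 1 : ℝ) * pr (fun X => (h X ∧ cnt S X = r + 1 ∧ Dj S X) ∧ S u ⊆ X) ≤
      pr (fun X => h (X ∪ S u) ∧ cnt S X = r ∧ Dj S X) := by
  classical
  rw [pr_def, pr_def, mul_div_assoc']
  refine div_le_div_of_nonneg_right ?_ (by positivity)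
  set A := univ.filter fun X => (h X ∧ cnt S X = r + 1 ∧ Dj S X) ∧ S u ⊆ X with hA
  set B := univ.filter fun X => h (X ∪ S u) ∧ cnt S X = r ∧ Dj S X with hB
  have hun : ∀ X W, S u ⊆ X → W ⊆ S u → ((X \ S u) ∪ W) ∪ S u = X := by
    intro X W h1 h2
    ext v
    simp only [mem_union, mem_sdiff]
    constructor
    · rintro ((⟨h3, _⟩ | h3) | h3)
      · exact h3
      · exact h1 (h2 h3)
      · exact h1 h3
    · intro h3
      by_cases h4 : v ∈ S u
      · exact Or.inr h4
      · exact Or.inl (Or.inl ⟨h3, h4⟩)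
  have hin : ∀ X W, W ⊆ S u → ((X \ S u) ∪ W) ∩ S u = W := by
    intro X W h2
    ext v
    simp only [mem_union, mem_sdiff, mem_inter]
    constructor
    · rintro ⟨⟨_, h3⟩ | h3, h4⟩
      · exact absurd h4 h3
      · exact h3
    · intro h3
      exact ⟨Or.inr h3, h2 h3⟩
  have key : ((S u).ssubsets ×ˢ A).card ≤ B.card := by
    refine card_le_card_of_injOn (fun p => (p.2 \ S u) ∪ p.1) ?_ ?_
    · rintro ⟨W, X⟩ hp
      rw [mem_coe, mem_product, mem_ssubsets, hA, mem_filter] at hp
      obtain ⟨hW, -, ⟨h1, h2, h3⟩, h4⟩ := hp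
      simp only at hW h1 h2 h3 h4
      rw [mem_coe, hB, mem_filter]
      have hsub : (X \ S u) ∪ W ⊆ X := union_subset sdiff_subset (hW.1.trans h4)
      refine ⟨mem_univ _, ?_, ?_, h3.mono hsub⟩
      · simp only
        rw [hun X W h4 hW.1]
        exact h1
      · have h5 : (univ.filter fun v => S v ⊆ (X \ S u) ∪ W) =
            (univ.filter fun v => S v ⊆ X).erase u := by
          ext v
          simp only [mem_filter, mem_univ, true_and, mem_erase]
          constructor
          · intro h6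
            refine ⟨?_, h6.trans hsub⟩
            rintro rfl
            refine hW.2 fun x hx => ?_
            rcases mem_union.1 (h6 hx) with h7 | h7
            · exact absurd hx (mem_sdiff.1 h7).2
            · exact h7
          · rintro ⟨h6, h7⟩
            intro x hx
            refine mem_union_left _ (mem_sdiff.2 ⟨h7 hx, fun h8 => ?_⟩)
            exact disjoint_left.1 (h3 v u h7 h4 h6) hx h8
        simp only [cnt] at h2 ⊢
        rw [h5, card_erase_of_mem (by simp [h4]), h2]
        rfl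
    · rintro ⟨W, X⟩ hp ⟨W', X'⟩ hp' heq
      rw [mem_coe, mem_product, mem_ssubsets, hA, mem_filter] at hp hp'
      simp only at hp hp' heq
      have h1 : W = W' := by
        rw [← hin X W hp.1.1, heq, hin X' W' hp'.1.1]
      have h2 : X = X' := by
        rw [← hun X W hp.2.2.2 hp.1.1, heq, hun X' W' hp'.2.2.2 hp'.1.1]
      rw [h1, h2]
  have hss : (S u).ssubsets.card = 2 ^ k - 1 := by
    rw [ssubsets, card_erase_of_mem (mem_powerset_self _), card_powerset, hS]
  rw [card_product, hss] at key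
  have h2 : ((2 ^ k - 1 : ℕ) : ℝ) = 2 ^ k - 1 := by
    rw [Nat.cast_sub Nat.one_le_two_pow]
    push_cast
    rfl
  rw [← h2]
  exact_mod_cast key

theorem down_one {k : ℕ} {S : U → Finset V} (hS : ∀ u, (S u).card = k) (m : ℕ) (u : U) :
    pr (fun X => cnt S (X ∪ S u) = m) ≤ 2 ^ k * pr (fun X => cnt S X = m ∧ S u ⊆ X) := by
  classical
  rw [pr_def, pr_def, mul_div_assoc']
  refine div_le_div_of_nonneg_right ?_ (by positivity)
  have key : (univ.filter fun X => cnt S (X ∪ S u) = m).card ≤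
      ((S u).powerset ×ˢ (univ.filter fun X => cnt S X = m ∧ S u ⊆ X)).card := by
    refine card_le_card_of_injOn (fun X => (X ∩ S u, X ∪ S u)) ?_ ?_
    · intro X hX
      rw [mem_coe, mem_filter] at hX
      rw [mem_coe, mem_product, mem_powerset, mem_filter]
      exact ⟨inter_subset_right, mem_univ _, hX.2, subset_union_right⟩
    · intro X _ Y _ heq
      simp only [Prod.mk.injEq] at heq
      obtain ⟨h1, h2⟩ := heq
      ext v
      by_cases hv : v ∈ S u
      · have h3 := congrArg (v ∈ ·) h1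
        simpa [hv] using h3
      · have h3 := congrArg (v ∈ ·) h2
        simpa [hv] using h3
  rw [card_product, card_powerset, hS] at key
  exact_mod_cast key

variable [Nonempty U]

theorem up_all {k : ℕ} {S : U → Finset V} (hS : ∀ u, (S u).card = k) (hk : 1 ≤ k)
    (h : Finset V → Prop) (r : ℕ) :
    pr (fun X => h X ∧ cnt S X = r + 1 ∧ Dj S X) ≤
      (Fintype.card U / (2 ^ k - 1 : ℝ)) / (r + 1) *
      (pr (fun X => h X ∧ cnt S X = r ∧ Dj S X) + pr (fun p : Finset V × U =>
        (¬ h p.1 ∧ h (p.1 ∪ S p.2)) ∧ cnt S p.1 = r ∧ Dj S p.1)) := by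
  classical
  have hU : (0 : ℝ) < Fintype.card U := by exact_mod_cast Fintype.card_pos
  have hk2 : (0 : ℝ) < 2 ^ k - 1 := by
    have : (2 : ℝ) ^ 1 ≤ 2 ^ k := pow_le_pow_right₀ (by norm_num) hk
    linarith
  have h1 := sum_pr_subset S (fun X => h X ∧ cnt S X = r + 1 ∧ Dj S X) (r + 1)
    (fun X hX => hX.2.1)
  have h2 : ∑ u, (2 ^ k - 1 : ℝ) *
      pr (fun X => (h X ∧ cnt S X = r + 1 ∧ Dj S X) ∧ S u ⊆ X) ≤
      ∑ u, pr (fun X => h (X ∪ S u) ∧ cnt S X = r ∧ Dj S X) :=
    sum_le_sum fun u _ => up_one hS h r u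
  rw [← mul_sum, h1] at h2
  have h3 : ∑ u, pr (fun X => h (X ∪ S u) ∧ cnt S X = r ∧ Dj S X) =
      Fintype.card U * pr (fun p : Finset V × U =>
        h (p.1 ∪ S p.2) ∧ cnt S p.1 = r ∧ Dj S p.1) := by
    rw [pr_prod' (fun (X : Finset V) (u : U) => h (X ∪ S u) ∧ cnt S X = r ∧ Dj S X)]
    field_simp
  have h4 : pr (fun p : Finset V × U => h (p.1 ∪ S p.2) ∧ cnt S p.1 = r ∧ Dj S p.1) ≤
      pr (fun X => h X ∧ cnt S X = r ∧ Dj S X) + pr (fun p : Finset V × U =>
        (¬ h p.1 ∧ h (p.1 ∪ S p.2)) ∧ cnt S p.1 = r ∧ Dj S p.1) := by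
    rw [← pr_fst (β := U) (fun X => h X ∧ cnt S X = r ∧ Dj S X)]
    refine (pr_mono fun p hp => ?_).trans (pr_or_le _ _)
    by_cases h5 : h p.1
    · exact Or.inl ⟨h5, hp.2⟩
    · exact Or.inr ⟨⟨h5, hp.1⟩, hp.2⟩
  rw [h3] at h2
  have h5 := h2.trans (mul_le_mul_of_nonneg_left h4 hU.le)
  rw [div_div, div_mul_eq_mul_div, le_div_iff₀ (by positivity)]
  push_cast at h5
  linarith

theorem down_all {k : ℕ} {S : U → Finset V} (hS : ∀ u, (S u).card = k) (r : ℕ) {η : ℝ}
    (hη : pr (fun p : Finset V × U => cnt S (p.1 ∪ S p.2) ≠ cnt S p.1 + 1) ≤ η) :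
    (Fintype.card U / (2 ^ k : ℝ)) / (r + 1) * (pr (fun X => cnt S X = r) - η) ≤
      pr (fun X => cnt S X = r + 1) := by
  classical
  have hU : (0 : ℝ) < Fintype.card U := by exact_mod_cast Fintype.card_pos
  have h1 := sum_pr_subset S (fun X => cnt S X = r + 1) (r + 1) (fun X hX => hX)
  have h2 : ∑ u, pr (fun X => cnt S (X ∪ S u) = r + 1) ≤
      ∑ u, 2 ^ k * pr (fun X => cnt S X = r + 1 ∧ S u ⊆ X) :=
    sum_le_sum fun u _ => down_one hS (r + 1) u
  rw [← mul_sum, h1] at h2
  have h3 : ∑ u, pr (fun X => cnt S (X ∪ S u) = r + 1) =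
      Fintype.card U * pr (fun p : Finset V × U => cnt S (p.1 ∪ S p.2) = r + 1) := by
    rw [pr_prod' (fun (X : Finset V) (u : U) => cnt S (X ∪ S u) = r + 1)]
    field_simp
  have h4 : pr (fun X => cnt S X = r) ≤
      pr (fun p : Finset V × U => cnt S (p.1 ∪ S p.2) = r + 1) + η := by
    rw [← pr_fst (β := U) (fun X => cnt S X = r)]
    refine (pr_mono fun p hp => ?_).trans ((pr_or_le _ _).trans (add_le_add le_rfl hη))
    by_cases h5 : cnt S (p.1 ∪ S p.2) = r + 1
    · exact Or.inl h5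
    · refine Or.inr ?_
      rw [hp]
      exact h5
  rw [h3] at h2
  have h5 : Fintype.card U * (pr (fun X => cnt S X = r) - η) ≤
      2 ^ k * (((r + 1 : ℕ) : ℝ) * pr (fun X => cnt S X = r + 1)) :=
    (mul_le_mul_of_nonneg_left (by linarith) hU.le).trans h2
  rw [div_div, div_mul_eq_mul_div, div_le_iff₀ (by positivity)]
  push_cast at h5
  linarith

/-- The tail. -/
theorem tail_le {k : ℕ} {S : U → Finset V} (hS : ∀ u, (S u).card = k) (hk : 1 ≤ k)
    (hl : Fintype.card U / (2 ^ k - 1 : ℝ) ≤ 1) (R : ℕ) :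
    pr (fun X => R < cnt S X ∧ Dj S X) ≤ 2 * (1 / 2) ^ R := by
  classical
  have hk2 : (0 : ℝ) < 2 ^ k - 1 := by
    have : (2 : ℝ) ^ 1 ≤ 2 ^ k := pow_le_pow_right₀ (by norm_num) hk
    linarith
  have hstep : ∀ r : ℕ, pr (fun X => True ∧ cnt S X = r + 1 ∧ Dj S X) ≤
      1 / (r + 1) * pr (fun X => True ∧ cnt S X = r ∧ Dj S X) := by
    intro r
    refine (up_all hS hk (fun _ => True) r).trans ?_
    have h0 : pr (fun p : Finset V × U =>
        (¬ True ∧ True) ∧ cnt S p.1 = r ∧ Dj S p.1) = 0 := by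
      rw [pr_def, filter_false_of_mem (by simp)]
      simp
    rw [h0, add_zero]
    have h1 := pr_nonneg (fun X => True ∧ cnt S X = r ∧ Dj S X)
    refine mul_le_mul_of_nonneg_right ?_ h1
    exact div_le_div_of_nonneg_right hl (by positivity)
  have hb : ∀ r : ℕ, pr (fun X => True ∧ cnt S X = r + 1 ∧ Dj S X) ≤ (1 / 2) ^ r := by
    intro r
    induction r with
    | zero =>
      refine (hstep 0).trans ?_
      simp only [Nat.cast_zero, zero_add, div_one, one_mul, pow_zero]
      exact pr_le_one _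
    | succ r ih =>
      refine (hstep (r + 1)).trans ?_
      rw [pow_succ, mul_comm]
      refine mul_le_mul ih ?_ (by positivity) (by positivity)
      push_cast
      rw [div_le_div_iff₀ (by positivity) (by norm_num)]
      have : (0 : ℝ) ≤ r := Nat.cast_nonneg r
      linarith
  have h1 : pr (fun X => R < cnt S X ∧ Dj S X) ≤
      pr (fun X => ∃ r ∈ Ico R (Fintype.card U), True ∧ cnt S X = r + 1 ∧ Dj S X) := by
    refine pr_mono fun X hX => ⟨cnt S X - 1, ?_, trivial, ?_, hX.2⟩
    · rw [mem_Ico]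
      have : cnt S X ≤ Fintype.card U := card_le_univ _
      have := hX.1
      omega
    · have := hX.1
      omega
  refine h1.trans ((pr_exists_le _ _).trans ((sum_le_sum fun r _ => hb r).trans ?_))
  have h2 : ∀ M, ∑ r ∈ Ico R M, (1 / 2 : ℝ) ^ r ≤ 2 * (1 / 2) ^ R := by
    intro M
    rcases le_total M R with hM | hM
    · rw [Ico_eq_empty_of_le hM]
      simp
    · rw [geom_sum_Ico (by norm_num) hM]
      have : (0 : ℝ) ≤ (1 / 2) ^ M := by positivity
      have h3 : ((1 / 2 : ℝ) ^ M - (1 / 2) ^ R) / (1 / 2 - 1) = 2 * (1 / 2) ^ R - 2 * (1 / 2) ^ M := by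
        ring
      rw [h3]
      linarith
  exact h2 _

omit [Nonempty U] in
theorem Dj_of_cnt {S : U → Finset V} {X : Finset V} (h : cnt S X = 0) : Dj S X := by
  intro u v hu
  exact absurd ⟨u, hu⟩ (cnt_eq_zero.1 h)

/-- The main bound. -/
theorem poisson_bound {k : ℕ} {S : U → Finset V} (hS : ∀ u, (S u).card = k) (hk : 1 ≤ k)
    (hl : Fintype.card U / (2 ^ k - 1 : ℝ) ≤ 1) (h : Finset V → Prop) (R : ℕ)
    {η φ ρ ρ' δ : ℝ} (hη0 : 0 ≤ η) (hρ' : 0 ≤ ρ')
    (hη : pr (fun p : Finset V × U => cnt S (p.1 ∪ S p.2) ≠ cnt S p.1 + 1) ≤ η)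
    (hφ : pr (fun p : Finset V × U => ¬ h p.1 ∧ h (p.1 ∪ S p.2)) ≤ φ)
    (hδ : pr (fun X => ¬ Dj S X) ≤ δ)
    (h1 : 2 - ρ ≤ ∑ r ∈ range (R + 1), (Fintype.card U / (2 ^ k : ℝ)) ^ r / (r.factorial : ℝ))
    (h2 : ∑ r ∈ range R, (Fintype.card U / (2 ^ k - 1 : ℝ)) ^ (r + 1) /
      ((r + 1).factorial : ℝ) ≤ 1 + ρ') (hρ : 0 ≤ ρ) :
    pr (fun X => h X ↔ ∃ u, S u ⊆ X) ≤
      1 / 2 + ((R + 1) * η + ρ) / 2 + ρ' + 2 * φ + 2 * (1 / 2) ^ R + δ := by
  classical
  have hU : (0 : ℝ) < Fintype.card U := by exact_mod_cast Fintype.card_pos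
  have hk2 : (0 : ℝ) < 2 ^ k - 1 := by
    have : (2 : ℝ) ^ 1 ≤ 2 ^ k := pow_le_pow_right₀ (by norm_num) hk
    linarith
  set l' : ℝ := Fintype.card U / (2 ^ k - 1 : ℝ) with hl'
  set l : ℝ := Fintype.card U / (2 ^ k : ℝ) with hldef
  have hl'0 : 0 ≤ l' := by positivity
  have hl0 : 0 ≤ l := by positivity
  have hll : l ≤ 1 := by
    refine le_trans ?_ hl
    exact div_le_div_of_nonneg_left hU.le hk2 (by linarith)
  -- the upper recursion
  have hup := up_sum (a := fun r => pr (fun X => h X ∧ cnt S X = r ∧ Dj S X))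
    (f := fun r => pr (fun p : Finset V × U =>
        (¬ h p.1 ∧ h (p.1 ∪ S p.2)) ∧ cnt S p.1 = r ∧ Dj S p.1)) hl'0 hl
    (fun r => up_all hS hk h r) (fun r => pr_nonneg _) R
  -- the lower recursion
  have hdown := down_sum (b := fun r => pr (fun X => cnt S X = r)) hl0 hll hη0
    (fun r => down_all hS r hη)
  -- sums over the number of members
  have hsum : ∀ (α : Type) [Fintype α] (P : α → Prop) (f : α → ℕ) (M : ℕ),
      ∑ r ∈ range M, pr (fun x => P x ∧ f x = r) ≤ pr P := by
    intro α _ P f M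
    simp only [pr_def]
    rw [← sum_div]
    refine div_le_div_of_nonneg_right ?_ (by positivity)
    have h3 : ∑ r ∈ range M, (univ.filter fun x => P x ∧ f x = r).card ≤
        (univ.filter P).card := by
      rw [← card_biUnion]
      · refine card_le_card fun x hx => ?_
        simp only [mem_biUnion, mem_filter, mem_univ, true_and] at hx ⊢
        obtain ⟨_, _, h4, _⟩ := hx
        exact h4
      · intro i _ j _ hij
        rw [Function.onFun, disjoint_left]
        intro x h4 h5
        simp only [mem_filter, mem_univ, true_and] at h4 h5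
        exact hij (h4.2.symm.trans h5.2)
    exact_mod_cast h3
  have hf : ∑ r ∈ range R, pr (fun p : Finset V × U =>
      (¬ h p.1 ∧ h (p.1 ∪ S p.2)) ∧ cnt S p.1 = r ∧ Dj S p.1) ≤ φ := by
    refine le_trans (sum_le_sum fun r _ => ?_) ((hsum _
      (fun p : Finset V × U => ¬ h p.1 ∧ h (p.1 ∪ S p.2)) (fun p => cnt S p.1) R).trans hφ)
    exact pr_mono fun p hp => ⟨hp.1, hp.2.1⟩
  have hb0 : pr (fun X => cnt S X = 0) ≤ (1 + (R + 1) * η + ρ) / 2 := by
    have h3 : ∑ r ∈ range (R + 1), pr (fun X => cnt S X = r) ≤ 1 := by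
      have h4 := hsum _ (fun _ : Finset V => True) (fun X => cnt S X) (R + 1)
      simp only [true_and] at h4
      exact h4.trans (pr_le_one _)
    have h4 : ∑ r ∈ range (R + 1), (l ^ r / (r.factorial : ℝ) * pr (fun X => cnt S X = 0) - η) ≤
        ∑ r ∈ range (R + 1), pr (fun X => cnt S X = r) :=
      sum_le_sum fun r _ => hdown r
    rw [sum_sub_distrib, ← sum_mul, sum_const, card_range, nsmul_eq_mul] at h4
    have h5 := pr_nonneg (fun X => cnt S X = 0)
    have h6 := pr_le_one (fun X => cnt S X = 0)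
    have h7 := mul_le_mul_of_nonneg_right h1 h5
    push_cast at h4
    nlinarith
  have ha0 : pr (fun X => h X ∧ cnt S X = 0 ∧ Dj S X) = pr (fun X => h X ∧ cnt S X = 0) :=
    pr_congr fun X => ⟨fun h3 => ⟨h3.1, h3.2.1⟩, fun h3 => ⟨h3.1, h3.2, Dj_of_cnt h3.2⟩⟩
  have hsplit0 : pr (fun X => ¬ h X ∧ cnt S X = 0) + pr (fun X => h X ∧ cnt S X = 0) =
      pr (fun X => cnt S X = 0) := by
    simp only [pr_def]
    rw [← add_div]
    congr 1
    have h3 := card_filter_add_card_filter_not
      (s := univ.filter fun X : Finset V => cnt S X = 0) (fun X => h X)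
    rw [filter_filter, filter_filter] at h3
    rw [add_comm]
    have e1 : (univ.filter fun X : Finset V => h X ∧ cnt S X = 0) =
        univ.filter fun X : Finset V => cnt S X = 0 ∧ h X := by
      ext X; simp [and_comm]
    have e2 : (univ.filter fun X : Finset V => ¬ h X ∧ cnt S X = 0) =
        univ.filter fun X : Finset V => cnt S X = 0 ∧ ¬ h X := by
      ext X; simp [and_comm]
    rw [e1, e2]
    exact_mod_cast h3
  have htail := tail_le hS hk hl R
  have hpos : pr (fun X => h X ∧ 1 ≤ cnt S X) ≤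
      ∑ r ∈ range R, pr (fun X => h X ∧ cnt S X = r + 1 ∧ Dj S X) +
        2 * (1 / 2) ^ R + δ := by
    have h3 : pr (fun X => h X ∧ 1 ≤ cnt S X) ≤
        pr (fun X => ((∃ r ∈ range R, h X ∧ cnt S X = r + 1 ∧ Dj S X) ∨
          (R < cnt S X ∧ Dj S X)) ∨ ¬ Dj S X) := by
      refine pr_mono fun X hX => ?_
      by_cases h4 : Dj S X
      · by_cases h5 : R < cnt S X
        · exact Or.inl (Or.inr ⟨h5, h4⟩)
        · refine Or.inl (Or.inl ⟨cnt S X - 1, ?_, hX.1, ?_, h4⟩)
          · rw [mem_range]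
            have := hX.2
            omega
          · have := hX.2
            omega
      · exact Or.inr h4
    refine h3.trans ((pr_or_le _ _).trans (add_le_add ((pr_or_le _ _).trans
      (add_le_add (pr_exists_le _ _) htail)) hδ))
  have hmain : pr (fun X => h X ↔ ∃ u, S u ⊆ X) ≤
      pr (fun X => ¬ h X ∧ cnt S X = 0) + pr (fun X => h X ∧ 1 ≤ cnt S X) := by
    refine (pr_mono fun X hX => ?_).trans (pr_or_le _ _)
    by_cases h3 : h X
    · refine Or.inr ⟨h3, ?_⟩
      by_contra h4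
      exact cnt_eq_zero.1 (by omega) (hX.1 h3)
    · exact Or.inl ⟨h3, cnt_eq_zero.2 fun h4 => h3 (hX.2 h4)⟩
  rw [ha0] at hup
  have h3 := pr_nonneg (fun X => h X ∧ cnt S X = 0)
  have h4 := pr_le_one (fun X => h X ∧ cnt S X = 0)
  have h5 := mul_le_mul_of_nonneg_right h2 h3
  have h6 : ρ' * pr (fun X => h X ∧ cnt S X = 0) ≤ ρ' := mul_le_of_le_one_right hρ' h4
  linarith

/-! ### Overlaps -/

omit [Fintype U] [Nonempty U] in
theorem pr_subset_uniform (A : Finset V) :
    pr (fun X : Finset V => A ⊆ X) = (1 / 2) ^ A.card := by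
  classical
  rw [pr_def, Fintype.card_finset]
  have h1 : (univ.filter fun X : Finset V => A ⊆ X) = Icc A univ := by
    ext X
    simp
  rw [h1, card_Icc_finset (subset_univ A), card_univ]
  push_cast
  rw [div_eq_iff (by positivity)]
  have h2 : A.card ≤ Fintype.card V := card_le_univ A
  obtain ⟨m, hm⟩ := Nat.exists_eq_add_of_le h2
  rw [hm, Nat.add_sub_cancel_left, pow_add, ← mul_assoc, ← mul_pow]
  norm_num

open Classical in
/-- The weight of the overlaps with `u`. -/
noncomputable def ovl (S : U → Finset V) (u : U) : ℝ :=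
  ∑ v ∈ univ.filter (fun v => v ≠ u ∧ ¬ Disjoint (S u) (S v)), (1 / 2) ^ (S v \ S u).card

theorem eta_le {k : ℕ} {S : U → Finset V} (hS : ∀ u, (S u).card = k) {μ : ℝ}
    (hμ : ∀ u, ovl S u ≤ μ) :
    pr (fun p : Finset V × U => cnt S (p.1 ∪ S p.2) ≠ cnt S p.1 + 1) ≤ (1 / 2) ^ k + μ := by
  classical
  have hU : (0 : ℝ) < Fintype.card U := by exact_mod_cast Fintype.card_pos
  rw [pr_prod' (fun (X : Finset V) (u : U) => cnt S (X ∪ S u) ≠ cnt S X + 1), div_le_iff₀ hU]
  have h1 : ∀ u, pr (fun X => cnt S (X ∪ S u) ≠ cnt S X + 1) ≤ (1 / 2) ^ k + μ := by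
    intro u
    have h2 : pr (fun X => cnt S (X ∪ S u) ≠ cnt S X + 1) ≤ pr (fun X => S u ⊆ X ∨
        ∃ v ∈ univ.filter (fun v => v ≠ u ∧ ¬ Disjoint (S u) (S v)), S v \ S u ⊆ X) := by
      refine pr_mono fun X hX => ?_
      by_contra hc
      push Not at hc
      obtain ⟨h3, h4⟩ := hc
      refine hX ?_
      have h5 : (univ.filter fun v => S v ⊆ X ∪ S u) =
          insert u (univ.filter fun v => S v ⊆ X) := by
        ext v
        simp only [mem_filter, mem_univ, true_and, mem_insert]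
        constructor
        · intro h6
          by_cases h7 : v = u
          · exact Or.inl h7
          · refine Or.inr ?_
            by_cases h8 : Disjoint (S u) (S v)
            · intro x hx
              rcases mem_union.1 (h6 hx) with h9 | h9
              · exact h9
              · exact absurd hx (disjoint_left.1 h8 h9)
            · exfalso
              refine h4 v (mem_filter.2 ⟨mem_univ _, h7, h8⟩) fun x hx => ?_
              obtain ⟨h9, h10⟩ := mem_sdiff.1 hx
              rcases mem_union.1 (h6 h9) with h11 | h11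
              · exact h11
              · exact absurd h11 h10
        · rintro (rfl | h6)
          · exact subset_union_right
          · exact h6.trans subset_union_left
      simp only [cnt]
      rw [h5, card_insert_of_notMem (by simpa using h3)]
    refine h2.trans ((pr_or_le _ _).trans (add_le_add ?_ ?_))
    · rw [pr_subset_uniform, hS]
    · refine (pr_exists_le _ _).trans (le_trans (le_of_eq ?_) (hμ u))
      unfold ovl
      refine sum_congr rfl fun v _ => ?_
      rw [pr_subset_uniform]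
  refine (sum_le_sum fun u _ => h1 u).trans ?_
  rw [sum_const, card_univ, nsmul_eq_mul, mul_comm]

omit [Nonempty U] in
theorem delta_le {k : ℕ} {S : U → Finset V} (hS : ∀ u, (S u).card = k) {μ : ℝ}
    (hμ : ∀ u, ovl S u ≤ μ) :
    pr (fun X => ¬ Dj S X) ≤ Fintype.card U / (2 ^ k : ℝ) * μ := by
  classical
  have h1 : pr (fun X => ¬ Dj S X) ≤ pr (fun X => ∃ u ∈ (univ : Finset U),
      ∃ v ∈ univ.filter (fun v => v ≠ u ∧ ¬ Disjoint (S u) (S v)), S u ∪ S v ⊆ X) := by
    refine pr_mono fun X hX => ?_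
    unfold Dj at hX
    push Not at hX
    obtain ⟨u, v, h2, h3, h4, h5⟩ := hX
    exact ⟨u, mem_univ _, v, mem_filter.2 ⟨mem_univ _, h4.symm, h5⟩, union_subset h2 h3⟩
  refine h1.trans ((pr_exists_le _ _).trans ?_)
  have h2 : ∀ u ∈ (univ : Finset U), pr (fun X => ∃ v ∈ univ.filter
      (fun v => v ≠ u ∧ ¬ Disjoint (S u) (S v)), S u ∪ S v ⊆ X) ≤ (1 / 2) ^ k * μ := by
    intro u _
    refine (pr_exists_le _ _).trans ?_
    refine le_trans (le_of_eq ?_) (mul_le_mul_of_nonneg_left (hμ u) (by positivity))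
    unfold ovl
    rw [mul_sum]
    refine sum_congr rfl fun v _ => ?_
    rw [pr_subset_uniform, ← pow_add, ← hS u]
    congr 1
    rw [← union_sdiff_self_eq_union, card_union_of_disjoint disjoint_sdiff]
  refine (sum_le_sum h2).trans ?_
  rw [sum_const, card_univ, nsmul_eq_mul, one_div, inv_pow, div_eq_mul_inv]
  linarith

omit [Nonempty U] in
theorem ovl_le {k D : ℕ} {S : U → Finset V} (hS : ∀ u, (S u).card = k) {q : ℝ} (hq : 0 < q)
    (hkq : k ≤ q) (hsp : Spread S q D) (hD : ∀ u v, u ≠ v → (S u ∩ S v).card ≤ D) (u : U) :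
    ovl S u ≤ 4 * (Fintype.card U / (2 ^ k : ℝ)) * (k / q) := by
  classical
  set I : Finset (Finset V) := ((S u).powerset.erase ∅).filter fun T => T.card ≤ D with hI
  have h1 : ∀ v ∈ univ.filter (fun v => v ≠ u ∧ ¬ Disjoint (S u) (S v)),
      ((1 : ℝ) / 2) ^ (S v \ S u).card ≤ 2 * (1 / 2) ^ k * ∑ T ∈ I, if T ⊆ S v then 1 else 0 := by
    intro v hv
    obtain ⟨-, hvu, hdis⟩ := mem_filter.1 hv
    set c := (S u ∩ S v).card with hc
    have hc1 : 1 ≤ c := by
      rw [hc, Nat.one_le_iff_ne_zero, Finset.card_ne_zero, ← not_disjoint_iff_nonempty_inter]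
      exact hdis
    have hcd : (S v \ S u).card + c = k := by
      rw [hc, inter_comm, ← hS v]
      exact card_sdiff_add_card_inter (S v) (S u)
    have h2 : ((2 : ℝ) ^ c - 1) ≤ ∑ T ∈ I, if T ⊆ S v then 1 else 0 := by
      rw [← sum_filter, sum_const, nsmul_eq_mul, mul_one]
      have h3 : ((S u ∩ S v).powerset.erase ∅) ⊆ I.filter fun T => T ⊆ S v := by
        intro T hT
        rw [mem_erase, mem_powerset] at hT
        rw [mem_filter, hI, mem_filter, mem_erase, mem_powerset]
        refine ⟨⟨⟨hT.1, hT.2.trans inter_subset_left⟩, ?_⟩, hT.2.trans inter_subset_right⟩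
        exact (card_le_card hT.2).trans (hD u v hvu.symm)
      have h4 := card_le_card h3
      rw [card_erase_of_mem (empty_mem_powerset _), card_powerset, ← hc] at h4
      have h5 : ((2 ^ c - 1 : ℕ) : ℝ) = 2 ^ c - 1 := by
        rw [Nat.cast_sub Nat.one_le_two_pow]
        push_cast
        rfl
      rw [← h5]
      exact_mod_cast h4
    have h3 : ((1 : ℝ) / 2) ^ (S v \ S u).card = (1 / 2) ^ k * 2 ^ c := by
      rw [← hcd, pow_add, mul_assoc, ← mul_pow]
      norm_num
    have h4 : (2 : ℝ) ≤ 2 ^ c := by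
      calc (2 : ℝ) = 2 ^ 1 := by norm_num
        _ ≤ 2 ^ c := pow_le_pow_right₀ (by norm_num) hc1
    rw [h3]
    have h5 : (0 : ℝ) < (1 / 2) ^ k := by positivity
    have h6 : (2 : ℝ) ^ c ≤ 2 * ∑ T ∈ I, if T ⊆ S v then 1 else 0 := by linarith
    calc (1 / 2 : ℝ) ^ k * 2 ^ c ≤ (1 / 2) ^ k * (2 * ∑ T ∈ I, if T ⊆ S v then 1 else 0) :=
        mul_le_mul_of_nonneg_left h6 h5.le
      _ = _ := by ring
  have h2 : ovl S u ≤ ∑ v : U, 2 * (1 / 2) ^ k * ∑ T ∈ I, if T ⊆ S v then (1 : ℝ) else 0 := by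
    unfold ovl
    refine (sum_le_sum h1).trans ?_
    refine sum_le_sum_of_subset_of_nonneg (subset_univ _) fun v _ _ => ?_
    have : (0 : ℝ) ≤ ∑ T ∈ I, if T ⊆ S v then (1 : ℝ) else 0 :=
      sum_nonneg fun T _ => by split_ifs <;> norm_num
    positivity
  refine h2.trans ?_
  rw [← mul_sum, sum_comm]
  have h3 : ∀ T ∈ I, (∑ v : U, if T ⊆ S v then (1 : ℝ) else 0) ≤
      Fintype.card U * (1 / q) ^ T.card := by
    intro T hT
    rw [sum_boole, one_div, inv_pow, ← div_eq_mul_inv, le_div_iff₀ (by positivity)]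
    exact hsp T (mem_filter.1 hT).2
  have h4 : ∑ T ∈ I, (Fintype.card U : ℝ) * (1 / q) ^ T.card ≤
      Fintype.card U * (2 * (k / q)) := by
    rw [← mul_sum]
    refine mul_le_mul_of_nonneg_left ?_ (Nat.cast_nonneg _)
    have h5 : ∑ T ∈ I, ((1 : ℝ) / q) ^ T.card ≤
        ∑ T ∈ (S u).powerset.erase ∅, ((1 : ℝ) / q) ^ T.card :=
      sum_le_sum_of_subset_of_nonneg (filter_subset _ _) fun T _ _ => by positivity
    have h6 : ∑ T ∈ (S u).powerset.erase ∅, ((1 : ℝ) / q) ^ T.card = (1 / q + 1) ^ k - 1 := by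
      have h1 := sum_pow_mul_eq_add_pow ((1 : ℝ) / q) 1 (S u)
      rw [← add_sum_erase _ _ (empty_mem_powerset (S u)), hS] at h1
      simp only [card_empty, pow_zero, one_pow, mul_one] at h1
      rw [← h1]
      ring
    have h7 : (1 / q + 1) ^ k ≤ Real.exp (k / q) := by
      have h8 := Real.add_one_le_exp (1 / q)
      calc (1 / q + 1) ^ k ≤ Real.exp (1 / q) ^ k := by gcongr
        _ = Real.exp (k / q) := by
          rw [← Real.exp_nat_mul]
          congr 1
          ring
    have h8 : Real.exp (k / q) ≤ 1 + 2 * (k / q) := by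
      have h9 : (k : ℝ) / q ≤ 1 := by
        rw [div_le_one hq]
        exact hkq
      have h10 : 0 ≤ (k : ℝ) / q := by positivity
      have h11 := Real.abs_exp_sub_one_le (x := k / q) (by rw [abs_of_nonneg h10]; exact h9)
      rw [abs_of_nonneg h10] at h11
      have := (abs_le.1 h11).2
      linarith
    linarith
  calc 2 * (1 / 2 : ℝ) ^ k * ∑ T ∈ I, ∑ v : U, (if T ⊆ S v then (1 : ℝ) else 0) ≤
      2 * (1 / 2) ^ k * (Fintype.card U * (2 * (k / q))) := by
        refine mul_le_mul_of_nonneg_left ((sum_le_sum h3).trans h4) (by positivity)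
    _ = _ := by
      rw [one_div, inv_pow]
      ring

end count

end Pool.Agent.Lib.MP_70d3b5_lc.Real
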