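import Pool.Agent.Lib.MP_70d3b5_lc.Real.Lam
import Pool.Agent.Lib.MP_70d3b5_lc.Real.Poisson
import Pool.Agent.Lib.MP_70d3b5_lc.Real.Stage

/-!
# The family of graphs of polynomials and the encoding of uniform strings
-/

open Finset

namespace Pool.Agent.Lib.MP_70d3b5_lc.Real

/-! ### The family -/

section family

variable {q t k A : ℕ} [Fact q.Prime]

/-- Polynomials of degree at most `t` with small leading coefficient. -/
abbrev UF (q t A : ℕ) : Type := {c : Fin (t + 1) → ZMod q // (c (Fin.last t)).val < A}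

theorem card_val_lt (hA : A ≤ q) : (univ.filter fun z : ZMod q => z.val < A).card = A := by
  have h1 : ((univ.filter fun z : ZMod q => z.val < A).image ZMod.val) = range A := by
    ext m
    simp only [mem_image, mem_filter, mem_univ, true_and, mem_range]
    constructor
    · rintro ⟨z, h, rfl⟩
      exact h
    · intro h
      exact ⟨(m : ZMod q), by rw [ZMod.val_natCast, Nat.mod_eq_of_lt (h.trans_le hA)]; exact h,
        by rw [ZMod.val_natCast, Nat.mod_eq_of_lt (h.trans_le hA)]⟩
  rw [← card_image_of_injective _ (ZMod.val_injective q), h1, card_range]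

theorem card_UF (hA : A ≤ q) : Fintype.card (UF q t A) = A * q ^ t := by
  classical
  rw [Fintype.card_subtype]
  have h1 : (univ.filter fun c : Fin (t + 1) → ZMod q => (c (Fin.last t)).val < A) =
      Fintype.piFinset (fun i => if i = Fin.last t then
        univ.filter (fun z : ZMod q => z.val < A) else univ) := by
    ext c
    simp only [mem_filter, mem_univ, true_and, Fintype.mem_piFinset]
    constructor
    · intro h i
      split_ifs with hi
      · rw [hi]
        simpa using h
      · exact mem_univ _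
    · intro h
      have := h (Fin.last t)
      rw [if_pos rfl] at this
      simpa using this
  rw [h1, Fintype.card_piFinset, Fin.prod_univ_castSucc]
  have h2 : ∀ i : Fin t, (if i.castSucc = Fin.last t then
      univ.filter (fun z : ZMod q => z.val < A) else univ).card = q := by
    intro i
    rw [if_neg (Fin.castSucc_lt_last i).ne, card_univ, ZMod.card]
  rw [prod_congr rfl fun i _ => h2 i, if_pos rfl, card_val_lt hA, prod_const, card_univ,
    Fintype.card_fin, mul_comm]

theorem peval_last (c : Fin (t + 1) → ZMod q) (y : ZMod q) :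
    peval c y = peval (fun j : Fin t => c j.castSucc) y + c (Fin.last t) * y ^ t := by
  unfold peval
  rw [Fin.sum_univ_castSucc]
  simp

theorem peval_inj' (Y : Finset (ZMod q)) (hY : Y.card = t) (c c' : Fin (t + 1) → ZMod q)
    (hl : c (Fin.last t) = c' (Fin.last t)) (h : ∀ y ∈ Y, peval c y = peval c' y) : c = c' := by
  have h1 := peval_inj Y hY (fun j : Fin t => c j.castSucc) (fun j : Fin t => c' j.castSucc)
    (fun y hy => by
      have h2 := h y hy
      rw [peval_last, peval_last, hl] at h2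
      exact add_right_cancel h2)
  funext j
  refine Fin.lastCases hl (fun i => ?_) j
  exact congrFun h1 i

theorem points_inj {k : ℕ} (hk : k ≤ q) (c : Fin (t + 1) → ZMod q) {B : Finset (Fin k × ZMod q)}
    (hB : B ⊆ graph k c) : Set.InjOn (fun p : Fin k × ZMod q => ((p.1 : ℕ) : ZMod q))
      (B : Set (Fin k × ZMod q)) := by
  intro p hp p' hp' h
  simp only at h
  have h1 : (p.1 : ℕ) = p'.1 := by
    have := (ZMod.natCast_eq_natCast_iff' _ _ _).1 h
    rwa [Nat.mod_eq_of_lt (p.1.2.trans_le hk), Nat.mod_eq_of_lt (p'.1.2.trans_le hk)] at this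
  have h2 := (mem_graph c p).1 (hB hp)
  have h3 := (mem_graph c p').1 (hB hp')
  refine Prod.ext (Fin.ext h1) ?_
  rw [← h2, ← h3, h1]

/-- The family is spread. -/
theorem spread_UF (hk : k ≤ q) (ht : t ≤ q) (hA : A ≤ q) :
    Spread (fun u : UF q t A => graph k u.1) (q : ℝ) t := by
  classical
  intro B hB
  have hq : 0 < q := (Fact.out : q.Prime).pos
  have hqR : (0 : ℝ) < q := by exact_mod_cast hq
  rw [card_UF hA]
  set T : Finset (UF q t A) := univ.filter fun u => B ⊆ graph k u.1 with hT
  by_cases hne : T.Nonempty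
  swap
  · rw [not_nonempty_iff_eq_empty.1 hne, card_empty, Nat.cast_zero, zero_mul]
    exact Nat.cast_nonneg _
  obtain ⟨c₀, hc₀⟩ := hne
  have hc₀' : B ⊆ graph k c₀.1 := (mem_filter.1 hc₀).2
  let X : Finset (ZMod q) := B.image fun p => ((p.1 : ℕ) : ZMod q)
  have hX : X.card = B.card := card_image_of_injOn (points_inj hk c₀.1 hc₀')
  obtain ⟨Y, hXY, hYc⟩ := exists_superset_card_eq (s := X) (n := t) (by rw [hX]; exact hB)
    (by rw [ZMod.card]; exact ht)
  have hinj : Set.InjOn (fun (u : UF q t A) =>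
      ((⟨(u.1 (Fin.last t)).val, u.2⟩ : Fin A), fun y : {y // y ∈ Y \ X} => peval u.1 y.1))
      (T : Set (UF q t A)) := by
    intro u hu u' hu' h
    simp only [Prod.mk.injEq, Fin.mk.injEq] at h
    obtain ⟨h1, h2⟩ := h
    refine Subtype.ext (peval_inj' Y hYc u.1 u'.1 (ZMod.val_injective q h1) fun y hy => ?_)
    by_cases hyX : y ∈ X
    · obtain ⟨p, hp, rfl⟩ := mem_image.1 hyX
      have h2 := (mem_graph u.1 p).1 ((mem_filter.1 (mem_coe.1 hu)).2 hp)
      have h3 := (mem_graph u'.1 p).1 ((mem_filter.1 (mem_coe.1 hu')).2 hp)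
      rw [h2, h3]
    · exact congrFun h2 ⟨y, mem_sdiff.2 ⟨hy, hyX⟩⟩
  have hcard : T.card ≤ A * q ^ (t - B.card) := by
    have h1 := card_le_card_of_injOn (s := T) (t := univ)
      (fun (u : UF q t A) => ((⟨(u.1 (Fin.last t)).val, u.2⟩ : Fin A),
        fun y : {y // y ∈ Y \ X} => peval u.1 y.1)) (fun _ _ => mem_coe.2 (mem_univ _)) hinj
    rw [card_univ, Fintype.card_prod, Fintype.card_fin, Fintype.card_fun, ZMod.card,
      Fintype.card_coe, card_sdiff_of_subset hXY, hYc, hX] at h1
    exact h1
  have h2 : (T.card : ℝ) ≤ A * (q : ℝ) ^ (t - B.card) := by exact_mod_cast hcard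
  calc (T.card : ℝ) * (q : ℝ) ^ B.card ≤ (A * (q : ℝ) ^ (t - B.card)) * (q : ℝ) ^ B.card := by
        gcongr
    _ = A * (q : ℝ) ^ t := by rw [mul_assoc, ← pow_add, Nat.sub_add_cancel hB]
    _ = ((A * q ^ t : ℕ) : ℝ) := by push_cast; rfl

/-- Different members have few common elements. -/
theorem inter_UF (hk : k ≤ q) (u v : UF q t A) (huv : u ≠ v) :
    (graph k u.1 ∩ graph k v.1).card ≤ t := by
  classical
  by_contra hc
  push Not at hc
  set B := graph k u.1 ∩ graph k v.1 with hB
  let X : Finset (ZMod q) := B.image fun p => ((p.1 : ℕ) : ZMod q)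
  have hX : X.card = B.card := card_image_of_injOn (points_inj hk u.1 inter_subset_left)
  obtain ⟨Y, hYX, hYc⟩ := exists_subset_card_eq (s := X) (n := t + 1) (by rw [hX]; exact hc)
  refine huv (Subtype.ext (peval_inj Y hYc u.1 v.1 fun y hy => ?_))
  obtain ⟨p, hp, rfl⟩ := mem_image.1 (hYX hy)
  have h2 := (mem_graph u.1 p).1 (mem_inter.1 hp).1
  have h3 := (mem_graph v.1 p).1 (mem_inter.1 hp).2
  rw [h2, h3]

end family

/-! ### Encoding -/

section enc

variable {n k q : ℕ} [NeZero q]

/-- The position of an element. -/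
def posn (hkq : k * q ≤ n) (v : Fin k × ZMod q) : Fin n :=
  ⟨pos 0 v, pos_lt (h := 0) (by rwa [zero_add]) v⟩

theorem posn_inj (hkq : k * q ≤ n) : Function.Injective (posn hkq) := by
  intro v w h
  exact pos_inj 0 (Fin.mk.inj_iff.1 h)

open Classical in
/-- The string that agrees with `z` outside the positions of the elements and tells on these
positions whether the element belongs to `X`. -/
noncomputable def encF (hkq : k * q ≤ n) (z : Fin n → Bool) (X : Finset (Fin k × ZMod q)) :
    Fin n → Bool :=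
  fun p => if ∃ v, posn hkq v = p then decide (∃ v ∈ X, posn hkq v = p) else z p

/-- The set of the elements described by `z`. -/
def rdF (hkq : k * q ≤ n) (z : Fin n → Bool) : Finset (Fin k × ZMod q) :=
  univ.filter fun v => z (posn hkq v) = true

theorem encF_posn (hkq : k * q ≤ n) (z : Fin n → Bool) (X : Finset (Fin k × ZMod q))
    (v : Fin k × ZMod q) : encF hkq z X (posn hkq v) = true ↔ v ∈ X := by
  classical
  unfold encF
  rw [if_pos ⟨v, rfl⟩, decide_eq_true_eq]
  constructor
  · rintro ⟨w, hw, h⟩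
    rwa [← posn_inj hkq h]
  · intro h
    exact ⟨v, h, rfl⟩

theorem encF_of_not (hkq : k * q ≤ n) (z : Fin n → Bool) (X : Finset (Fin k × ZMod q))
    {p : Fin n} (hp : ¬ ∃ v, posn hkq v = p) : encF hkq z X p = z p := by
  classical
  unfold encF
  rw [if_neg hp]

theorem rdF_encF (hkq : k * q ≤ n) (z : Fin n → Bool) (X : Finset (Fin k × ZMod q)) :
    rdF hkq (encF hkq z X) = X := by
  ext v
  rw [rdF, mem_filter, encF_posn]
  simp

theorem encF_encF (hkq : k * q ≤ n) (z : Fin n → Bool) (X : Finset (Fin k × ZMod q)) :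
    encF hkq (encF hkq z X) (rdF hkq z) = z := by
  funext p
  by_cases hp : ∃ v, posn hkq v = p
  · obtain ⟨v, rfl⟩ := hp
    rw [Bool.eq_iff_iff, encF_posn, rdF, mem_filter]
    simp
  · rw [encF_of_not hkq _ _ hp, encF_of_not hkq _ _ hp]

/-- Exchange of the bits on the positions of the elements. -/
noncomputable def swapF (hkq : k * q ≤ n) :
    ((Fin n → Bool) × Finset (Fin k × ZMod q)) ≃ ((Fin n → Bool) × Finset (Fin k × ZMod q)) where
  toFun p := (encF hkq p.1 p.2, rdF hkq p.1)
  invFun p := (encF hkq p.1 p.2, rdF hkq p.1)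
  left_inv p := Prod.ext (encF_encF hkq p.1 p.2) (rdF_encF hkq p.1 p.2)
  right_inv p := Prod.ext (encF_encF hkq p.1 p.2) (rdF_encF hkq p.1 p.2)

theorem pr_encF (hkq : k * q ≤ n) (Φ : (Fin n → Bool) → Prop) :
    pr (fun p : (Fin n → Bool) × Finset (Fin k × ZMod q) => Φ (encF hkq p.1 p.2)) = pr Φ := by
  rw [← pr_fst (β := Finset (Fin k × ZMod q)) Φ]
  exact pr_equiv (swapF hkq) (fun p : (Fin n → Bool) × Finset (Fin k × ZMod q) => Φ p.1)

/-- The encoding. -/
noncomputable def encU (hkq : k * q ≤ n) (z : Fin n → Bool) : Enc (Fin k × ZMod q) n where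
  str X := List.ofFn (encF hkq z X)
  len X := by simp
  bit p := by
    by_cases hp : p < n
    · by_cases h : ∃ v, posn hkq v = ⟨p, hp⟩
      · right
        obtain ⟨v, hv⟩ := h
        refine ⟨v, fun X => ?_⟩
        rw [← encF_posn hkq z X v, hv, List.getD_eq_getElem?_getD, List.getElem?_eq_getElem
          (by simpa using hp)]
        simp
      · left
        refine ⟨z ⟨p, hp⟩, fun X => ?_⟩
        rw [← encF_of_not hkq z X h, List.getD_eq_getElem?_getD, List.getElem?_eq_getElem
          (by simpa using hp)]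
        simp
    · left
      refine ⟨false, fun X => ?_⟩
      rw [List.getD_eq_default]
      simpa using hp

theorem getD_encU (hkq : k * q ≤ n) (z : Fin n → Bool) (X : Finset (Fin k × ZMod q))
    (v : Fin k × ZMod q) :
    (List.ofFn (encF hkq z X)).getD (v.1 * q + v.2.val) false = true ↔ v ∈ X := by
  have h0 : (v.1 : ℕ) * q + v.2.val = pos 0 v := by
    unfold pos
    rw [zero_add]
  have hp : pos 0 v < n := pos_lt (h := 0) (by rwa [zero_add]) v
  rw [← encF_posn hkq z X v, h0, List.getD_eq_getElem?_getD, List.getElem?_eq_getElem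
    (by simpa using hp)]
  simp
  rfl

end enc

/-- Membership in the language. -/
theorem mem_langU {n : ℕ} (hq : (qU n).Prime) (hkq : kU n * qU n ≤ n) [NeZero (qU n)]
    (z : Fin n → Bool) (X : Finset (Fin (kU n) × ZMod (qU n))) :
    List.ofFn (encF hkq z X) ∈ LangU ↔
      ∃ u : UF (qU n) (tU n) (AU n), graph (kU n) u.1 ⊆ X := by
  have h1 : List.ofFn (encF hkq z X) ∈ LangU ↔ InLU n (List.ofFn (encF hkq z X)) := by
    change InLU (List.ofFn (encF hkq z X)).length _ ↔ _
    rw [List.length_ofFn]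
  rw [h1]
  unfold InLU
  rw [and_iff_right hq]
  have key : ∀ (c : Fin (tU n + 1) → ZMod (qU n)) (i : ℕ) (hi : i < kU n),
      (List.ofFn (encF hkq z X)).getD (i * qU n + (peval c (i : ZMod (qU n))).val) false = true ↔
        ((⟨i, hi⟩ : Fin (kU n)), peval c (i : ZMod (qU n))) ∈ X := fun c i hi =>
    getD_encU hkq z X ((⟨i, hi⟩ : Fin (kU n)), peval c (i : ZMod (qU n)))
  constructor
  · rintro ⟨c, h2, h3⟩
    refine ⟨⟨c, h2⟩, fun v hv => ?_⟩
    rw [mem_graph] at hv
    have h4 := (key c v.1 v.1.2).1 (h3 v.1 v.1.2)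
    rwa [hv] at h4
  · rintro ⟨u, hu⟩
    refine ⟨u.1, u.2, fun i hi => (key u.1 i hi).2 (hu ?_)⟩
    rw [mem_graph]

end Pool.Agent.Lib.MP_70d3b5_lc.Real
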