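import Pool.Agent.Lib.MP_70d3b5_lc.Real.Avg
import Pool.Agent.Lib.MP_70d3b5_lc.Final

/-!
# The main theorem on circuits with real gates and arbitrary gates
-/

open Finset

namespace Pool.Agent.Lib.MP_70d3b5_lc.Real

open Arb (dist dist_nonneg dist_sum)

theorem success_le_one {L : Set (List Bool)} {n : ℕ} {D : (Fin n → Bool) → ℝ}
    (h0 : ∀ x, 0 ≤ D x) (h1 : ∑ x, D x = 1) (gs : List Gate) (out : ℕ) :
    success L D gs out ≤ 1 := by
  classical
  rw [← h1]
  unfold success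
  refine sum_le_sum fun x _ => ?_
  split_ifs
  · exact le_rfl
  · exact h0 x

/-- The main theorem. -/
theorem exists_dist {n w : ℕ} (hn : 1 ≤ n) (hnw : n < 2 ^ w) :
    ∃ D : (Fin n → Bool) → ℝ, (∀ x, 0 ≤ D x) ∧ ∑ x, D x = 1 ∧
      ∀ (gs : List Gate) (out A : ℕ), mons gs ≤ 2 ^ w → AltLe n gs A →
        success Lang D gs out ≤
          1 / 2 + 8000 * (A + 1) * w ^ 3 * (Nat.log 2 n + 1) ^ 2 / n := by
  classical
  set a := Nat.log 2 n with ha
  have hnR : (0 : ℝ) < n := by exact_mod_cast hn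
  have haw : a < w := by
    have h1 : 2 ^ a ≤ n := Nat.pow_log_le_self 2 (by omega)
    exact (Nat.pow_lt_pow_iff_right (by norm_num)).1 (lt_of_le_of_lt h1 hnw)
  have hw : 1 ≤ w := by omega
  by_cases hbig : n ≤ 16000 * (w ^ 3 * (a + 1) ^ 2)
  · -- small lengths
    refine ⟨fun x => if x = fun _ => false then 1 else 0, fun x => by positivity, by simp,
      fun gs out A _ _ => ?_⟩
    refine (success_le_one (fun x => by positivity) (by simp) gs out).trans ?_
    have h1 : (n : ℝ) ≤ 16000 * (w ^ 3 * (a + 1) ^ 2) := by exact_mod_cast hbig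
    have h2 : (1 : ℝ) / 2 ≤ 8000 * (A + 1) * w ^ 3 * (a + 1) ^ 2 / n := by
      rw [div_le_div_iff₀ (by norm_num) hnR]
      have h3 : (0 : ℝ) ≤ A * (w ^ 3 * (a + 1) ^ 2) := by positivity
      nlinarith
    linarith
  push Not at hbig
  -- integer inequalities
  have i1 : 1 ≤ w * (a + 1) := Nat.one_le_iff_ne_zero.2 (by positivity)
  have hk5 : kk n w ≤ 5 * (w * (a + 1)) := by
    unfold kk
    rw [← ha]
    have : 2 * w * (a + 1) = 2 * (w * (a + 1)) := by ring
    omega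
  have i2 : 16000 * ((w * (w * (a + 1))) * (w * (a + 1))) < n := by
    refine lt_of_le_of_lt (le_of_eq ?_) hbig
    ring
  have i3 : 1 ≤ w * (w * (a + 1)) := Nat.one_le_iff_ne_zero.2 (by positivity)
  have i4 : w * (a + 1) ≤ (w * (w * (a + 1))) * (w * (a + 1)) :=
    Nat.le_mul_of_pos_left _ i3
  have h4k : 4 * kk n w ≤ n := by omega
  have hwk : w < kk n w := by
    unfold kk
    nlinarith [Nat.zero_le (w * Nat.log 2 n)]
  obtain ⟨hq, hn4⟩ := lt_qq (n := n) (w := w) (by omega)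
  have hwn : w < n / 2 := by omega
  set q := qq n w with hqdef
  set k := kk n w with hkdef
  set b := 4 * (w * (a + 2)) + 4 with hb
  have hb12 : b ≤ 12 * (w * (a + 1)) := by
    have : w * (a + 2) = w * (a + 1) + w := by ring
    have : w ≤ w * (a + 1) := Nat.le_mul_of_pos_right _ (Nat.succ_pos a)
    omega
  have i5 : n < 20 * (w * (a + 1) * q) := by
    have j1 : k * q ≤ (5 * (w * (a + 1))) * q := Nat.mul_le_mul_right q hk5
    have j2 : (5 * (w * (a + 1))) * q = 5 * (w * (a + 1) * q) := by ring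
    omega
  have i6 : 800 * (w * (w * (a + 1))) < q := by
    by_contra hcon
    push Not at hcon
    have j1 : w * (a + 1) * q ≤ w * (a + 1) * (800 * (w * (w * (a + 1)))) :=
      Nat.mul_le_mul_left _ hcon
    have j2 : w * (a + 1) * (800 * (w * (w * (a + 1)))) =
        800 * ((w * (w * (a + 1))) * (w * (a + 1))) := by ring
    omega
  have i7 : w * b ≤ 12 * (w * (w * (a + 1))) := by
    have j1 : w * b ≤ w * (12 * (w * (a + 1))) := Nat.mul_le_mul_left _ hb12
    have j2 : w * (12 * (w * (a + 1))) = 12 * (w * (w * (a + 1))) := by ring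
    omega
  set m := q / (16 * (w * b)) with hm
  have hwb0 : 0 < 16 * (w * b) := by
    have : 0 < w * b := by positivity
    omega
  have hm1 : 1 ≤ m := by
    rw [hm, Nat.le_div_iff_mul_le hwb0]
    omega
  have hN : 4 * (2 * w * (2 * b * m)) ≤ q := by
    have j1 : 4 * (2 * w * (2 * b * m)) = m * (16 * (w * b)) := by ring
    rw [j1, hm]
    exact Nat.div_mul_le_self _ _
  have hmq : q < 32 * (w * b) * m := by
    have j1 : q < 16 * (w * b) * (m + 1) := Nat.lt_mul_div_succ q hwb0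
    have j2 : 16 * (w * b) * (m + 1) ≤ 16 * (w * b) * (m + m) :=
      Nat.mul_le_mul_left _ (by omega)
    have j3 : 16 * (w * b) * (m + m) = 32 * (w * b) * m := by ring
    omega
  have hwb : b ≤ q := by
    have j1 : b ≤ 2 * w * (2 * b * m) := by
      have : 2 * w * (2 * b * m) = b * (4 * w * m) := by ring
      rw [this]
      exact Nat.le_mul_of_pos_right _ (by positivity)
    omega
  have hkb : k ≤ b := by
    rw [hkdef, hb]
    unfold kk
    rw [← ha]
    have : w * (a + 2) = w * (a + 1) + w := by ring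
    have : 2 * w * (a + 1) = 2 * (w * (a + 1)) := by ring
    omega
  have hkq : k ≤ q := hkb.trans hwb
  have h2wk : 2 * w ≤ k := by
    rw [hkdef]
    unfold kk
    nlinarith [Nat.zero_le (w * Nat.log 2 n)]
  -- sizes
  have hnlt : n < 2 ^ (a + 1) := Nat.lt_pow_succ_log_self (by norm_num) n
  have hkqn : k * q ≤ n / 2 := kk_mul_qq n w
  have hqn : q ≤ 2 ^ a := by
    have h1 : q ≤ k * q := Nat.le_mul_of_pos_left _ (by omega)
    rw [pow_succ] at hnlt
    omega
  have hF : Fact q.Prime := ⟨hq⟩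
  have hns : numSets (Fin k × ZMod q) (2 * w) ≤ 2 ^ (2 * w * (a + 1)) := by
    refine (numSets_le _ _).trans ?_
    have e : 2 ^ (2 * w * (a + 1)) = (2 ^ (a + 1)) ^ (2 * w) := by
      rw [← pow_mul, mul_comm (a + 1)]
    rw [Fintype.card_prod, Fintype.card_fin, ZMod.card, e]
    exact Nat.pow_le_pow_left (by omega) _
  have hb2 : 2 ≤ b := by omega
  have hN0 : 0 < 2 * b * m := by positivity
  refine ⟨dist q w m (2 * b * m) b (n / 2) w n k, fun x => dist_nonneg x,
    dist_sum hN0 hm1, fun gs out A hs hA => ?_⟩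
  have hmain := success_le (h := n / 2) (s := w) (n := n) (k := k) (q := q) (w := w) (b := b)
    (m := m) (N := 2 * b * m) hkq (h2wk.trans hkq) hw hb2 hm1 le_rfl hN gs out Lang
    (enc_mem hwn hq) hA
  refine hmain.trans ?_
  -- the error terms
  have hnsR : (numSets (Fin k × ZMod q) (2 * w) : ℝ) ≤ 2 ^ (2 * w * (a + 1)) := by
    exact_mod_cast hns
  have hδ : ((2 : ℝ) / 3) ^ b ≤ (1 / 2) ^ (2 * w * (a + 1)) * (1 / 4) ^ (w + 1) := by
    have e1 : b = 2 * (2 * w * (a + 1) + 2 * (w + 1)) := by rw [hb]; ring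
    rw [e1, pow_mul]
    have e2 : ((1 : ℝ) / 4) ^ (w + 1) = (1 / 2) ^ (2 * (w + 1)) := by
      rw [pow_mul]
      norm_num
    rw [e2, ← pow_add]
    exact pow_le_pow_left₀ (by norm_num) (by norm_num) _
  have hε' : (numSets (Fin k × ZMod q) (2 * w) : ℝ) * (2 / 3) ^ b ≤ (1 / 4) ^ (w + 1) := by
    calc (numSets (Fin k × ZMod q) (2 * w) : ℝ) * (2 / 3) ^ b
        ≤ 2 ^ (2 * w * (a + 1)) * ((1 / 2) ^ (2 * w * (a + 1)) * (1 / 4) ^ (w + 1)) := by
          gcongr
      _ = (1 / 4) ^ (w + 1) := by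
          rw [← mul_assoc, ← mul_pow]
          norm_num
  have hδ' : ((2 : ℝ) / 3) ^ b ≤ (1 / 4) ^ (w + 1) := by
    refine hδ.trans ?_
    have : ((1 : ℝ) / 2) ^ (2 * w * (a + 1)) ≤ 1 := pow_le_one₀ (by norm_num) (by norm_num)
    have h4 : (0 : ℝ) ≤ (1 / 4) ^ (w + 1) := by positivity
    nlinarith
  have hη : (q : ℝ) ^ (2 * w) * (1 / 2) ^ k ≤ (1 / 2) ^ w := by
    have hqR : (q : ℝ) ≤ 2 ^ a := by exact_mod_cast hqn
    have e1 : k = 2 * w * a + (2 * w + 3) := by
      rw [hkdef]; unfold kk; rw [← ha]; ring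
    calc (q : ℝ) ^ (2 * w) * (1 / 2) ^ k
        ≤ (2 ^ a) ^ (2 * w) * (1 / 2) ^ k := by gcongr
      _ = (1 / 2) ^ (2 * w + 3) := by
          rw [← pow_mul, mul_comm a, e1, pow_add, ← mul_assoc, ← mul_pow]
          norm_num
      _ ≤ (1 / 2) ^ w := pow_le_pow_of_le_one (by norm_num) (by norm_num) (by omega)
  have hsR : (mons gs : ℝ) ≤ 2 ^ w := by exact_mod_cast hs
  have hE : (mons gs : ℝ) * ((1 / 4) ^ (w + 1) +
      numSets (Fin k × ZMod q) (2 * w) * (2 / 3) ^ b) + (2 / 3) ^ b ≤ (1 / 2) ^ w := by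
    have h1 : (mons gs : ℝ) * ((1 / 4) ^ (w + 1) +
        numSets (Fin k × ZMod q) (2 * w) * (2 / 3) ^ b) ≤
        2 ^ w * ((1 / 4) ^ (w + 1) + (1 / 4) ^ (w + 1)) := by gcongr
    have h2 : (2 : ℝ) ^ w * ((1 / 4) ^ (w + 1) + (1 / 4) ^ (w + 1)) = (1 / 2) ^ w / 2 := by
      have : ((1 : ℝ) / 4) ^ w = (1 / 2) ^ w * (1 / 2) ^ w := by
        rw [← mul_pow]; norm_num
      have h3 : (2 : ℝ) ^ w * (1 / 2) ^ w = 1 := by
        rw [← mul_pow]; norm_num
      rw [pow_succ, this]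
      linear_combination (1 / 2 : ℝ) * (1 / 2) ^ w * h3
    have h5 : ((1 : ℝ) / 4) ^ (w + 1) ≤ (1 / 2) ^ w / 2 := by
      have : ((1 : ℝ) / 4) ^ w ≤ (1 / 2) ^ w := pow_le_pow_left₀ (by norm_num) (by norm_num) _
      have h0 : (0 : ℝ) < (1 / 2) ^ w := by positivity
      rw [pow_succ]
      linarith
    linarith
  have hhalf : ((1 : ℝ) / 2) ^ w ≤ 1 / n := by
    rw [one_div, inv_pow, ← one_div]
    have : (n : ℝ) ≤ 2 ^ w := by exact_mod_cast hnw.le
    exact one_div_le_one_div_of_le hnR this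
  -- the main term
  have hmR : (0 : ℝ) < m := by exact_mod_cast hm1
  have hinv : (1 : ℝ) / m ≤ 7680 * (w ^ 3 * (a + 1) ^ 2) / n := by
    rw [div_le_div_iff₀ hmR hnR]
    have j1 : n ≤ 7680 * (w ^ 3 * (a + 1) ^ 2) * m := by
      have j2 : w * (a + 1) * q ≤ w * (a + 1) * (32 * (w * b) * m) :=
        Nat.mul_le_mul_left _ hmq.le
      have j3 : w * (a + 1) * (32 * (w * b) * m) = 32 * (w * (a + 1) * m) * (w * b) := by ring
      have j4 : 32 * (w * (a + 1) * m) * (w * b) ≤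
          32 * (w * (a + 1) * m) * (12 * (w * (w * (a + 1)))) := Nat.mul_le_mul_left _ i7
      have j5 : 20 * (32 * (w * (a + 1) * m) * (12 * (w * (w * (a + 1))))) =
          7680 * (w ^ 3 * (a + 1) ^ 2) * m := by ring
      omega
    have j6 : (n : ℝ) ≤ 7680 * (w ^ 3 * (a + 1) ^ 2) * m := by exact_mod_cast j1
    linarith
  have hA0 : (0 : ℝ) ≤ A := by positivity
  have h1 : ((A : ℝ) + 1) / m ≤ 7680 * (A + 1) * (w ^ 3 * (a + 1) ^ 2) / n := by
    calc ((A : ℝ) + 1) / m = (A + 1) * (1 / m) := by ring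
      _ ≤ (A + 1) * (7680 * (w ^ 3 * (a + 1) ^ 2) / n) := by gcongr
      _ = _ := by ring
  have h2 : (1 : ℝ) / n ≤ 320 * (A + 1) * (w ^ 3 * (a + 1) ^ 2) / n := by
    refine div_le_div_of_nonneg_right ?_ hnR.le
    have j1 : 1 ≤ w ^ 3 * (a + 1) ^ 2 := Nat.one_le_iff_ne_zero.2 (by positivity)
    have j2 : (1 : ℝ) ≤ w ^ 3 * (a + 1) ^ 2 := by exact_mod_cast j1
    nlinarith [mul_nonneg hA0 (le_trans zero_le_one j2)]
  have h3 : 8000 * ((A : ℝ) + 1) * w ^ 3 * (a + 1) ^ 2 / n =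
      7680 * (A + 1) * (w ^ 3 * (a + 1) ^ 2) / n +
        320 * (A + 1) * (w ^ 3 * (a + 1) ^ 2) / n := by ring
  rw [h3]
  linarith

/-- The main theorem, also in terms of the number of traces, and of the nesting depth and the
number of inputs of the arbitrary gates. -/
theorem exists_dist' {n w : ℕ} (hn : 1 ≤ n) (hnw : n < 2 ^ w) :
    ∃ D : (Fin n → Bool) → ℝ, (∀ x, 0 ≤ D x) ∧ ∑ x, D x = 1 ∧
      ∀ (gs : List Gate) (out : ℕ), mons gs ≤ 2 ^ w →
        (∀ A, AltLe n gs A → success Lang D gs out ≤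
          1 / 2 + 8000 * (A + 1) * w ^ 3 * (Nat.log 2 n + 1) ^ 2 / n) ∧
        (success Lang D gs out ≤
          1 / 2 + 8000 * (traces n gs).card * w ^ 3 * (Nat.log 2 n + 1) ^ 2 / n) ∧
        ∀ d, 1 ≤ d → depth n gs ≤ d → success Lang D gs out ≤
          1 / 2 + 8000 * (fan gs / d + 1) ^ d * w ^ 3 * (Nat.log 2 n + 1) ^ 2 / n := by
  obtain ⟨D, h0, h1, h2⟩ := exists_dist hn hnw
  refine ⟨D, h0, h1, fun gs out hs => ⟨fun A hA => h2 gs out A hs hA, ?_,
    fun d hd hdep => ?_⟩⟩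
  · have h3 := h2 gs out _ hs (altLe_traces n gs)
    have h4 : (((traces n gs).card - 1 : ℕ) : ℝ) + 1 = (traces n gs).card := by
      have := traces_card_pos n gs
      rw [Nat.cast_sub this]
      push_cast
      ring
    rwa [h4] at h3
  · obtain ⟨A, hA, hA'⟩ := altLe_depth hd hdep
    refine (h2 gs out A hs hA).trans ?_
    gcongr

/-- Circuits of polynomial size that decide the language. -/
theorem worst_case (k : ℕ) : ∃ C : ℝ, ∀ (n : ℕ) (gs : List Gate) (out d : ℕ), 2 ≤ n →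
    (∀ x : List Bool, x.length = n → Correct Lang gs out x) → mons gs ≤ n ^ k + k → 1 ≤ d →
    depth n gs ≤ d → (n : ℝ) ≤ C * (fan gs / d + 1) ^ d * Real.logb 2 n ^ 5 := by
  classical
  refine ⟨16000 * (2 * k + 3) ^ 3 * 32, fun n gs out d hn hD hs hd hdep => ?_⟩
  set s := mons gs with hsdef
  set w := Nat.log 2 (max n s) + 1 with hw
  have h2 : max n s < 2 ^ w := Nat.lt_pow_succ_log_self (by norm_num) _
  obtain ⟨D, h0, h1, h3⟩ := exists_dist' (n := n) (w := w) (by omega)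
    (lt_of_le_of_lt (le_max_left _ _) h2)
  have h4 := (h3 gs out ((le_max_right _ _).trans h2.le)).2.2 d hd hdep
  have h5 : success Lang D gs out = 1 := by
    rw [← h1]
    unfold success
    refine sum_congr rfl fun x _ => ?_
    rw [if_pos (hD _ (by simp))]
  rw [h5] at h4
  have h6 := log_bound k n s (by omega) (by omega)
  rw [← hw] at h6
  set l := Nat.log 2 n + 1 with hl
  have hnR : (2 : ℝ) ≤ n := by exact_mod_cast hn
  have hn0 : (0 : ℝ) < n := by linarith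
  have hL1 : 1 ≤ Real.logb 2 n := by
    rw [Real.le_logb_iff_rpow_le (by norm_num) hn0]
    simpa using hnR
  have hlL : (l : ℝ) ≤ 2 * Real.logb 2 n := by
    have h7 : (Nat.log 2 n : ℝ) ≤ Real.logb 2 n := by
      rw [Real.le_logb_iff_rpow_le (by norm_num) hn0, Real.rpow_natCast]
      exact_mod_cast Nat.pow_log_le_self 2 (by omega)
    rw [hl]
    push_cast
    linarith
  have h7 : (w : ℝ) ≤ (2 * k + 3) * l := by exact_mod_cast h6
  have h8 : (1 : ℝ) / 2 ≤ 8000 * (fan gs / d + 1) ^ d * w ^ 3 * l ^ 2 / n := by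
    rw [hl]
    push_cast
    linarith
  rw [div_le_div_iff₀ (by norm_num) hn0] at h8
  calc (n : ℝ) ≤ 16000 * (fan gs / d + 1) ^ d * w ^ 3 * l ^ 2 := by linarith
    _ ≤ 16000 * (fan gs / d + 1) ^ d * ((2 * k + 3) * l) ^ 3 * l ^ 2 := by gcongr
    _ = 16000 * (2 * k + 3) ^ 3 * (fan gs / d + 1) ^ d * l ^ 5 := by ring
    _ ≤ 16000 * (2 * k + 3) ^ 3 * (fan gs / d + 1) ^ d * (2 * Real.logb 2 n) ^ 5 := by gcongr
    _ = _ := by ring

end Pool.Agent.Lib.MP_70d3b5_lc.Real
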