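import Pool.Agent.Lib.MP_70d3b5_lc.Hybrid

/-!
# From the stages of the noise to the uniform distribution
-/

open Finset

namespace Pool.Agent.Lib.MP_70d3b5_lc.Real

/-! ### The law of a random set with independent elements -/

section law

set_option linter.unusedSectionVars false

variable {V : Type} [Fintype V] [DecidableEq V] {Ω : Type} [Fintype Ω] [Nonempty Ω]

theorem pr_pi_forall' (P : V → Ω → Prop) :
    pr (fun ω : V → Ω => ∀ v, P v (ω v)) = ∏ v, pr (P v) := by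
  classical
  have h0 : ∀ v, pr (P v) = ((univ.filter (P v)).card : ℝ) / Fintype.card Ω := fun v => pr_def _
  rw [pr_def, prod_congr rfl fun v _ => h0 v, prod_div_distrib]
  have : (univ.filter fun ω : V → Ω => ∀ v, P v (ω v)) =
      Fintype.piFinset fun v => univ.filter (P v) := by
    ext ω; simp
  rw [this, Fintype.card_piFinset, Fintype.card_fun]
  push_cast
  simp

/-- The random set given by `ω`. -/
noncomputable def rset (D : Ω → Prop) (ω : V → Ω) : Finset V :=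
  haveI := Classical.decPred D
  univ.filter fun v => D (ω v)

omit [Fintype Ω] [Nonempty Ω] [DecidableEq V] in
theorem mem_rset (D : Ω → Prop) (ω : V → Ω) (v : V) : v ∈ rset D ω ↔ D (ω v) := by
  simp [rset]

theorem pr_rset (D : Ω → Prop) (x : Finset V) :
    pr (fun ω : V → Ω => rset D ω = x) =
      pr D ^ x.card * (1 - pr D) ^ (Fintype.card V - x.card) := by
  classical
  have h1 : pr (fun ω : V → Ω => rset D ω = x) =
      pr (fun ω : V → Ω => ∀ v, (fun v a => if v ∈ x then D a else ¬ D a) v (ω v)) := by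
    refine pr_congr fun ω => ?_
    rw [Finset.ext_iff]
    refine forall_congr' fun v => ?_
    rw [mem_rset]
    by_cases hv : v ∈ x
    · simp [hv]
    · simp [hv]
  rw [h1, pr_pi_forall' (fun v a => if v ∈ x then D a else ¬ D a)]
  have h2 : ∀ v, pr ((fun v a => if v ∈ x then D a else ¬ D a) v : Ω → Prop) =
      if v ∈ x then pr D else 1 - pr D := by
    intro v
    by_cases hv : v ∈ x
    · simp only [hv, if_true]
    · simp only [hv, if_false]
      exact pr_compl D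
  simp only [h2]
  rw [prod_ite, prod_const, prod_const, filter_mem_eq_inter, univ_inter]
  congr 2
  rw [← card_univ, ← card_sdiff_of_subset (subset_univ x)]
  congr 1
  ext i; simp

end law

/-! ### The binomial weights near one half -/

theorem weight_ge_right {p δ : ℝ} {n k : ℕ} (hp : 1 / 2 ≤ p) (hp' : p ≤ 1 / 2 + δ) (_hδ : 0 ≤ δ)
    (hδ' : δ ≤ 1 / 2) (hn : 16 * n * δ ^ 2 ≤ 3) (hk : k ≤ n) (hkn : n ≤ 2 * k) :
    1 / 2 * (1 / 2 : ℝ) ^ n ≤ p ^ k * (1 - p) ^ (n - k) := by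
  have h0 : 0 ≤ 1 - p := by linarith
  have hp0 : 0 ≤ p := by linarith
  have h1 : (p * (1 - p)) ^ n ≤ (p ^ k * (1 - p) ^ (n - k)) ^ 2 := by
    have e1 : (p ^ k * (1 - p) ^ (n - k)) ^ 2 =
        p ^ n * (p ^ (2 * k - n) * (1 - p) ^ (2 * (n - k))) := by
      rw [mul_pow, ← pow_mul, ← pow_mul, ← mul_assoc, ← pow_add]
      congr 2 <;> omega
    have e2 : (p * (1 - p)) ^ n = p ^ n * ((1 - p) ^ (2 * k - n) * (1 - p) ^ (2 * (n - k))) := by
      rw [mul_pow, ← pow_add]
      congr 2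
      omega
    rw [e1, e2]
    have : (1 - p) ^ (2 * k - n) ≤ p ^ (2 * k - n) := pow_le_pow_left₀ h0 (by linarith) _
    gcongr
  have h2 : (1 / 4 : ℝ) ^ n * (1 / 4) ≤ (p * (1 - p)) ^ n := by
    have e1 : (1 / 4 : ℝ) * (1 - 4 * δ ^ 2) ≤ p * (1 - p) := by
      have : (p - 1 / 2) ^ 2 ≤ δ ^ 2 := pow_le_pow_left₀ (by linarith) (by linarith) 2
      nlinarith
    have h4 : 4 * δ ^ 2 ≤ 1 := by nlinarith
    have e2 : (1 : ℝ) + n * (-(4 * δ ^ 2)) ≤ (1 + -(4 * δ ^ 2)) ^ n :=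
      one_add_mul_le_pow (by linarith) n
    calc (1 / 4 : ℝ) ^ n * (1 / 4) ≤ (1 / 4) ^ n * (1 - 4 * δ ^ 2) ^ n := by
          gcongr
          have : (1 : ℝ) + -(4 * δ ^ 2) = 1 - 4 * δ ^ 2 := by ring
          rw [this] at e2
          linarith
      _ = ((1 / 4) * (1 - 4 * δ ^ 2)) ^ n := by rw [mul_pow]
      _ ≤ (p * (1 - p)) ^ n := pow_le_pow_left₀ (by linarith) e1 n
  have h3 : (1 / 2 * (1 / 2 : ℝ) ^ n) ^ 2 ≤ (p ^ k * (1 - p) ^ (n - k)) ^ 2 := by
    refine le_trans (le_of_eq ?_) (h2.trans h1)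
    rw [mul_pow, ← pow_mul, mul_comm n 2, pow_mul]
    norm_num
    ring
  exact le_of_sq_le_sq' h3 (by positivity)
where
  le_of_sq_le_sq' {a b : ℝ} (h : a ^ 2 ≤ b ^ 2) (hb : 0 ≤ b) : a ≤ b := by
    by_contra hc
    push Not at hc
    nlinarith

theorem weight_ge_left {p δ : ℝ} {n k : ℕ} (hp : 1 / 2 - δ ≤ p) (hp' : p ≤ 1 / 2) (hδ : 0 ≤ δ)
    (hδ' : δ ≤ 1 / 2) (hn : 16 * n * δ ^ 2 ≤ 3) (hk : k ≤ n) (hkn : 2 * k ≤ n) :
    1 / 2 * (1 / 2 : ℝ) ^ n ≤ p ^ k * (1 - p) ^ (n - k) := by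
  have h := weight_ge_right (p := 1 - p) (δ := δ) (n := n) (k := n - k) (by linarith)
    (by linarith) hδ hδ' hn (by omega) (by omega)
  have e1 : n - (n - k) = k := by omega
  have e2 : 1 - (1 - p) = p := by ring
  rw [e1, e2, mul_comm ((1 - p) ^ (n - k))] at h
  exact h

/-! ### The stages -/

section stages

set_option linter.unusedSectionVars false

variable {U V : Type} [Fintype V] [DecidableEq V] [Fintype U] [Nonempty U]

/-- The starting set. -/
def X0 {K : ℕ} (a₀ : ℕ) (ω : V → Fin K) : Finset V := univ.filter fun v => (ω v : ℕ) < a₀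

theorem pr_ge {K a₀ : ℕ} (_ha : a₀ ≤ K) : pr (fun i : Fin K => ¬ (i : ℕ) < a₀) = (K - a₀ : ℕ) / K := by
  classical
  rw [pr_def, Fintype.card_fin]
  congr 2
  have h1 : (univ.filter fun i : Fin K => ¬ (i : ℕ) < a₀).map Fin.valEmbedding = Ico a₀ K := by
    ext i
    simp only [mem_map, mem_filter, mem_univ, true_and, Fin.valEmbedding_apply, mem_Ico]
    constructor
    · rintro ⟨j, h1, rfl⟩
      exact ⟨not_lt.1 h1, j.2⟩
    · rintro ⟨h1, h2⟩
      exact ⟨⟨i, h2⟩, not_lt.2 h1, rfl⟩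
  rw [← card_map Fin.valEmbedding, h1, Nat.card_Ico]

/-- The law of the set after `j` stages. -/
theorem pr_stage {K a₀ j b N : ℕ} (hN : 0 < N) (hK : 0 < K) (ha : a₀ ≤ K) (x : Finset V) :
    pr (fun p : (V → Fin K) × (Fin j → Fin b → V → Fin N) => X0 a₀ p.1 ∪ RR p.2 = x) =
      (1 - (K - a₀ : ℕ) / K * (1 - 1 / (N : ℝ)) ^ (b * j)) ^ x.card *
      ((K - a₀ : ℕ) / K * (1 - 1 / (N : ℝ)) ^ (b * j)) ^ (Fintype.card V - x.card) := by
  classical
  have hne : Nonempty (Fin N) := ⟨⟨0, hN⟩⟩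
  have hne' : Nonempty (Fin K) := ⟨⟨0, hK⟩⟩
  let e : (V → Fin K × (Fin j → Fin b → Fin N)) ≃ (V → Fin K) × (Fin j → Fin b → V → Fin N) :=
    { toFun := fun y => (fun v => (y v).1, fun i k v => (y v).2 i k)
      invFun := fun p v => (p.1 v, fun i k => p.2 i k v)
      left_inv := fun _ => rfl
      right_inv := fun _ => rfl }
  let D : Fin K × (Fin j → Fin b → Fin N) → Prop := fun a =>
    (a.1 : ℕ) < a₀ ∨ ∃ i k, ((a.2 i k : Fin N) : ℕ) = 0
  have h1 : pr (fun p : (V → Fin K) × (Fin j → Fin b → V → Fin N) => X0 a₀ p.1 ∪ RR p.2 = x) =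
      pr (fun y : V → Fin K × (Fin j → Fin b → Fin N) => rset D y = x) := by
    rw [← pr_equiv e]
    refine pr_congr fun y => ?_
    have : X0 a₀ (e y).1 ∪ RR (e y).2 = rset D y := by
      ext v
      rw [mem_rset]
      simp only [X0, RR, ZZ, mem_union, mem_filter, mem_univ, true_and, mem_biUnion, mem_Z]
      rfl
    rw [this]
  have h2 : pr (fun y : Fin j → Fin b → Fin N => ¬ ∃ i k, ((y i k : Fin N) : ℕ) = 0) =
      (1 - 1 / (N : ℝ)) ^ (b * j) := by
    have h3 : pr (fun y : Fin j → Fin b → Fin N => ¬ ∃ i k, ((y i k : Fin N) : ℕ) = 0) =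
        pr (fun y : Fin j → Fin b → Fin N => ∀ i, (∀ k, ¬ ((y i k : Fin N) : ℕ) = 0)) := by
      refine pr_congr fun y => ?_
      push Not
      rfl
    rw [h3, pr_pi_forall j (fun y : Fin b → Fin N => ∀ k, ¬ ((y k : Fin N) : ℕ) = 0),
      pr_pi_forall b (fun y : Fin N => ¬ (y : ℕ) = 0), pr_compl, pr_zero hN, pow_mul]
  have h3 : pr (fun a => ¬ D a) = (K - a₀ : ℕ) / K * (1 - 1 / (N : ℝ)) ^ (b * j) := by
    have e1 : pr (fun a => ¬ D a) = pr (fun a : Fin K × (Fin j → Fin b → Fin N) =>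
        ¬ ((a.1 : ℕ) < a₀) ∧ ¬ ∃ i k, ((a.2 i k : Fin N) : ℕ) = 0) :=
      pr_congr fun a => by simp only [D, not_or]
    have e2 : pr (fun a : Fin K × (Fin j → Fin b → Fin N) =>
        ¬ ((a.1 : ℕ) < a₀) ∧ ¬ ∃ i k, ((a.2 i k : Fin N) : ℕ) = 0) =
        pr (fun i : Fin K => ¬ (i : ℕ) < a₀) *
          pr (fun y : Fin j → Fin b → Fin N => ¬ ∃ i k, ((y i k : Fin N) : ℕ) = 0) := by
      rw [pr_def, pr_def, pr_def (fun y : Fin j → Fin b → Fin N => _), Fintype.card_prod]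
      have : (univ.filter fun a : Fin K × (Fin j → Fin b → Fin N) =>
          ¬ ((a.1 : ℕ) < a₀) ∧ ¬ ∃ i k, ((a.2 i k : Fin N) : ℕ) = 0) =
          (univ.filter fun i : Fin K => ¬ (i : ℕ) < a₀) ×ˢ
          (univ.filter fun y : Fin j → Fin b → Fin N => ¬ ∃ i k, ((y i k : Fin N) : ℕ) = 0) := by
        ext a
        simp only [mem_filter, mem_univ, true_and, mem_product]
      rw [this, card_product]
      push_cast
      rw [mul_div_mul_comm]
    rw [e1, e2, pr_ge ha, h2]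
  have h4 : pr D = 1 - (K - a₀ : ℕ) / K * (1 - 1 / (N : ℝ)) ^ (b * j) := by
    have := pr_compl D
    rw [h3] at this
    linarith
  rw [h1, pr_rset, h4]
  congr 2
  ring

/-- The sum over the stages bounds the probability for the uniform distribution. -/
theorem flip_le (Ψ : Finset V → U → Prop) {E : ℝ} {b N h : ℕ} (hN : 2 ≤ N)
    (hE : ∀ X₀ : Finset V, ∑ j ∈ range (2 * h + 1),
      pr (fun p : (Fin j → Fin b → V → Fin N) × U => Ψ (X₀ ∪ RR p.1) p.2) ≤ E)
    (hδ : 2 * (b * h) ≤ N) (hv : 16 * Fintype.card V * (b * h : ℝ) ^ 2 ≤ 3 * (N : ℝ) ^ 2) :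
    pr (fun p : Finset V × U => Ψ p.1 p.2) * (2 * h + 1) ≤ 4 * E := by
  classical
  have hN0 : 0 < N := by omega
  have hNR : (0 : ℝ) < N := by exact_mod_cast hN0
  have hne : Nonempty (Fin N) := ⟨⟨0, hN0⟩⟩
  set n := Fintype.card V with hn
  set t : ℝ := 1 - 1 / (N : ℝ) with ht
  have ht0 : 0 < t := by
    rw [ht, sub_pos, div_lt_one hNR]
    exact_mod_cast (by omega : 1 < N)
  have ht1 : t ≤ 1 := by
    rw [ht]
    have : 0 ≤ 1 / (N : ℝ) := by positivity
    linarith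
  set δ : ℝ := (b * h : ℝ) / N with hδdef
  have hδ0 : 0 ≤ δ := by positivity
  have hδ2 : δ ≤ 1 / 2 := by
    rw [hδdef, div_le_div_iff₀ hNR (by norm_num)]
    have : ((2 * (b * h) : ℕ) : ℝ) ≤ N := by exact_mod_cast hδ
    push_cast at this
    linarith
  have hvδ : 16 * (n : ℝ) * δ ^ 2 ≤ 3 := by
    rw [hδdef, div_pow, ← mul_div_assoc, div_le_iff₀ (by positivity)]
    exact hv
  -- Bernoulli
  have hbern : ∀ i : ℕ, i ≤ h → 1 - δ ≤ t ^ (b * i) := by
    intro i hi
    have h1 : (1 : ℝ) + ((b * i : ℕ) : ℝ) * (-(1 / (N : ℝ))) ≤ (1 + -(1 / (N : ℝ))) ^ (b * i) := by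
      refine one_add_mul_le_pow ?_ _
      have : 1 / (N : ℝ) ≤ 1 := by
        rw [div_le_one hNR]
        exact_mod_cast hN0
      linarith
    have h2 : ((b * i : ℕ) : ℝ) * (1 / (N : ℝ)) ≤ δ := by
      rw [hδdef, mul_one_div]
      refine div_le_div_of_nonneg_right ?_ hNR.le
      have : b * i ≤ b * h := Nat.mul_le_mul_left _ hi
      exact_mod_cast this
    have e : (1 + -(1 / (N : ℝ))) = t := by rw [ht]; ring
    rw [e] at h1
    linarith
  -- the starting density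
  set K := 2 * (N - 1) ^ (b * h) with hK
  have hN1R : ((N - 1 : ℕ) : ℝ) = N - 1 := by
    rw [Nat.cast_sub (by omega)]
    simp
  have hN10 : (0 : ℝ) < (N : ℝ) - 1 := by
    have : (1 : ℝ) < N := by exact_mod_cast (by omega : 1 < N)
    linarith
  have hK0 : 0 < K := by
    rw [hK]
    have : 0 < N - 1 := by omega
    positivity
  have htN : t = ((N : ℝ) - 1) / N := by
    rw [ht]
    field_simp
  have hNK : N ^ (b * h) ≤ K := by
    have h1 := hbern h le_rfl
    have h2 : (1 : ℝ) / 2 ≤ t ^ (b * h) := by linarith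
    rw [htN, div_pow, div_le_div_iff₀ (by norm_num) (by positivity)] at h2
    have h3 : ((N ^ (b * h) : ℕ) : ℝ) ≤ (K : ℝ) := by
      rw [hK]
      push_cast
      rw [hN1R]
      linarith
    exact_mod_cast h3
  set a₀ := K - N ^ (b * h) with ha₀
  have hKa : K - a₀ = N ^ (b * h) := by omega
  have hKR : (0 : ℝ) < K := by exact_mod_cast hK0
  have hne' : Nonempty (Fin K) := ⟨⟨0, hK0⟩⟩
  have hρ : ((K - a₀ : ℕ) : ℝ) / K = 1 / 2 / t ^ (b * h) := by
    rw [hKa, hK]
    push_cast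
    rw [hN1R, htN, div_pow]
    have h1 : ((N : ℝ) - 1) ^ (b * h) ≠ 0 := by positivity
    field_simp
  -- the densities
  let ρ : ℕ → ℝ := fun j => 1 / 2 / t ^ (b * h) * t ^ (b * j)
  have hρ1 : ∀ j, h ≤ j → j ≤ 2 * h → ρ j ≤ 1 / 2 ∧ 1 / 2 - δ ≤ ρ j := by
    intro j h1 h2
    have e1 : ρ j = 1 / 2 * t ^ (b * (j - h)) := by
      simp only [ρ]
      have : b * j = b * h + b * (j - h) := by
        rw [← Nat.mul_add]
        congr 1
        omega
      rw [this, pow_add]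
      field_simp
    rw [e1]
    have h3 := hbern (j - h) (by omega)
    have h4 : t ^ (b * (j - h)) ≤ 1 := pow_le_one₀ ht0.le ht1
    constructor <;> linarith
  have hρ2 : ∀ j, j ≤ h → 1 / 2 ≤ ρ j ∧ ρ j ≤ 1 / 2 + δ := by
    intro j h1
    have e1 : ρ j = 1 / 2 / t ^ (b * (h - j)) := by
      simp only [ρ]
      have : b * h = b * j + b * (h - j) := by
        rw [← Nat.mul_add]
        congr 1
        omega
      rw [this, pow_add]
      field_simp
    rw [e1]
    have h3 := hbern (h - j) (by omega)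
    have h4 : t ^ (b * (h - j)) ≤ 1 := pow_le_one₀ ht0.le ht1
    have h5 : 0 < t ^ (b * (h - j)) := by positivity
    constructor
    · rw [le_div_iff₀ h5]
      linarith
    · rw [div_le_iff₀ h5]
      have h6 : (1 / 2 + δ) * (1 - δ) ≤ (1 / 2 + δ) * t ^ (b * (h - j)) := by gcongr
      nlinarith
  -- the law of the stages
  have hlaw : ∀ j (x : Finset V),
      pr (fun p : (V → Fin K) × (Fin j → Fin b → V → Fin N) => X0 a₀ p.1 ∪ RR p.2 = x) =
      (1 - ρ j) ^ x.card * (ρ j) ^ (n - x.card) := by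
    intro j x
    rw [pr_stage hN0 hK0 (Nat.sub_le _ _), hρ]
  have hlow : ∀ x : Finset V, (2 * h + 1 : ℝ) / 4 * (1 / 2) ^ n ≤ ∑ j ∈ range (2 * h + 1),
      pr (fun p : (V → Fin K) × (Fin j → Fin b → V → Fin N) => X0 a₀ p.1 ∪ RR p.2 = x) := by
    intro x
    have hx : x.card ≤ n := card_le_univ x
    have hpos : (0 : ℝ) ≤ (1 / 2) ^ n := by positivity
    rcases le_total n (2 * x.card) with h1 | h1
    · calc (2 * h + 1 : ℝ) / 4 * (1 / 2) ^ n ≤ (h + 1 : ℝ) * (1 / 2 * (1 / 2) ^ n) := by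
            have : (2 * h + 1 : ℝ) / 4 ≤ (h + 1) * (1 / 2) := by linarith [(Nat.cast_nonneg h : (0:ℝ) ≤ h)]
            nlinarith
        _ = ∑ j ∈ Ico h (2 * h + 1), (1 / 2 * (1 / 2 : ℝ) ^ n) := by
            rw [sum_const, Nat.card_Ico, nsmul_eq_mul]
            congr 1
            have : 2 * h + 1 - h = h + 1 := by omega
            rw [this]
            push_cast
            ring
        _ ≤ ∑ j ∈ Ico h (2 * h + 1),
            pr (fun p : (V → Fin K) × (Fin j → Fin b → V → Fin N) => X0 a₀ p.1 ∪ RR p.2 = x) := by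
            refine sum_le_sum fun j hj => ?_
            obtain ⟨h2, h3⟩ := mem_Ico.1 hj
            obtain ⟨h4, h5⟩ := hρ1 j h2 (by omega)
            rw [hlaw]
            have h6 := weight_ge_right (p := 1 - ρ j) (δ := δ) (by linarith) (by linarith) hδ0 hδ2
              hvδ hx h1
            have e : 1 - (1 - ρ j) = ρ j := by ring
            rwa [e] at h6
        _ ≤ _ := by
            refine sum_le_sum_of_subset_of_nonneg (fun j hj => ?_) fun _ _ _ => pr_nonneg _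
            rw [mem_Ico] at hj
            rw [mem_range]
            omega
    · calc (2 * h + 1 : ℝ) / 4 * (1 / 2) ^ n ≤ (h + 1 : ℝ) * (1 / 2 * (1 / 2) ^ n) := by
            have : (2 * h + 1 : ℝ) / 4 ≤ (h + 1) * (1 / 2) := by linarith [(Nat.cast_nonneg h : (0:ℝ) ≤ h)]
            nlinarith
        _ = ∑ j ∈ range (h + 1), (1 / 2 * (1 / 2 : ℝ) ^ n) := by
            rw [sum_const, card_range, nsmul_eq_mul]
            push_cast
            ring
        _ ≤ ∑ j ∈ range (h + 1),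
            pr (fun p : (V → Fin K) × (Fin j → Fin b → V → Fin N) => X0 a₀ p.1 ∪ RR p.2 = x) := by
            refine sum_le_sum fun j hj => ?_
            obtain ⟨h4, h5⟩ := hρ2 j (by have := mem_range.1 hj; omega)
            rw [hlaw]
            have h6 := weight_ge_left (p := 1 - ρ j) (δ := δ) (by linarith) (by linarith) hδ0 hδ2
              hvδ hx h1
            have e : 1 - (1 - ρ j) = ρ j := by ring
            rwa [e] at h6
        _ ≤ _ := by
            refine sum_le_sum_of_subset_of_nonneg (fun j hj => ?_) fun _ _ _ => pr_nonneg _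
            rw [mem_range] at hj ⊢
            omega
  -- the average over the starting sets
  have havg : ∑ j ∈ range (2 * h + 1), pr (fun p : (V → Fin K) × ((Fin j → Fin b → V → Fin N) × U) =>
      Ψ (X0 a₀ p.1 ∪ RR p.2.1) p.2.2) ≤ E := by
    have h0 : (0 : ℝ) < Fintype.card (V → Fin K) := by
      have : 0 < Fintype.card (V → Fin K) := Fintype.card_pos
      exact_mod_cast this
    have h1 : ∀ j ∈ range (2 * h + 1),
        pr (fun p : (V → Fin K) × ((Fin j → Fin b → V → Fin N) × U) =>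
          Ψ (X0 a₀ p.1 ∪ RR p.2.1) p.2.2) = (∑ ω₀ : V → Fin K,
          pr (fun p : (Fin j → Fin b → V → Fin N) × U => Ψ (X0 a₀ ω₀ ∪ RR p.1) p.2)) /
          Fintype.card (V → Fin K) := fun j _ =>
      pr_prod (fun (ω₀ : V → Fin K) (p : (Fin j → Fin b → V → Fin N) × U) =>
        Ψ (X0 a₀ ω₀ ∪ RR p.1) p.2)
    rw [sum_congr rfl h1, ← sum_div, sum_comm, div_le_iff₀ h0]
    refine (sum_le_sum fun ω₀ _ => hE (X0 a₀ ω₀)).trans ?_
    rw [sum_const, card_univ, nsmul_eq_mul, mul_comm]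
  -- fibers
  have hfib : ∀ j, pr (fun p : (V → Fin K) × ((Fin j → Fin b → V → Fin N) × U) =>
      Ψ (X0 a₀ p.1 ∪ RR p.2.1) p.2.2) = ∑ x : Finset V,
      pr (fun p : (V → Fin K) × (Fin j → Fin b → V → Fin N) => X0 a₀ p.1 ∪ RR p.2 = x) *
        pr (fun u => Ψ x u) := by
    intro j
    let e : ((V → Fin K) × (Fin j → Fin b → V → Fin N)) × U ≃
      (V → Fin K) × ((Fin j → Fin b → V → Fin N) × U) := Equiv.prodAssoc _ _ _
    rw [← pr_equiv e]
    have h1 : pr (fun p : ((V → Fin K) × (Fin j → Fin b → V → Fin N)) × U =>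
        Ψ (X0 a₀ (e p).1 ∪ RR (e p).2.1) (e p).2.2) =
        (∑ y : (V → Fin K) × (Fin j → Fin b → V → Fin N),
          pr (fun u => Ψ (X0 a₀ y.1 ∪ RR y.2) u)) /
          Fintype.card ((V → Fin K) × (Fin j → Fin b → V → Fin N)) :=
      pr_prod (fun (y : (V → Fin K) × (Fin j → Fin b → V → Fin N)) u =>
        Ψ (X0 a₀ y.1 ∪ RR y.2) u)
    rw [h1, ← sum_fiberwise (s := univ) (g := fun y :
      (V → Fin K) × (Fin j → Fin b → V → Fin N) => X0 a₀ y.1 ∪ RR y.2), sum_div]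
    refine sum_congr rfl fun x _ => ?_
    rw [pr_def (fun p : (V → Fin K) × (Fin j → Fin b → V → Fin N) => X0 a₀ p.1 ∪ RR p.2 = x),
      div_mul_eq_mul_div]
    congr 1
    have h2 : ∀ y ∈ univ.filter (fun y : (V → Fin K) × (Fin j → Fin b → V → Fin N) =>
        X0 a₀ y.1 ∪ RR y.2 = x), pr (fun u => Ψ (X0 a₀ y.1 ∪ RR y.2) u) =
        pr (fun u => Ψ x u) := by
      intro y hy
      rw [(mem_filter.1 hy).2]
    rw [sum_congr rfl h2, sum_const, nsmul_eq_mul]
  -- conclusion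
  have huni : pr (fun p : Finset V × U => Ψ p.1 p.2) =
      ∑ x : Finset V, (1 / 2 : ℝ) ^ n * pr (fun u => Ψ x u) := by
    rw [pr_prod (fun (x : Finset V) u => Ψ x u), ← mul_sum, Fintype.card_finset]
    rw [one_div, inv_pow, div_eq_inv_mul]
    push_cast
    rfl
  have h1 : ∑ x : Finset V, (2 * h + 1 : ℝ) / 4 * (1 / 2) ^ n * pr (fun u => Ψ x u) ≤ E := by
    refine le_trans (sum_le_sum fun x _ => mul_le_mul_of_nonneg_right (hlow x) (pr_nonneg _)) ?_
    have h2 : ∑ x : Finset V, (∑ j ∈ range (2 * h + 1),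
        pr (fun p : (V → Fin K) × (Fin j → Fin b → V → Fin N) => X0 a₀ p.1 ∪ RR p.2 = x)) *
          pr (fun u => Ψ x u) = ∑ j ∈ range (2 * h + 1),
        pr (fun p : (V → Fin K) × ((Fin j → Fin b → V → Fin N) × U) =>
          Ψ (X0 a₀ p.1 ∪ RR p.2.1) p.2.2) := by
      simp only [sum_mul, hfib]
      rw [sum_comm]
    rw [h2]
    exact havg
  rw [huni]
  have h3 : ∑ x : Finset V, (2 * h + 1 : ℝ) / 4 * (1 / 2) ^ n * pr (fun u => Ψ x u) =
      (2 * h + 1 : ℝ) / 4 * ∑ x : Finset V, (1 / 2) ^ n * pr (fun u => Ψ x u) := by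
    rw [mul_sum]
    exact sum_congr rfl fun x _ => by ring
  rw [h3] at h1
  linarith

end stages

end Pool.Agent.Lib.MP_70d3b5_lc.Real
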