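import Pool.Agent.Lib.MP_70d3b5_lc.Real.LangU

/-!
# The expected number of members of the family is close to `log 2`
-/

open Finset

namespace Pool.Agent.Lib.MP_70d3b5_lc.Real

/-! ### The mantissa -/

theorem uu_upper {n q : ℕ} (t : ℕ) : uu n q t * 2 ^ kap n q t ≤ n * q ^ t := by
  induction t with
  | zero => simp [uu, kap]
  | succ t ih =>
    rw [uu_succ, kap_succ, pow_add, ← mul_assoc, mul_right_comm]
    change uu n q t * q / pw (uu n q t * q / n) * pw (uu n q t * q / n) * 2 ^ kap n q t ≤ _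
    calc uu n q t * q / pw (uu n q t * q / n) * pw (uu n q t * q / n) * 2 ^ kap n q t
        ≤ uu n q t * q * 2 ^ kap n q t := Nat.mul_le_mul_right _ (Nat.div_mul_le_self _ _)
      _ = (uu n q t * 2 ^ kap n q t) * q := by ring
      _ ≤ n * q ^ t * q := Nat.mul_le_mul_right _ ih
      _ = n * q ^ (t + 1) := by ring

theorem uu_lower {n q : ℕ} (hn : 0 < n) (hq : 0 < q) (t : ℕ) :
    (n : ℝ) * q ^ t * (1 - 1 / n) ^ t ≤ uu n q t * 2 ^ kap n q t := by
  have hnR : (1 : ℝ) ≤ n := by exact_mod_cast hn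
  have h0 : (0 : ℝ) ≤ 1 - 1 / n := by
    rw [sub_nonneg, div_le_one (by linarith)]
    exact hnR
  induction t with
  | zero => simp [uu, kap]
  | succ t ih =>
    have hb := uu_bounds hn hq t
    set m := uu n q t * q / n with hm
    have h1 : 1 ≤ m := by
      rw [hm, Nat.one_le_div_iff hn]
      exact hb.1.trans (Nat.le_mul_of_pos_right _ hq)
    have h2 : pw m ≤ m := pw_le (by omega)
    have h3 : (pw m : ℝ) ≤ uu n q t * q / n := by
      have h4 : (pw m : ℝ) ≤ m := by exact_mod_cast h2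
      refine h4.trans ?_
      rw [hm]
      refine Nat.cast_div_le.trans ?_
      push_cast
      rfl
    have h5 : (uu n q t : ℝ) * q ≤ (uu n q (t + 1) + 1) * pw m := by
      have h6 : uu n q t * q < pw m * (uu n q (t + 1) + 1) := by
        rw [uu_succ, ← hm]
        exact Nat.lt_mul_div_succ _ (pw_pos m)
      have h7 : uu n q t * q ≤ (uu n q (t + 1) + 1) * pw m := by
        rw [mul_comm (_ + 1)]
        exact h6.le
      exact_mod_cast h7
    have h6 : (uu n q t : ℝ) * q * (1 - 1 / n) ≤ uu n q (t + 1) * pw m := by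
      have e : (uu n q t : ℝ) * q * (1 - 1 / n) = uu n q t * q - uu n q t * q / n := by ring
      rw [e]
      linarith
    have e2 : (2 : ℝ) ^ kap n q (t + 1) = 2 ^ kap n q t * pw m := by
      rw [kap_succ, pow_add, ← hm]
      simp [pw]
    rw [e2]
    calc (n : ℝ) * q ^ (t + 1) * (1 - 1 / n) ^ (t + 1)
        = (n * q ^ t * (1 - 1 / n) ^ t) * (q * (1 - 1 / n)) := by ring
      _ ≤ (uu n q t * 2 ^ kap n q t) * (q * (1 - 1 / n)) := by gcongr
      _ = (uu n q t * q * (1 - 1 / n)) * 2 ^ kap n q t := by ring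
      _ ≤ (uu n q (t + 1) * pw m) * 2 ^ kap n q t := by gcongr
      _ = _ := by ring

/-! ### The approximation of `log 2` -/

theorem lnS_eq (n : ℕ) : lnS n = ∑ j ∈ range (Nat.log 2 n + 1), n / 2 ^ (j + 1) / (j + 1) := by
  unfold lnS
  induction Nat.log 2 n + 1 with
  | zero => rfl
  | succ t ih =>
    rw [sum_range_succ, ← ih, ← hlf_eq]

theorem lnS_bounds {n : ℕ} (hn : 0 < n) :
    (lnS n : ℝ) ≤ n * Real.log 2 ∧ n * Real.log 2 - (Nat.log 2 n + 2) ≤ lnS n := by
  have hnR : (0 : ℝ) < n := by exact_mod_cast hn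
  set a := Nat.log 2 n with ha
  have h1 := Real.abs_log_sub_add_sum_range_le (x := 1 / 2) (by rw [abs_of_pos] <;> norm_num) (a + 1)
  have e1 : Real.log (1 - 1 / 2) = - Real.log 2 := by
    rw [← Real.log_inv]
    norm_num
  have e2 : |(1 : ℝ) / 2| ^ (a + 1 + 1) / (1 - |(1 : ℝ) / 2|) = (1 / 2) ^ (a + 1) := by
    rw [abs_of_pos (by norm_num), pow_succ]
    norm_num
  rw [e1, e2] at h1
  have h2 := (abs_le.1 h1).1
  -- upper bound of the partial sum by the full series
  have hs := Real.hasSum_pow_div_log_of_abs_lt_one (x := 1 / 2) (by rw [abs_of_pos] <;> norm_num)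
  have h3 : ∑ j ∈ range (a + 1), ((1 : ℝ) / 2) ^ (j + 1) / (j + 1) ≤ Real.log 2 := by
    have := sum_le_hasSum (range (a + 1)) (fun i _ => by positivity) hs
    rw [e1, neg_neg] at this
    exact this
  rw [lnS_eq, ← ha]
  push_cast
  have h4 : ∀ j : ℕ, ((n / 2 ^ (j + 1) / (j + 1) : ℕ) : ℝ) ≤ n * ((1 / 2) ^ (j + 1) / (j + 1)) := by
    intro j
    rw [Nat.div_div_eq_div_mul]
    refine Nat.cast_div_le.trans (le_of_eq ?_)
    push_cast
    rw [one_div, inv_pow]
    field_simp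
  have h5 : ∀ j : ℕ, n * ((1 / 2) ^ (j + 1) / (j + 1)) - 1 ≤
      ((n / 2 ^ (j + 1) / (j + 1) : ℕ) : ℝ) := by
    intro j
    rw [Nat.div_div_eq_div_mul]
    set D := 2 ^ (j + 1) * (j + 1) with hD
    have hD0 : 0 < D := by positivity
    have hDR : (0 : ℝ) < D := by exact_mod_cast hD0
    have h6 : n < D * (n / D + 1) := Nat.lt_mul_div_succ _ hD0
    have h7 : (n : ℝ) ≤ D * ((n / D : ℕ) + 1) := by exact_mod_cast h6.le
    have e : (n : ℝ) * ((1 / 2) ^ (j + 1) / (j + 1)) = n / D := by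
      rw [hD]
      push_cast
      rw [one_div, inv_pow]
      field_simp
    rw [e, sub_le_iff_le_add, div_le_iff₀ hDR]
    linarith
  constructor
  · calc ∑ j ∈ range (a + 1), ((n / 2 ^ (j + 1) / (j + 1) : ℕ) : ℝ)
        ≤ ∑ j ∈ range (a + 1), (n : ℝ) * ((1 / 2 : ℝ) ^ (j + 1) / (j + 1)) :=
          sum_le_sum fun j _ => h4 j
      _ = n * ∑ j ∈ range (a + 1), ((1 : ℝ) / 2) ^ (j + 1) / (j + 1) := by rw [mul_sum]
      _ ≤ _ := by gcongr
  · calc n * Real.log 2 - (a + 2) ≤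
        n * ∑ j ∈ range (a + 1), ((1 : ℝ) / 2) ^ (j + 1) / (j + 1) - (a + 1) := by
          have h6 : (n : ℝ) * (1 / 2) ^ (a + 1) ≤ 1 := by
            have h7 : n < 2 ^ (a + 1) := Nat.lt_pow_succ_log_self (by norm_num) n
            have h8 : (n : ℝ) ≤ 2 ^ (a + 1) := by exact_mod_cast h7.le
            rw [one_div, inv_pow, ← div_eq_mul_inv, div_le_one (by positivity)]
            exact h8
          nlinarith
      _ = ∑ j ∈ range (a + 1), ((n : ℝ) * ((1 / 2 : ℝ) ^ (j + 1) / (j + 1)) - 1) := by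
          rw [sum_sub_distrib, mul_sum]
          simp
      _ ≤ _ := sum_le_sum fun j _ => h5 j

/-! ### Bounds of the expectation -/

/-- The expected number of members. -/
noncomputable def lam (n : ℕ) : ℝ := AU n * (qU n : ℝ) ^ tU n / 2 ^ kU n

theorem two_pow_kU (n : ℕ) : (2 : ℝ) ^ kU n = 2 ^ kap n (qU n) (tU n) * pw (qU n) := by
  unfold kU pw
  rw [pow_add]
  push_cast
  rfl

theorem AU_le {n : ℕ} (hn : 0 < n) (hq : 0 < qU n) : AU n ≤ qU n := by
  have hb := uu_bounds hn hq (tU n)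
  have h1 := (lnS_bounds hn).1
  have h2 : lnS n ≤ n := by
    have h3 : Real.log 2 ≤ 1 := by
      have := Real.log_two_lt_d9
      linarith
    have h4 : (lnS n : ℝ) ≤ n := by
      have : (0 : ℝ) ≤ n := Nat.cast_nonneg n
      nlinarith
    exact_mod_cast h4
  unfold AU
  refine Nat.div_le_of_le_mul ?_
  calc lnS n * pw (qU n) ≤ n * qU n := Nat.mul_le_mul h2 (pw_le (by omega))
    _ ≤ uu n (qU n) (tU n) * qU n := Nat.mul_le_mul_right _ hb.1

theorem lam_upper {n : ℕ} (hn : 0 < n) (hq : 0 < qU n) :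
    lam n * (1 - tU n / n) ≤ Real.log 2 := by
  have hnR : (0 : ℝ) < n := by exact_mod_cast hn
  have hb := uu_bounds hn hq (tU n)
  set u := uu n (qU n) (tU n) with hu
  set q := qU n with hqdef
  set t := tU n with htdef
  have hl : (0 : ℝ) < pw q := by exact_mod_cast pw_pos q
  have hk : (0 : ℝ) < 2 ^ kap n q t := by positivity
  -- A * u ≤ S * l
  have h1 : (AU n : ℝ) * u ≤ lnS n * pw q := by
    have : AU n * u ≤ lnS n * pw q := Nat.div_mul_le_self _ _
    exact_mod_cast this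
  have h2 := uu_lower hn hq t
  rw [← hu] at h2
  have h3 : (1 : ℝ) - t / n ≤ (1 - 1 / n) ^ t := by
    have h4 : (1 : ℝ) + t * (-(1 / n)) ≤ (1 + -(1 / (n : ℝ))) ^ t := by
      refine one_add_mul_le_pow ?_ _
      have : 1 / (n : ℝ) ≤ 1 := by
        rw [div_le_one hnR]
        exact_mod_cast hn
      linarith
    have e : (1 + -(1 / (n : ℝ))) = 1 - 1 / n := by ring
    rw [e] at h4
    have e2 : (1 : ℝ) + t * (-(1 / n)) = 1 - t / n := by ring
    rwa [e2] at h4
  have h5 := (lnS_bounds hn).1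
  unfold lam
  rw [two_pow_kU, ← hqdef, ← htdef, div_mul_eq_mul_div, div_le_iff₀ (by positivity)]
  have hA : (0 : ℝ) ≤ AU n := Nat.cast_nonneg _
  have hq0 : (0 : ℝ) ≤ (q : ℝ) ^ t := by positivity
  have h6 : (n : ℝ) * (AU n * q ^ t * (1 - t / n)) ≤
      n * (Real.log 2 * (2 ^ kap n q t * pw q)) := by
    calc (n : ℝ) * (AU n * q ^ t * (1 - t / n)) = AU n * (n * q ^ t * (1 - t / n)) := by ring
      _ ≤ AU n * (n * q ^ t * (1 - 1 / n) ^ t) := by gcongr
      _ ≤ AU n * (u * 2 ^ kap n q t) := by gcongr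
      _ = (AU n * u) * 2 ^ kap n q t := by ring
      _ ≤ (lnS n * pw q) * 2 ^ kap n q t := by gcongr
      _ ≤ (n * Real.log 2 * pw q) * 2 ^ kap n q t := by gcongr
      _ = _ := by ring
  exact le_of_mul_le_mul_left h6 hnR

theorem lam_lower {n : ℕ} (hn : 0 < n) (hq : 0 < qU n) :
    Real.log 2 - (Nat.log 2 n + 2) / n - 4 / qU n ≤ lam n := by
  have hnR : (0 : ℝ) < n := by exact_mod_cast hn
  have hb := uu_bounds hn hq (tU n)
  set u := uu n (qU n) (tU n) with hu
  set q := qU n with hqdef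
  set t := tU n with htdef
  have hqR : (0 : ℝ) < q := by exact_mod_cast hq
  have hl : (0 : ℝ) < pw q := by exact_mod_cast pw_pos q
  have hk : (0 : ℝ) < 2 ^ kap n q t := by positivity
  have hu0 : 0 < u := hn.trans_le hb.1
  have h1 : (lnS n : ℝ) * pw q ≤ (AU n + 1) * u := by
    have h2 : lnS n * pw q < u * (AU n + 1) := Nat.lt_mul_div_succ _ hu0
    have h3 : lnS n * pw q ≤ (AU n + 1) * u := by
      rw [mul_comm (_ + 1)]
      exact h2.le
    exact_mod_cast h3
  have h2 : (u : ℝ) * 2 ^ kap n q t ≤ n * q ^ t := by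
    exact_mod_cast uu_upper (n := n) (q := q) t
  have h3 := (lnS_bounds hn).2
  have h4 : (u : ℝ) ≤ 2 * n := by exact_mod_cast hb.2.le
  have h5 : (q : ℝ) ≤ 2 * pw q := by exact_mod_cast (lt_pw q).le
  unfold lam
  rw [two_pow_kU, ← hqdef, ← htdef, le_div_iff₀ (by positivity)]
  have hA : (0 : ℝ) ≤ AU n := Nat.cast_nonneg _
  have h6 : 4 / (q : ℝ) * pw q ≥ 2 := by
    rw [div_mul_eq_mul_div, ge_iff_le, le_div_iff₀ hqR]
    linarith
  have h7 : (n : ℝ) * ((Real.log 2 - (Nat.log 2 n + 2) / n - 4 / q) * pw q) ≤ AU n * u := by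
    have e : (n : ℝ) * ((Real.log 2 - (Nat.log 2 n + 2) / n - 4 / q) * pw q) =
        (n * Real.log 2 - (Nat.log 2 n + 2)) * pw q - n * (4 / q * pw q) := by
      field_simp
    rw [e]
    have h8 : (n * Real.log 2 - (Nat.log 2 n + 2)) * pw q ≤ lnS n * pw q := by gcongr
    have h9 : (n : ℝ) * 2 ≤ n * (4 / q * pw q) := by gcongr
    linarith
  have h8 : (n : ℝ) * ((Real.log 2 - (Nat.log 2 n + 2) / n - 4 / q) * (2 ^ kap n q t * pw q)) ≤
      n * (AU n * q ^ t) := by
    calc (n : ℝ) * ((Real.log 2 - (Nat.log 2 n + 2) / n - 4 / q) * (2 ^ kap n q t * pw q))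
        = (n * ((Real.log 2 - (Nat.log 2 n + 2) / n - 4 / q) * pw q)) * 2 ^ kap n q t := by ring
      _ ≤ (AU n * u) * 2 ^ kap n q t := by gcongr
      _ = AU n * (u * 2 ^ kap n q t) := by ring
      _ ≤ AU n * (n * q ^ t) := by gcongr
      _ = _ := by ring
  exact le_of_mul_le_mul_left h8 hnR

/-! ### The number of rows -/

theorem kap_ge {n : ℕ} {q : ℕ} (hn : 0 < n) (hq : 0 < q) (t : ℕ) :
    t * Nat.log 2 q ≤ kap n q t := by
  induction t with
  | zero => simp
  | succ t ih =>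
    rw [kap_succ, Nat.add_mul, one_mul]
    refine Nat.add_le_add ih (Nat.log_mono_right ?_)
    rw [Nat.le_div_iff_mul_le hn, mul_comm]
    exact Nat.mul_le_mul_right _ (uu_bounds hn hq t).1

theorem kap_le' {n q : ℕ} (hn : 0 < n) (hq : 0 < q) (hqn : 2 * q ≤ n) (t : ℕ) :
    kap n q t ≤ t * Nat.log 2 n := by
  induction t with
  | zero => simp [kap]
  | succ t ih =>
    rw [kap_succ, Nat.add_mul, one_mul]
    refine Nat.add_le_add ih (Nat.log_mono_right ?_)
    refine Nat.div_le_of_le_mul ?_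
    calc uu n q t * q ≤ 2 * n * q := Nat.mul_le_mul_right _ (uu_bounds hn hq t).2.le
      _ = n * (2 * q) := by ring
      _ ≤ n * n := Nat.mul_le_mul_left _ hqn

end Pool.Agent.Lib.MP_70d3b5_lc.Real
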