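import Pool.Agent.Lib.MP_70d3b5_lc.Verifier

/-!
# A balanced monotone language in NP
-/

open Finset Pool.Agent.Lib.PolyTM

namespace Pool.Agent.Lib.MP_70d3b5_lc.Real

/-! ### Parameters -/

/-- The degree of the polynomials. -/
def tU (n : ℕ) : ℕ := 2 * ((Nat.log 2 n + 1) * (Nat.log 2 n + 1))

/-- A bound for the number of rows. -/
def KU (n : ℕ) : ℕ := (tU n + 1) * (Nat.log 2 n + 1)

/-- The number of columns. -/
def qU (n : ℕ) : ℕ := Nat.findGreatest Nat.Prime (n / KU n)

/-- The greatest power of two that is at most `m`. -/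
def pw (m : ℕ) : ℕ := 2 ^ Nat.log 2 m

/-- The mantissa of `q ^ t`. -/
def uu (n q t : ℕ) : ℕ :=
  Nat.rec (motive := fun _ => ℕ) n (fun _ u => u * q / pw (u * q / n)) t

/-- The exponent of `q ^ t`. -/
def kap (n q t : ℕ) : ℕ :=
  Nat.rec (motive := fun _ => ℕ) 0 (fun t κ => κ + Nat.log 2 (uu n q t * q / n)) t

/-- `n / 2 ^ t`. -/
def hlf (n t : ℕ) : ℕ := Nat.rec (motive := fun _ => ℕ) n (fun _ u => u / 2) t

/-- An approximation of `n * log 2`. -/
def lnS (n : ℕ) : ℕ :=
  Nat.rec (motive := fun _ => ℕ) 0 (fun t s => s + hlf n (t + 1) / (t + 1)) (Nat.log 2 n + 1)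

/-- The number of possible values of the leading coefficient. -/
def AU (n : ℕ) : ℕ := lnS n * pw (qU n) / uu n (qU n) (tU n)

/-- The number of rows. -/
def kU (n : ℕ) : ℕ := kap n (qU n) (tU n) + Nat.log 2 (qU n)

/-- The condition that defines the language. -/
def InLU (n : ℕ) (x : List Bool) : Prop := (qU n).Prime ∧
  ∃ c : Fin (tU n + 1) → ZMod (qU n), (c (Fin.last (tU n))).val < AU n ∧
    ∀ i < kU n, x.getD (i * qU n + (peval c (i : ZMod (qU n))).val) false = true

/-- The language: there is a polynomial of degree at most `tU n` over `ZMod q` with small leading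
coefficient whose graph is contained in the set described by `x`. -/
def LangU : Set (List Bool) := {x | InLU x.length x}

theorem langU_monotonic : Monotonic LangU := by
  rintro x y hxy h ⟨h3, c, h4, h5⟩
  change InLU y.length y
  rw [← hxy]
  exact ⟨h3, c, h4, fun i hi => h _ (h5 i hi)⟩

/-! ### The recursions -/

theorem uu_succ (n q t : ℕ) : uu n q (t + 1) = uu n q t * q / pw (uu n q t * q / n) := rfl

theorem kap_succ (n q t : ℕ) : kap n q (t + 1) = kap n q t + Nat.log 2 (uu n q t * q / n) := rfl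

theorem hlf_eq (n t : ℕ) : hlf n t = n / 2 ^ t := by
  induction t with
  | zero => simp [hlf]
  | succ t ih =>
    have : hlf n (t + 1) = hlf n t / 2 := rfl
    rw [this, ih, Nat.div_div_eq_div_mul, pow_succ]

theorem pw_pos (m : ℕ) : 0 < pw m := by unfold pw; positivity

theorem pw_le {m : ℕ} (h : m ≠ 0) : pw m ≤ m := Nat.pow_log_le_self 2 h

theorem lt_pw (m : ℕ) : m < 2 * pw m := by
  unfold pw
  rw [mul_comm, ← pow_succ]
  exact Nat.lt_pow_succ_log_self (by norm_num) m

theorem uu_bounds {n q : ℕ} (hn : 0 < n) (hq : 0 < q) (t : ℕ) : n ≤ uu n q t ∧ uu n q t < 2 * n := by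
  induction t with
  | zero => exact ⟨le_rfl, by change n < 2 * n; omega⟩
  | succ t ih =>
    rw [uu_succ]
    set m := uu n q t * q / n with hm
    have h1 : 1 ≤ m := by
      rw [hm, Nat.one_le_div_iff hn]
      exact ih.1.trans (Nat.le_mul_of_pos_right _ hq)
    have h2 : pw m ≤ m := pw_le (by omega)
    have h3 : m < 2 * pw m := lt_pw m
    constructor
    · rw [Nat.le_div_iff_mul_le (pw_pos _)]
      calc n * pw m ≤ n * m := Nat.mul_le_mul_left _ h2
        _ ≤ _ := Nat.mul_div_le _ _
    · rw [Nat.div_lt_iff_lt_mul (pw_pos _)]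
      have h4 : uu n q t * q < n * (m + 1) := Nat.lt_mul_div_succ _ hn
      calc uu n q t * q < n * (m + 1) := h4
        _ ≤ n * (2 * pw m) := Nat.mul_le_mul_left _ h3
        _ = 2 * n * pw m := by ring

theorem uu_le (n q t : ℕ) : uu n q t ≤ 2 * n := by
  rcases Nat.eq_zero_or_pos n with rfl | hn
  · have : uu 0 q t = 0 := by
      induction t with
      | zero => rfl
      | succ t ih => rw [uu_succ, ih]; simp
    rw [this]
  · rcases Nat.eq_zero_or_pos q with rfl | hq
    · cases t with
      | zero => change n ≤ 2 * n; omega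
      | succ t => rw [uu_succ]; simp
    · exact (uu_bounds hn hq t).2.le

theorem kap_le (n q t : ℕ) : kap n q t ≤ t * (2 * q) := by
  induction t with
  | zero => simp [kap]
  | succ t ih =>
    rw [kap_succ, Nat.add_mul, one_mul]
    refine Nat.add_le_add ih ((Nat.log_le_self _ _).trans ?_)
    rcases Nat.eq_zero_or_pos n with rfl | hn
    · rw [Nat.div_zero]
      exact Nat.zero_le _
    · refine Nat.div_le_of_le_mul ?_
      calc uu n q t * q ≤ 2 * n * q := Nat.mul_le_mul_right _ (uu_le n q t)
        _ = n * (2 * q) := by ring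

/-! ### Feasibility -/

section feas

variable {A : Type} {r : ℕ}

theorem feas_tU {n : List A → (Fin r → ℕ) → ℕ} (hn : Feas n) : Feas (fun x v => tU (n x v)) := by
  unfold tU
  exact (Feas.const 2).mul (((Feas.log hn).add (Feas.const 1)).mul
    ((Feas.log hn).add (Feas.const 1)))

theorem feas_KU {n : List A → (Fin r → ℕ) → ℕ} (hn : Feas n) : Feas (fun x v => KU (n x v)) := by
  unfold KU
  exact ((feas_tU hn).add (Feas.const 1)).mul ((Feas.log hn).add (Feas.const 1))

theorem feas_qU {n : List A → (Fin r → ℕ) → ℕ} (hn : Feas n) : Feas (fun x v => qU (n x v)) := by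
  unfold qU
  exact Feas.findGreatest (p := fun _ i _ => i.Prime)
    (hn.div (feas_KU hn)) (FeasP.prime (Feas.proj 0))

theorem feas_pw {m : List A → (Fin r → ℕ) → ℕ} (hm : Feas m) : Feas (fun x v => pw (m x v)) := by
  classical
  refine Feas.comp1 (F := fun m => pw m) ?_ hm
  refine (Feas.rec' (r := 1) (a := fun _ _ => 1) (n := fun _ v => Nat.log 2 (v 0))
    (B := fun _ v => v 0 + 1)
    (G := fun _ _ acc v => if 2 * acc ≤ v 0 then 2 * acc else v 0 + 1) (Feas.const 1)
    (Feas.log (Feas.proj 0)) ?_ (Feas.succ (r := 1) 0) (fun x v k _ => ?_)).congr fun x v => ?_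
  · exact Feas.ite (FeasP.le ((Feas.const 2).mul (Feas.proj 1)) (Feas.proj 2))
      ((Feas.const 2).mul (Feas.proj 1)) (Feas.succ (r := 3) 2)
  · rw [rec_capped]
    split_ifs <;> omega
  · rw [rec_capped]
    unfold pw
    rcases Nat.eq_zero_or_pos (v 0) with h0 | h0
    · rw [h0]
      simp
    · rw [if_pos (Nat.pow_log_le_self 2 (by omega))]

theorem feas_uu {n q t : List A → (Fin r → ℕ) → ℕ} (hn : Feas n) (hq : Feas q) (ht : Feas t) :
    Feas (fun x v => uu (n x v) (q x v) (t x v)) := by
  refine Feas.comp3 (F := fun _ n q t => uu n q t) ?_ hn hq ht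
  refine (Feas.rec' (r := 3) (a := fun _ v => v 0) (n := fun _ v => v 2)
    (B := fun _ v => 2 * v 0) (G := fun _ _ u v => u * v 1 / pw (u * v 1 / v 0))
    (Feas.proj 0) (Feas.proj 2) ?_ ((Feas.const 2).mul (Feas.proj 0))
    (fun x v k _ => uu_le (v 0) (v 1) k)).congr fun x v => rfl
  exact ((Feas.proj 1).mul (Feas.proj 3)).div
    (feas_pw (((Feas.proj 1).mul (Feas.proj 3)).div (Feas.proj 2)))

theorem feas_kap {n q t : List A → (Fin r → ℕ) → ℕ} (hn : Feas n) (hq : Feas q) (ht : Feas t) :
    Feas (fun x v => kap (n x v) (q x v) (t x v)) := by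
  refine Feas.comp3 (F := fun _ n q t => kap n q t) ?_ hn hq ht
  refine (Feas.rec' (r := 3) (a := fun _ _ => 0) (n := fun _ v => v 2)
    (B := fun _ v => v 2 * (2 * v 1))
    (G := fun _ t κ v => κ + Nat.log 2 (uu (v 0) (v 1) t * v 1 / v 0))
    (Feas.const 0) (Feas.proj 2) ?_ ((Feas.proj 2).mul ((Feas.const 2).mul (Feas.proj 1)))
    (fun x v k hk => (kap_le (v 0) (v 1) k).trans (Nat.mul_le_mul_right _ hk))).congr
      fun x v => rfl
  exact (Feas.proj 1).add (Feas.log (((feas_uu (Feas.proj 2) (Feas.proj 3)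
    (Feas.proj 0)).mul (Feas.proj 3)).div (Feas.proj 2)))

theorem feas_hlf {n t : List A → (Fin r → ℕ) → ℕ} (hn : Feas n) (ht : Feas t) :
    Feas (fun x v => hlf (n x v) (t x v)) := by
  refine Feas.comp2 (F := fun n t => hlf n t) ?_ hn ht
  refine (Feas.rec' (r := 2) (a := fun _ v => v 0) (n := fun _ v => v 1)
    (B := fun _ v => v 0) (G := fun _ _ u _ => u / 2)
    (Feas.proj 0) (Feas.proj 1) ?_ (Feas.proj 0)
    (fun x v k _ => ?_)).congr fun x v => rfl
  · exact (Feas.proj 1).div (Feas.const 2)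
  · have := hlf_eq (v 0) k
    unfold hlf at this
    rw [this]
    exact Nat.div_le_self _ _

theorem feas_lnS {n : List A → (Fin r → ℕ) → ℕ} (hn : Feas n) :
    Feas (fun x v => lnS (n x v)) := by
  refine Feas.comp1 (F := fun n => lnS n) ?_ hn
  refine (Feas.rec' (r := 1) (a := fun _ _ => 0) (n := fun _ v => Nat.log 2 (v 0) + 1)
    (B := fun _ v => (Nat.log 2 (v 0) + 1) * v 0)
    (G := fun _ t s v => s + hlf (v 0) (t + 1) / (t + 1))
    (Feas.const 0) ((Feas.log (Feas.proj 0)).add (Feas.const 1)) ?_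
    (((Feas.log (Feas.proj 0)).add (Feas.const 1)).mul (Feas.proj 0))
    (fun x v k hk => ?_)).congr fun x v => rfl
  · exact (Feas.proj 1).add ((feas_hlf (Feas.proj 2) ((Feas.proj 0).add (Feas.const 1))).div
      ((Feas.proj 0).add (Feas.const 1)))
  · refine le_trans ?_ (Nat.mul_le_mul_right (v 0) hk)
    clear hk
    induction k with
    | zero => simp
    | succ k ih =>
      rw [Nat.add_mul, one_mul]
      refine Nat.add_le_add ih ((Nat.div_le_self _ _).trans ?_)
      rw [hlf_eq]
      exact Nat.div_le_self _ _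

theorem feas_AU {n : List A → (Fin r → ℕ) → ℕ} (hn : Feas n) : Feas (fun x v => AU (n x v)) := by
  unfold AU
  exact ((feas_lnS hn).mul (feas_pw (feas_qU hn))).div (feas_uu hn (feas_qU hn) (feas_tU hn))

theorem feas_kU {n : List A → (Fin r → ℕ) → ℕ} (hn : Feas n) : Feas (fun x v => kU (n x v)) := by
  unfold kU
  exact (feas_kap hn (feas_qU hn) (feas_tU hn)).add (Feas.log (feas_qU hn))

/-! ### The verifier -/

/-- Evaluation of a polynomial with `d` coefficients by the scheme of Horner. -/
def hord (s : List AA) (n q d i : ℕ) (t : ℕ) : ℕ :=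
  Nat.rec (motive := fun _ => ℕ) 0
    (fun t acc => if q = 0 then 0 else (acc * i + cf s n q (d - 1 - t)) % q) t

theorem hord_le (s : List AA) (n q d i t : ℕ) : hord s n q d i t ≤ q := by
  cases t with
  | zero => exact Nat.zero_le _
  | succ t =>
    change (if q = 0 then 0 else _) ≤ q
    split_ifs with h
    · exact Nat.zero_le _
    · exact (Nat.mod_lt _ (Nat.pos_of_ne_zero h)).le

theorem hord_lt (s : List AA) (n q d i t : ℕ) (hq : 0 < q) : hord s n q d i t < q := by
  cases t with
  | zero => exact hq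
  | succ t =>
    change (if q = 0 then 0 else _) < q
    rw [if_neg hq.ne']
    exact Nat.mod_lt _ hq

theorem hord_cast (s : List AA) (n q d i t : ℕ) (hq : 0 < q) (ht : t ≤ d) :
    ((hord s n q d i t : ℕ) : ZMod q) =
      ∑ j ∈ range t, ((cf s n q (d - t + j) : ℕ) : ZMod q) * (i : ZMod q) ^ j := by
  induction t with
  | zero => simp [hord]
  | succ t ih =>
    have e : hord s n q d i (t + 1) =
        (hord s n q d i t * i + cf s n q (d - 1 - t)) % q := by
      change (if q = 0 then 0 else _) = _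
      rw [if_neg hq.ne']
      rfl
    rw [e, ZMod.natCast_mod, Nat.cast_add, Nat.cast_mul, ih (by omega), sum_range_succ', sum_mul]
    congr 1
    · refine sum_congr rfl fun j _ => ?_
      have e2 : d - (t + 1) + (j + 1) = d - t + j := by omega
      rw [e2, pow_succ, mul_assoc]
    · have e3 : d - (t + 1) + 0 = d - 1 - t := by omega
      rw [e3, pow_zero, mul_one]

theorem hord_eq (s : List AA) (n q d i : ℕ) (hq : 0 < q) :
    hord s n q d i d =
      (peval (fun j : Fin d => ((cf s n q j : ℕ) : ZMod q)) (i : ZMod q)).val := by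
  have : NeZero q := ⟨hq.ne'⟩
  have h1 := hord_cast s n q d i d hq le_rfl
  have h2 : peval (fun j : Fin d => ((cf s n q j : ℕ) : ZMod q)) (i : ZMod q) =
      ((hord s n q d i d : ℕ) : ZMod q) := by
    rw [h1, peval, Finset.sum_range]
    refine sum_congr rfl fun j _ => ?_
    rw [Nat.sub_self, zero_add]
  rw [h2, ZMod.val_natCast, Nat.mod_eq_of_lt (hord_lt s n q d i _ hq)]

theorem feas_hord : Feas (fun (s : List AA) (v : Fin 4 → ℕ) =>
    hord s (v 0) (v 1) (v 2) (v 3) (v 2)) := by
  refine Feas.rec' (a := fun _ _ => 0) (n := fun _ v => v 2) (B := fun _ v => v 1)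
    (G := fun s t acc v => if v 1 = 0 then 0 else
      (acc * v 3 + cf s (v 0) (v 1) (v 2 - 1 - t)) % v 1)
    (Feas.const 0) (Feas.proj 2) ?_ (Feas.proj 1)
    (fun s v t _ => hord_le s (v 0) (v 1) (v 2) (v 3) t)
  refine Feas.ite (FeasP.eq0 (Feas.proj 3)) (Feas.const 0) (Feas.mod (Feas.add
    ((Feas.proj 1).mul (Feas.proj 5)) (Feas.comp3 feas_cf (Feas.proj 2) (Feas.proj 3)
      (((Feas.proj 4).sub (Feas.const 1)).sub (Feas.proj 0)))) (Feas.proj 3))

/-- The test of the verifier. -/
def ChkU (s : List AA) (n : ℕ) : Prop :=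
  (qU n).Prime ∧ cf s n (qU n) (tU n) < AU n ∧ ∀ i < kU n,
    s[i * qU n + hord s n (qU n) (tU n + 1) i (tU n + 1)]? = some (Sum.inl true)

theorem feas_chkU : FeasP (fun (s : List AA) (v : Fin 1 → ℕ) => ChkU s (v 0)) := by
  unfold ChkU
  refine (FeasP.prime (feas_qU (Feas.proj 0))).and ((FeasP.lt
    (Feas.comp3 feas_cf (Feas.proj 0) (feas_qU (Feas.proj 0)) (feas_tU (Feas.proj 0)))
    (feas_AU (Feas.proj 0))).and (FeasP.ball (p := fun s i v =>
      s[i * qU (v 0) + hord s (v 0) (qU (v 0)) (tU (v 0) + 1) i (tU (v 0) + 1)]? =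
        some (Sum.inl true)) (feas_kU (Feas.proj 0)) ?_))
  refine FeasP.sym ?_ _
  have hq : Feas (fun (_ : List AA) (u : Fin 2 → ℕ) => qU (u 1)) := feas_qU (Feas.proj 1)
  exact ((Feas.proj 0).mul hq).add
    (Feas.comp4 (F := fun s n q d i => hord s n q d i d) feas_hord (Feas.proj 1) hq
      ((feas_tU (Feas.proj 1)).add (Feas.const 1)) (Feas.proj 0))

theorem feas_accU : FeasP (fun (s : List AA) (v : Fin 1 → ℕ) => ChkU s (lenx s (v 0))) := by
  classical
  exact FeasP.of (Feas.comp (FeasP.feas feas_chkU) (g := fun _ s v => lenx s (v 0))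
    fun _ => feas_lenx (Feas.proj 0))

end feas

/-! ### Correctness -/

theorem chkU_sound {x y : List Bool} (h : ChkU (encPair x y) x.length) : InLU x.length x := by
  obtain ⟨h2, h1, h3⟩ := h
  have : NeZero (qU x.length) := ⟨h2.pos.ne'⟩
  refine ⟨h2, fun j => ((cf (encPair x y) x.length (qU x.length) j : ℕ) : ZMod (qU x.length)),
    ?_, fun i hi => ?_⟩
  · rw [ZMod.val_natCast, Fin.val_last]
    exact (Nat.mod_le _ _).trans_lt h1
  · have h4 := h3 i hi
    rw [hord_eq _ _ _ _ _ h2.pos, getElem_getD] at h4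
    exact h4

/-- The certificate given by a polynomial. -/
def certd (d q : ℕ) (c : Fin d → ZMod q) : List Bool :=
  (List.range (d * q)).map fun t =>
    decide (t % q < if h : t / q < d then (c ⟨t / q, h⟩).val else 0)

theorem length_certd (d q : ℕ) (c : Fin d → ZMod q) : (certd d q c).length = d * q := by
  simp [certd]

theorem cf_certd (x : List Bool) (d q : ℕ) (hq : 0 < q) (c : Fin d → ZMod q)
    (j : Fin d) : cf (encPair x (certd d q c)) x.length q j = (c j).val := by
  have : NeZero q := ⟨hq.ne'⟩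
  unfold cf
  have e : ((range q).filter fun p =>
      (encPair x (certd d q c))[x.length + ((j : ℕ) * q + p)]? = some (Sum.inr true)) =
      range (c j).val := by
    ext p
    simp only [mem_filter, mem_range, getElem_inr]
    have hc := ZMod.val_lt (c j)
    have key : p < q → ((certd d q c)[(j : ℕ) * q + p]? = some true ↔ p < (c j).val) := by
      intro hp
      have hlt : (j : ℕ) * q + p < d * q := by
        have : ((j : ℕ) + 1) * q ≤ d * q := Nat.mul_le_mul_right q j.2
        rw [Nat.add_mul, one_mul] at this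
        omega
      have e1 : ((j : ℕ) * q + p) % q = p := by
        rw [Nat.mul_add_mod_self_right, Nat.mod_eq_of_lt hp]
      have e2 : ((j : ℕ) * q + p) / q = j := by
        rw [mul_comm, Nat.mul_add_div hq, Nat.div_eq_of_lt hp, add_zero]
      unfold certd
      rw [List.getElem?_map, List.getElem?_range hlt]
      simp only [Option.map_some, Option.some.injEq, decide_eq_true_eq, e1, e2, j.2, dif_pos]
    constructor
    · rintro ⟨h1, h2⟩
      exact (key h1).1 h2
    · intro h1
      exact ⟨h1.trans hc, (key (h1.trans hc)).2 h1⟩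
  rw [e, card_range]

theorem KU_mul_qU (n : ℕ) : KU n * qU n ≤ n := by
  have h1 : qU n ≤ n / KU n := Nat.findGreatest_le _
  exact (Nat.mul_le_mul_left _ h1).trans (Nat.mul_div_le _ _)

theorem chkU_complete {x : List Bool} (h : InLU x.length x) :
    ∃ y : List Bool, y.length ≤ x.length ∧ ChkU (encPair x y) x.length := by
  obtain ⟨h2, c, h1, h3⟩ := h
  have hq := h2.pos
  have : NeZero (qU x.length) := ⟨hq.ne'⟩
  refine ⟨certd (tU x.length + 1) (qU x.length) c, ?_, h2, ?_, fun i hi => ?_⟩
  · rw [length_certd]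
    have h4 := KU_mul_qU x.length
    have h5 : tU x.length + 1 ≤ KU x.length := by
      unfold KU
      exact Nat.le_mul_of_pos_right _ (Nat.succ_pos _)
    exact (Nat.mul_le_mul_right (qU x.length) h5).trans h4
  · have h5 := cf_certd x (tU x.length + 1) (qU x.length) hq c (Fin.last _)
    rw [Fin.val_last] at h5
    rw [h5]
    exact h1
  · rw [hord_eq _ _ _ _ _ hq, getElem_getD]
    have e : (fun j : Fin (tU x.length + 1) => ((cf (encPair x (certd (tU x.length + 1)
        (qU x.length) c)) x.length (qU x.length) j : ℕ) : ZMod (qU x.length))) = c := by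
      funext j
      rw [cf_certd x _ _ hq c j, ZMod.natCast_zmod_val]
    rw [e]
    exact h3 i hi

/-! ### NP and NEXP -/

theorem inNP_of {L : Set (List Bool)} {P : List AA → ℕ → Prop}
    (hP : FeasP (fun (s : List AA) (v : Fin 1 → ℕ) => P s (v 0)))
    (h1 : ∀ x y : List Bool, P (encPair x y) (encPair x y).length → x ∈ L)
    (h2 : ∀ x ∈ L, ∃ y : List Bool, y.length ≤ x.length ∧
      P (encPair x y) (encPair x y).length) : InNP L ∧ InNEXP L := by
  classical
  obtain ⟨M, eIn, eOut, p, hp⟩ := Feas.machine (FeasP.feas hP)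
  let V : List Bool → List Bool → Bool := fun x y => decide (P (encPair x y) (encPair x y).length)
  have hM : ∀ x y : List Bool, Nonempty (Turing.TM2OutputsInTime M ((encPair x y).map eIn.symm)
        (some [eOut.symm (V x y)]) (p.eval (x.length + y.length))) := by
    intro x y
    have h := hp (encPair x y)
    rw [length_encPair] at h
    convert h using 5
    simp only [V]
    rw [length_encPair]
    by_cases hA : P (encPair x y) (x.length + y.length)
    · simp [hA]
    · simp [hA]
  have hV : ∀ x y : List Bool, V x y = true → x ∈ L := fun x y h => h1 x y (by simpa [V] using h)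
  constructor
  · refine ⟨Polynomial.X, p.comp (Polynomial.C 2 * Polynomial.X), M, eIn, eOut, V,
      fun x y hy => ?_, fun x => ⟨fun h => ?_, fun ⟨y, _, hy⟩ => hV x y hy⟩⟩
    · refine outputs_mono (hM x y) ?_
      simp only [Polynomial.eval_X, Polynomial.eval_comp, Polynomial.eval_mul,
        Polynomial.eval_C] at hy ⊢
      exact ev_mono p (by omega)
    · obtain ⟨y, hy, h'⟩ := h2 x h
      exact ⟨y, by simpa using hy, by simpa [V] using h'⟩
  · refine ⟨Polynomial.X, Polynomial.C (p.eval 1) + Polynomial.C p.natDegree *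
      (Polynomial.X + Polynomial.C 1), M, eIn, eOut, V,
      fun x y hy => ?_, fun x => ⟨fun h => ?_, fun ⟨y, _, hy⟩ => hV x y hy⟩⟩
    · refine outputs_mono (hM x y) ?_
      simp only [Polynomial.eval_X, Polynomial.eval_mul, Polynomial.eval_add,
        Polynomial.eval_C] at hy ⊢
      refine (ev_mono p ?_).trans (eval_two_pow p (x.length + 1))
      have : x.length < 2 ^ x.length := Nat.lt_two_pow_self
      rw [pow_succ]
      omega
    · obtain ⟨y, hy, h'⟩ := h2 x h
      refine ⟨y, ?_, by simpa [V] using h'⟩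
      simp only [Polynomial.eval_X]
      exact hy.trans Nat.lt_two_pow_self.le

theorem langU_inNP : InNP LangU ∧ InNEXP LangU := by
  refine inNP_of (P := fun s l => ChkU s (lenx s l)) feas_accU (fun x y h => ?_) fun x h => ?_
  · rw [lenx_eq] at h
    exact chkU_sound h
  · obtain ⟨y, hy, h'⟩ := chkU_complete h
    refine ⟨y, hy, ?_⟩
    rw [lenx_eq]
    exact h'

end Pool.Agent.Lib.MP_70d3b5_lc.Real
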