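import Pool.Agent.Lib.MP_70d3b5_lc.Real.Family
import Pool.Agent.Lib.MP_70d3b5_lc.Real.Flip
import Pool.Agent.Lib.MP_70d3b5_lc.Params

/-!
# The average-case bound for the uniform distribution
-/

open Finset

namespace Pool.Agent.Lib.MP_70d3b5_lc.Real

/-! ### Exponentials -/

theorem two_pow_le_fact (R : ℕ) : 2 ^ R ≤ (R + 1).factorial := by
  induction R with
  | zero => simp
  | succ R ih =>
    rw [pow_succ, Nat.factorial_succ, mul_comm]
    exact Nat.mul_le_mul (by omega) ih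

theorem exp_lower {l ε : ℝ} (hl0 : 0 ≤ l) (hl1 : l ≤ 1) (h : Real.log 2 - ε ≤ l) (R : ℕ) :
    2 - (2 * ε + 2 * (1 / 2) ^ R) ≤ ∑ r ∈ range (R + 1), l ^ r / (r.factorial : ℝ) := by
  have h1 := Real.exp_bound (x := l) (by rw [abs_of_nonneg hl0]; exact hl1) (Nat.succ_pos R)
  have h2 := (abs_le.1 h1).2
  have h3 : |l| ^ R.succ * ((R.succ.succ : ℝ) / ((R.succ.factorial : ℝ) * (R.succ : ℝ))) ≤
      2 * (1 / 2) ^ R := by
    have e1 : |l| ^ R.succ ≤ 1 := by
      rw [abs_of_nonneg hl0]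
      exact pow_le_one₀ hl0 hl1
    have e2 : ((R.succ.succ : ℕ) : ℝ) / ((R.succ.factorial : ℝ) * ((R.succ : ℕ) : ℝ)) ≤
        2 * (1 / 2) ^ R := by
      have e3 : (2 : ℝ) ^ R ≤ (R.succ.factorial : ℝ) := by exact_mod_cast two_pow_le_fact R
      have e4 : (0 : ℝ) < 2 ^ R := by positivity
      have e5 : (0 : ℝ) < ((R.succ : ℕ) : ℝ) := by positivity
      rw [div_le_iff₀ (by positivity), one_div, inv_pow]
      have e6 : ((R.succ.succ : ℕ) : ℝ) ≤ 2 * ((R.succ : ℕ) : ℝ) := by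
        push_cast
        have : (0 : ℝ) ≤ R := Nat.cast_nonneg R
        linarith
      calc ((R.succ.succ : ℕ) : ℝ) ≤ 2 * ((R.succ : ℕ) : ℝ) := e6
        _ = 2 * (2 ^ R)⁻¹ * (2 ^ R * ((R.succ : ℕ) : ℝ)) := by field_simp
        _ ≤ 2 * (2 ^ R)⁻¹ * ((R.succ.factorial : ℝ) * ((R.succ : ℕ) : ℝ)) := by gcongr
    calc |l| ^ R.succ * ((R.succ.succ : ℝ) / ((R.succ.factorial : ℝ) * (R.succ : ℝ)))
        ≤ 1 * ((R.succ.succ : ℝ) / ((R.succ.factorial : ℝ) * (R.succ : ℝ))) := by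
          gcongr
      _ ≤ _ := by rw [one_mul]; exact e2
  have h4 : 2 * (1 - ε) ≤ Real.exp l := by
    have e1 : Real.exp (Real.log 2 - ε) ≤ Real.exp l := Real.exp_le_exp.2 h
    rw [sub_eq_add_neg, Real.exp_add, Real.exp_log (by norm_num)] at e1
    have e2 := Real.add_one_le_exp (-ε)
    linarith
  have h5 := h2.trans h3
  have e : R.succ = R + 1 := rfl
  rw [e] at h5
  linarith

theorem exp_upper {l ε : ℝ} (hl0 : 0 ≤ l) (h : l ≤ Real.log 2 + ε) (hε0 : 0 ≤ ε) (hε : ε ≤ 1)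
    (R : ℕ) : ∑ r ∈ range R, l ^ (r + 1) / ((r + 1).factorial : ℝ) ≤ 1 + 4 * ε := by
  have h1 := Real.sum_le_exp_of_nonneg hl0 (R + 1)
  rw [sum_range_succ'] at h1
  simp only [pow_zero, Nat.factorial_zero, Nat.cast_one, div_one] at h1
  have h2 : Real.exp l ≤ 2 * (1 + 2 * ε) := by
    have e1 : Real.exp l ≤ Real.exp (Real.log 2 + ε) := Real.exp_le_exp.2 h
    rw [Real.exp_add, Real.exp_log (by norm_num)] at e1
    have e2 := Real.abs_exp_sub_one_le (x := ε) (by rw [abs_of_nonneg hε0]; exact hε)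
    rw [abs_of_nonneg hε0] at e2
    have e3 := (abs_le.1 e2).2
    linarith
  linarith

/-! ### The bound with parameters -/

theorem core {L : Set (List Bool)} {n k q t A₀ : ℕ} [hqp : Fact q.Prime] (hkn : k * q ≤ n)
    (hmem : ∀ (z : Fin n → Bool) (X : Finset (Fin k × ZMod q)),
      List.ofFn (encF hkn z X) ∈ L ↔ ∃ u : UF q t A₀, graph k u.1 ⊆ X)
    (hkq : k ≤ q) (htq : t ≤ q) (hk1 : 1 ≤ k) (hAq : A₀ ≤ q) (hAU : 0 < A₀)
    {w N b h : ℕ} (hw : t = 2 * w) (hw1 : 1 ≤ w) (hN : 2 ≤ N) (hN' : 8 * (w * N) ≤ q)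
    (hb : 2 ≤ b) (hbh : 2 * (b * h) ≤ N) (hv : 16 * n * (b * h) ^ 2 ≤ 3 * N ^ 2)
    {gs : List Gate} {out A : ℕ} (hA : AltLe n gs A) (R : ℕ) {ε ε' E : ℝ}
    (hl1 : (A₀ * (q : ℝ) ^ t) / (2 ^ k - 1) ≤ 1)
    (hlo : Real.log 2 - ε ≤ (A₀ * (q : ℝ) ^ t) / 2 ^ k)
    (hup : (A₀ * (q : ℝ) ^ t) / (2 ^ k - 1) ≤ Real.log 2 + ε')
    (hε : 0 ≤ ε) (hε'0 : 0 ≤ ε') (hε' : ε' ≤ 1)
    (hE : (2 * A + 1 : ℝ) + (2 * h + 1 : ℕ) * (mons gs * ((1 / 4) ^ (w + 1) +
      numSets (Fin k × ZMod q) (2 * w) * (2 / 3) ^ b) + (2 / 3) ^ b) ≤ E) :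
    pr (fun x : Fin n → Bool => Correct L gs out (List.ofFn x)) ≤
      1 / 2 + ((R + 1) * ((1 / 2) ^ k + 4 * (k / q)) +
        (2 * ε + 2 * (1 / 2) ^ R)) / 2 + 4 * ε' + 2 * (4 * E / (2 * h + 1)) +
        2 * (1 / 2) ^ R + 4 * (k / q) := by
  classical
  have hq0 : 0 < q := hqp.out.pos
  have hqR : (0 : ℝ) < q := by exact_mod_cast hq0
  have hU : Fintype.card (UF q t A₀) = A₀ * q ^ t := card_UF hAq
  have hUR : (Fintype.card (UF q t A₀) : ℝ) = A₀ * (q : ℝ) ^ t := by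
    rw [hU]
    push_cast
    rfl
  have hUne : Nonempty (UF q t A₀) :=
    Fintype.card_pos_iff.1 (by rw [hU]; positivity)
  have hN0 : 0 < N := by omega
  have hNR : (0 : ℝ) < N := by exact_mod_cast hN0
  have hwR : (0 : ℝ) < w := by exact_mod_cast hw1
  have hm : (0 : ℝ) < 2 * h + 1 := by positivity
  have hE0 : 0 ≤ E := le_trans (by positivity) hE
  have hφ0 : 0 ≤ 4 * E / (2 * h + 1) := div_nonneg (by linarith) hm.le
  have hk2 : (0 : ℝ) < 2 ^ k - 1 := by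
    have : (2 : ℝ) ^ 1 ≤ 2 ^ k := pow_le_pow_right₀ (by norm_num) hk1
    linarith
  have hkq0 : (0 : ℝ) ≤ k / q := by positivity
  obtain ⟨φ, hφ1⟩ : ∃ φ : ℝ, φ = 4 * E / (2 * h + 1) := ⟨_, rfl⟩
  rw [← hφ1] at hφ0 ⊢
  rw [← pr_encF hkn (fun x => Correct L gs out (List.ofFn x))]
  refine pr_prod_le (P := fun z X => Correct L gs out (List.ofFn (encF hkn z X)))
    (by positivity) fun z => ?_
  set S : UF q t A₀ → Finset (Fin k × ZMod q) := fun u => graph k u.1 with hSdef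
  have hS : ∀ u, (S u).card = k := fun u => card_graph _ _
  have hsp : Spread S (q : ℝ) (2 * w) := by
    rw [← hw]
    exact spread_UF hkq htq hAq
  have hint : ∀ u v, u ≠ v → (S u ∩ S v).card ≤ 2 * w := by
    intro u v huv
    rw [← hw]
    exact inter_UF hkq u v huv
  set l : ℝ := (A₀ * (q : ℝ) ^ t) / 2 ^ k with hl
  have hlam : (Fintype.card (UF q t A₀) : ℝ) / 2 ^ k = l := by
    rw [hUR]
  have hlam1 : l ≤ 1 := by
    rw [hl]
    refine le_trans ?_ hl1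
    exact div_le_div_of_nonneg_left (by positivity) hk2 (by linarith)
  have hlam0 : 0 ≤ l := by
    rw [hl]
    positivity
  have hμ : ∀ u, ovl S u ≤ 4 * (k / q : ℝ) := by
    intro u
    refine (ovl_le hS hqR (by exact_mod_cast hkq) hsp hint u).trans ?_
    rw [hlam]
    have : 4 * l * (k / q : ℝ) ≤ 4 * 1 * (k / q : ℝ) := by gcongr
    linarith
  -- the changes of the output
  have hflip := flip_le (V := Fin k × ZMod q) (U := UF q t A₀)
    (fun X u => (encU hkn z).tr gs out X ≠ (encU hkn z).tr gs out (X ∪ S u)) (E := E)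
    (b := b) (N := N) (h := h) hN (fun X₀ => by
      have h1 := (encU hkn z).stages (out := out) hA (S := S) (q := (q : ℝ))
        (κ := 2 * w * N) (w := w) (N := N) (b := b) (m := 2 * h + 1) hN0 hw1 hb (by positivity)
        (by push_cast; exact le_rfl) (by
          have : ((8 * (w * N) : ℕ) : ℝ) ≤ q := by exact_mod_cast hN'
          push_cast at this
          linarith) hsp X₀
      refine h1.trans (le_trans ?_ hE)
      have h2 : (2 * w * N / q : ℝ) ^ (w + 1) ≤ (1 / 4) ^ (w + 1) := by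
        refine pow_le_pow_left₀ (by positivity) ?_ _
        rw [div_le_div_iff₀ hqR (by norm_num)]
        have : ((8 * (w * N) : ℕ) : ℝ) ≤ q := by exact_mod_cast hN'
        push_cast at this
        linarith
      gcongr) hbh (by
      rw [Fintype.card_prod, Fintype.card_fin, ZMod.card]
      have h1 : 16 * (k * q) * (b * h) ^ 2 ≤ 3 * N ^ 2 :=
        le_trans (Nat.mul_le_mul_right _ (Nat.mul_le_mul_left _ hkn)) hv
      exact_mod_cast h1)
  have hφ : pr (fun p : Finset (Fin k × ZMod q) × UF q t A₀ =>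
      ¬ outB gs out (inp ((encU hkn z).str p.1)) ∧
        outB gs out (inp ((encU hkn z).str (p.1 ∪ S p.2)))) ≤ φ := by
    rw [hφ1, le_div_iff₀ hm]
    refine le_trans (mul_le_mul_of_nonneg_right (pr_mono fun p hp => ?_) hm.le) hflip
    intro h1
    unfold Enc.tr at h1
    rw [trace_addOut_eq] at h1
    exact hp.1 (h1.2.2 hp.2)
  have key := poisson_bound hS hk1 (by rw [hUR]; exact hl1)
    (fun X => outB gs out (inp ((encU hkn z).str X))) R
    (η := (1 / 2) ^ k + 4 * (k / q)) (φ := φ)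
    (ρ := 2 * ε + 2 * (1 / 2) ^ R) (ρ' := 4 * ε') (δ := 4 * (k / q))
    (by positivity) (by positivity) (eta_le hS hμ) hφ
    ((delta_le hS hμ).trans (by
      rw [hlam]
      exact mul_le_of_le_one_left (by positivity) hlam1))
    (by rw [hlam]; exact exp_lower hlam0 hlam1 hlo R)
    (exp_upper (by rw [hUR]; positivity) (by rw [hUR]; exact hup) hε'0 hε' R)
    (by positivity)
  refine le_trans (le_of_eq (pr_congr fun X => ?_)) key
  unfold Correct
  rw [hmem z X]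
  rfl

end Pool.Agent.Lib.MP_70d3b5_lc.Real
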