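import Pool.Agent.Lib.MP_70d3b5_lc.Real.Uniform

/-!
# Choice of the parameters for the uniform distribution
-/

open Finset

namespace Pool.Agent.Lib.MP_70d3b5_lc.Real

/-- The error terms. -/
theorem eps_le {n w a b s : ℕ} {V : Type} [Fintype V] [DecidableEq V] (hV : Fintype.card V ≤ n)
    (hn : n < 2 ^ (a + 1)) (hb : b = 4 * (w * (a + 2)) + 4) (hs : s ≤ 2 ^ w) :
    (s : ℝ) * ((1 / 4) ^ (w + 1) + numSets V (2 * w) * (2 / 3) ^ b) + (2 / 3) ^ b ≤
      (1 / 2) ^ w := by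
  have hns : numSets V (2 * w) ≤ 2 ^ (2 * w * (a + 1)) := by
    refine (numSets_le _ _).trans ?_
    have e : 2 ^ (2 * w * (a + 1)) = (2 ^ (a + 1)) ^ (2 * w) := by
      rw [← pow_mul, mul_comm (a + 1)]
    rw [e]
    exact Nat.pow_le_pow_left (by omega) _
  have hnsR : (numSets V (2 * w) : ℝ) ≤ 2 ^ (2 * w * (a + 1)) := by
    exact_mod_cast hns
  have hδ : ((2 : ℝ) / 3) ^ b ≤ (1 / 2) ^ (2 * w * (a + 1)) * (1 / 4) ^ (w + 1) := by
    have e1 : b = 2 * (2 * w * (a + 1) + 2 * (w + 1)) := by rw [hb]; ring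
    rw [e1, pow_mul]
    have e2 : ((1 : ℝ) / 4) ^ (w + 1) = (1 / 2) ^ (2 * (w + 1)) := by
      rw [pow_mul]
      norm_num
    rw [e2, ← pow_add]
    exact pow_le_pow_left₀ (by norm_num) (by norm_num) _
  have hε' : (numSets V (2 * w) : ℝ) * (2 / 3) ^ b ≤ (1 / 4) ^ (w + 1) := by
    calc (numSets V (2 * w) : ℝ) * (2 / 3) ^ b
        ≤ 2 ^ (2 * w * (a + 1)) * ((1 / 2) ^ (2 * w * (a + 1)) * (1 / 4) ^ (w + 1)) := by
          gcongr
      _ = (1 / 4) ^ (w + 1) := by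
          rw [← mul_assoc, ← mul_pow]
          norm_num
  have hδ' : ((2 : ℝ) / 3) ^ b ≤ (1 / 4) ^ (w + 1) := by
    refine hδ.trans ?_
    have : ((1 : ℝ) / 2) ^ (2 * w * (a + 1)) ≤ 1 := pow_le_one₀ (by norm_num) (by norm_num)
    have h4 : (0 : ℝ) ≤ (1 / 4) ^ (w + 1) := by positivity
    nlinarith
  have hsR : (s : ℝ) ≤ 2 ^ w := by exact_mod_cast hs
  have h1 : (s : ℝ) * ((1 / 4) ^ (w + 1) +
      numSets V (2 * w) * (2 / 3) ^ b) ≤
      2 ^ w * ((1 / 4) ^ (w + 1) + (1 / 4) ^ (w + 1)) := by gcongr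
  have h2 : (2 : ℝ) ^ w * ((1 / 4) ^ (w + 1) + (1 / 4) ^ (w + 1)) = (1 / 2) ^ w / 2 := by
    have : ((1 : ℝ) / 4) ^ w = (1 / 2) ^ w * (1 / 2) ^ w := by
      rw [← mul_pow]; norm_num
    have h3 : (2 : ℝ) ^ w * (1 / 2) ^ w = 1 := by
      rw [← mul_pow]; norm_num
    rw [pow_succ, this]
    linear_combination (1 / 2 : ℝ) * (1 / 2) ^ w * h3
  have h5 : ((1 : ℝ) / 4) ^ (w + 1) ≤ (1 / 2) ^ w / 2 := by
    have : ((1 : ℝ) / 4) ^ w ≤ (1 / 2) ^ w := pow_le_pow_left₀ (by norm_num) (by norm_num) _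
    have h0 : (0 : ℝ) < (1 / 2) ^ w := by positivity
    rw [pow_succ]
    linarith
  linarith

/-- Bertrand: the prime `qU n` is large. -/
theorem qU_large {n : ℕ} (h : 2 * KU n ≤ n) : (qU n).Prime ∧ n < 2 * (KU n * qU n) := by
  have hk : 0 < KU n := by unfold KU; positivity
  obtain ⟨Q, hQ⟩ : ∃ Q, Q = n / KU n := ⟨_, rfl⟩
  have hQ2 : 2 ≤ Q := by rw [hQ]; exact (Nat.le_div_iff_mul_le hk).2 h
  obtain ⟨p, hp, h1, h2⟩ := Nat.exists_prime_lt_and_le_two_mul (Q / 2) (by omega)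
  have hpQ : p ≤ n / KU n := by omega
  have hq : (qU n).Prime := Nat.findGreatest_spec hpQ hp
  have hpq : p ≤ qU n := Nat.le_findGreatest hpQ hp
  refine ⟨hq, ?_⟩
  have h3 : Q + 1 ≤ 2 * qU n := by omega
  have h4 : n < KU n * (Q + 1) := by
    rw [hQ]
    exact Nat.lt_mul_div_succ _ hk
  calc n < KU n * (Q + 1) := h4
    _ ≤ KU n * (2 * qU n) := Nat.mul_le_mul_left _ h3
    _ = _ := by ring

theorem kU_le {n : ℕ} (hn : 0 < n) (hq : 0 < qU n) (hqn : 2 * qU n ≤ n) : kU n ≤ KU n := by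
  have h1 := kap_le' hn hq hqn (tU n)
  have h2 : Nat.log 2 (qU n) ≤ Nat.log 2 n := Nat.log_mono_right (by omega)
  unfold kU KU
  calc kap n (qU n) (tU n) + Nat.log 2 (qU n) ≤ tU n * Nat.log 2 n + Nat.log 2 n :=
        Nat.add_le_add h1 h2
    _ = (tU n + 1) * Nat.log 2 n := by ring
    _ ≤ _ := Nat.mul_le_mul_left _ (Nat.le_succ _)

theorem le_kU {n : ℕ} (hn : 0 < n) (hq : 2 ≤ qU n) : tU n + 1 ≤ kU n := by
  have h1 := kap_ge hn (show 0 < qU n by omega) (tU n)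
  have h2 : 1 ≤ Nat.log 2 (qU n) := Nat.le_log_of_pow_le (by norm_num) (by simpa using hq)
  unfold kU
  have h3 : tU n * 1 ≤ tU n * Nat.log 2 (qU n) := Nat.mul_le_mul_left _ h2
  omega

/-- Natural-number facts about the parameters. -/
theorem nat_facts {n c K q w N b s h : ℕ} (hc : 1 ≤ c) (hbig : 90000000000 * c ^ 16 ≤ n)
    (hK : K = (2 * w + 1) * c) (hw : w = c * c) (hq : n < 2 * (K * q))
    (hNdef : N = q / (8 * w)) (hb : b = 4 * (w * (c + 1)) + 4) (hs : s = Nat.sqrt n + 1)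
    (hh : h = N / (4 * b * s)) :
    K ≤ q ∧ 2 * w ≤ q ∧ 2 ≤ N ∧ 8 * (w * N) ≤ q ∧ 2 * (b * h) ≤ N ∧
      16 * n * (b * h) ^ 2 ≤ 3 * N ^ 2 ∧ n ≤ 96 * c ^ 5 * N ∧ b ≤ 12 * c ^ 3 ∧
      N ≤ 4 * b * s * (2 * h + 1) ∧ K ≤ 3 * c ^ 3 ∧ 10000000000 * c ^ 13 ≤ q := by
  subst hw
  have hK3 : K ≤ 3 * c ^ 3 := by
    rw [hK]
    have h1 : 2 * (c * c) + 1 ≤ 3 * (c * c) := by nlinarith
    calc (2 * (c * c) + 1) * c ≤ 3 * (c * c) * c := Nat.mul_le_mul_right _ h1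
      _ = _ := by ring
  -- q is large
  have hqbig : 10000000000 * c ^ 13 ≤ q := by
    by_contra hcon
    push Not at hcon
    have h1 : K * q ≤ 3 * c ^ 3 * (10000000000 * c ^ 13) := Nat.mul_le_mul hK3 hcon.le
    have h2 : 3 * c ^ 3 * (10000000000 * c ^ 13) = 30000000000 * c ^ 16 := by ring
    omega
  have hp : ∀ i j : ℕ, i ≤ j → c ^ i ≤ c ^ j := fun i j hij => Nat.pow_le_pow_right hc hij
  have h13 : c ^ 3 ≤ c ^ 13 := hp _ _ (by norm_num)
  have h2c : c ^ 2 ≤ c ^ 13 := hp _ _ (by norm_num)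
  have hcc : c * c = c ^ 2 := by ring
  have hw0 : 0 < 8 * (c * c) := by positivity
  have hqpos : 0 < c ^ 13 := by positivity
  have a1 : K ≤ q := by omega
  have a2 : 2 * (c * c) ≤ q := by rw [hcc]; omega
  have a3 : 2 ≤ N := by
    rw [hNdef, Nat.le_div_iff_mul_le hw0, hcc]
    omega
  have a4 : 8 * (c * c * N) ≤ q := by
    rw [hNdef]
    calc 8 * (c * c * (q / (8 * (c * c)))) = 8 * (c * c) * (q / (8 * (c * c))) := by ring
      _ ≤ q := Nat.mul_div_le _ _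
  have hb12 : b ≤ 12 * c ^ 3 := by
    rw [hb]
    have e1 : c * c * (c + 1) = c ^ 3 + c ^ 2 := by ring
    have e2 : c ^ 2 ≤ c ^ 3 := hp _ _ (by norm_num)
    have e3 : 1 ≤ c ^ 3 := Nat.one_le_pow _ _ hc
    rw [e1]
    omega
  have hb0 : 0 < b := by rw [hb]; omega
  have hs0 : 0 < s := by rw [hs]; omega
  have hbs : 0 < 4 * b * s := by positivity
  have a5' : 4 * b * s * h ≤ N := by
    rw [hh]
    exact Nat.mul_div_le _ _
  have a5 : 2 * (b * h) ≤ N := by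
    refine le_trans ?_ a5'
    calc 2 * (b * h) = 2 * 1 * (b * h) := by ring
      _ ≤ 4 * s * (b * h) := Nat.mul_le_mul_right _ (Nat.mul_le_mul (by norm_num) hs0)
      _ = _ := by ring
  have hns : n ≤ s ^ 2 := by
    rw [hs]
    have := Nat.lt_succ_sqrt n
    rw [sq]
    exact this.le
  have a6 : 16 * n * (b * h) ^ 2 ≤ 3 * N ^ 2 := by
    calc 16 * n * (b * h) ^ 2 ≤ 16 * s ^ 2 * (b * h) ^ 2 :=
          Nat.mul_le_mul_right _ (Nat.mul_le_mul_left _ hns)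
      _ = (4 * b * s * h) ^ 2 := by ring
      _ ≤ N ^ 2 := Nat.pow_le_pow_left a5' 2
      _ ≤ 3 * N ^ 2 := by omega
  have a7 : n ≤ 96 * c ^ 5 * N := by
    have h1 : q < 8 * (c * c) * (N + 1) := by
      rw [hNdef]
      exact Nat.lt_mul_div_succ _ hw0
    have h2 : q ≤ 16 * (c * c) * N := by
      refine h1.le.trans ?_
      calc 8 * (c * c) * (N + 1) ≤ 8 * (c * c) * (2 * N) := Nat.mul_le_mul_left _ (by omega)
        _ = _ := by ring
    calc n ≤ 2 * (K * q) := hq.le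
      _ ≤ 2 * (3 * c ^ 3 * (16 * (c * c) * N)) :=
        Nat.mul_le_mul_left _ (Nat.mul_le_mul hK3 h2)
      _ = _ := by ring
  have a9 : N ≤ 4 * b * s * (2 * h + 1) := by
    have h1 : N < 4 * b * s * (h + 1) := by
      rw [hh]
      exact Nat.lt_mul_div_succ _ hbs
    exact h1.le.trans (Nat.mul_le_mul_left _ (by omega))
  exact ⟨a1, a2, a3, a4, a5, a6, a7, hb12, a9, hK3, hqbig⟩

/-- Real-number facts about the parameters. -/
theorem numeric {n c K q k w N b s h A : ℕ} (hc : 1 ≤ c) (hn1 : 1 ≤ n) (hn : n < 2 ^ c)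
    (hw : w = c * c) (hq : n < 2 * (K * q)) (hkK : k ≤ K) (hkw : 2 * w + 1 ≤ k)
    (hq0 : 0 < q) (hs : s = Nat.sqrt n + 1) (h7 : n ≤ 96 * c ^ 5 * N) (h8 : b ≤ 12 * c ^ 3)
    (h9 : N ≤ 4 * b * s * (2 * h + 1)) (h10 : K ≤ 3 * c ^ 3) :
    1 / 2 + (((c : ℝ) + 1) * ((1 / 2) ^ k + 4 * (k / q)) +
        (2 * ((c + 1) / n + 4 / q) + 2 * (1 / 2) ^ c)) / 2 +
        4 * ((2 * w : ℕ) / n + (1 / 2) ^ k) +
        2 * (4 * ((2 * A + 1) + (2 * h + 1) * (1 / 2) ^ w) / (2 * h + 1)) +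
        2 * (1 / 2) ^ c + 4 * (k / q) ≤
      1 / 2 + 150000 * (A + 1) * ((c : ℝ) ^ 8 / Real.sqrt n) := by
  have hnR : (1 : ℝ) ≤ n := by exact_mod_cast hn1
  have hn0 : (0 : ℝ) < n := by linarith
  have hx0 : 0 < Real.sqrt n := Real.sqrt_pos.2 hn0
  have hxx : Real.sqrt n * Real.sqrt n = n := Real.mul_self_sqrt hn0.le
  have hx1 : 1 ≤ Real.sqrt n := by
    rw [Real.one_le_sqrt]
    exact hnR
  have hAR : (0 : ℝ) ≤ A := Nat.cast_nonneg A
  have hcR : (1 : ℝ) ≤ c := by exact_mod_cast hc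
  have hqR : (0 : ℝ) < q := by exact_mod_cast hq0
  have hcp : ∀ i j : ℕ, i ≤ j → (c : ℝ) ^ i ≤ (c : ℝ) ^ j := fun i j hij =>
    pow_le_pow_right₀ hcR hij
  set x : ℝ := Real.sqrt n with hx
  set Y : ℝ := (c : ℝ) ^ 8 / x with hY
  set Z : ℝ := (c : ℝ) ^ 8 / n with hZ
  have hY0 : 0 ≤ Y := by positivity
  have hZ0 : 0 ≤ Z := by positivity
  have hZY : Z ≤ Y := by
    rw [hZ, hY]
    refine div_le_div_of_nonneg_left (by positivity) hx0 ?_
    nlinarith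
  have hpow : ∀ i : ℕ, i ≤ 8 → (c : ℝ) ^ i / n ≤ Z := by
    intro i hi
    rw [hZ]
    exact div_le_div_of_nonneg_right (hcp i 8 hi) hn0.le
  -- powers of one half
  have e1 : ((1 : ℝ) / 2) ^ c ≤ 1 / n := by
    have h1 : (n : ℝ) ≤ 2 ^ c := by exact_mod_cast hn.le
    rw [one_div, inv_pow, one_div]
    exact inv_anti₀ hn0 h1
  have hcw : c ≤ w := by rw [hw]; nlinarith
  have hck : c ≤ k := by omega
  have e2 : ((1 : ℝ) / 2) ^ w ≤ 1 / n :=
    (pow_le_pow_of_le_one (by norm_num) (by norm_num) hcw).trans e1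
  have e3 : ((1 : ℝ) / 2) ^ k ≤ 1 / n :=
    (pow_le_pow_of_le_one (by norm_num) (by norm_num) hck).trans e1
  have e0 : 1 / (n : ℝ) ≤ Z := by
    have := hpow 0 (by norm_num)
    rwa [pow_zero] at this
  -- q
  have hKR : (K : ℝ) ≤ 3 * c ^ 3 := by exact_mod_cast h10
  have hkR : (k : ℝ) ≤ 3 * c ^ 3 := le_trans (by exact_mod_cast hkK) hKR
  have hqn : (n : ℝ) ≤ 6 * c ^ 3 * q := by
    have h1 : (n : ℝ) ≤ 2 * (K * q) := by exact_mod_cast hq.le
    nlinarith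
  have f1 : 1 / (q : ℝ) ≤ 6 * (c ^ 3 / n) := by
    rw [← mul_div_assoc, div_le_div_iff₀ hqR hn0]
    linarith
  have f2 : (k : ℝ) / q ≤ 18 * (c ^ 6 / n) := by
    calc (k : ℝ) / q = k * (1 / q) := by ring
      _ ≤ (3 * c ^ 3) * (6 * (c ^ 3 / n)) := by gcongr
      _ = 18 * (c ^ 6 / n) := by ring
  have f3 : (k : ℝ) / q ≤ 18 * Z := f2.trans (by have := hpow 6 (by norm_num); linarith)
  have f4 : 1 / (q : ℝ) ≤ 6 * Z := f1.trans (by have := hpow 3 (by norm_num); linarith)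
  have f5 : ((c : ℝ) + 1) / n ≤ 2 * Z := by
    have h1 := hpow 1 (by norm_num)
    rw [pow_one] at h1
    have h2 : ((c : ℝ) + 1) / n ≤ 2 * (c / n) := by
      rw [← mul_div_assoc]
      exact div_le_div_of_nonneg_right (by linarith) hn0.le
    linarith
  have f6 : ((2 * w : ℕ) : ℝ) / n ≤ 2 * Z := by
    have h1 := hpow 2 (by norm_num)
    have h2 : ((2 * w : ℕ) : ℝ) = 2 * c ^ 2 := by
      rw [hw]
      push_cast
      ring
    rw [h2, mul_div_assoc]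
    linarith
  have f7 : ((c : ℝ) + 1) * ((1 / 2) ^ k + 4 * (k / q)) ≤ 146 * Z := by
    have h1 : ((1 : ℝ) / 2) ^ k + 4 * (k / q) ≤ 73 * (c ^ 6 / n) := by
      have h2 : 1 / (n : ℝ) ≤ c ^ 6 / n := by
        refine div_le_div_of_nonneg_right ?_ hn0.le
        exact one_le_pow₀ hcR
      linarith
    calc ((c : ℝ) + 1) * ((1 / 2) ^ k + 4 * (k / q)) ≤ (2 * c) * (73 * (c ^ 6 / n)) := by
          gcongr
          linarith
      _ = 146 * (c ^ 7 / n) := by ring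
      _ ≤ 146 * Z := by have := hpow 7 (by norm_num); linarith
  -- the changes
  have hm : (0 : ℝ) < 2 * h + 1 := by positivity
  have g1 : x ≤ 9216 * c ^ 8 * (2 * h + 1) := by
    have h1 : (n : ℝ) ≤ 96 * c ^ 5 * N := by exact_mod_cast h7
    have h2 : (b : ℝ) ≤ 12 * c ^ 3 := by exact_mod_cast h8
    have h3 : (N : ℝ) ≤ 4 * b * s * (2 * h + 1) := by exact_mod_cast h9
    have h4 : (s : ℝ) ≤ 2 * x := by
      rw [hs]
      push_cast
      have h5 : ((Nat.sqrt n : ℕ) : ℝ) ≤ x := Real.nat_sqrt_le_real_sqrt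
      linarith
    have h5 : (n : ℝ) ≤ 96 * c ^ 5 * (4 * (12 * c ^ 3) * (2 * x) * (2 * h + 1)) := by
      refine h1.trans ?_
      gcongr
      refine h3.trans ?_
      gcongr
    have h6 : x * x ≤ x * (9216 * c ^ 8 * (2 * h + 1)) := by
      rw [hxx]
      refine h5.trans (le_of_eq ?_)
      ring
    exact le_of_mul_le_mul_left h6 hx0
  have g2 : 1 / (2 * h + 1 : ℝ) ≤ 9216 * Y := by
    rw [hY, ← mul_div_assoc, div_le_div_iff₀ hm hx0, one_mul]
    exact g1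
  have g3 : 4 * ((2 * A + 1) + (2 * h + 1) * (1 / 2) ^ w) / (2 * h + 1) ≤
      73728 * (A + 1) * Y + 4 * Z := by
    have h1 : 4 * ((2 * A + 1) + (2 * h + 1) * (1 / 2) ^ w) / (2 * h + 1) =
        4 * (2 * A + 1) * (1 / (2 * h + 1 : ℝ)) + 4 * (1 / 2) ^ w := by
      field_simp
    rw [h1]
    have h2 : 4 * (2 * (A : ℝ) + 1) * (1 / (2 * h + 1 : ℝ)) ≤
        (8 * (A + 1)) * (9216 * Y) := by
      have h3 : 4 * (2 * (A : ℝ) + 1) ≤ 8 * (A + 1) := by linarith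
      exact mul_le_mul h3 g2 (by positivity) (by positivity)
    have h4 : 4 * ((1 : ℝ) / 2) ^ w ≤ 4 * Z := by linarith
    calc 4 * (2 * (A : ℝ) + 1) * (1 / (2 * h + 1 : ℝ)) + 4 * (1 / 2) ^ w
        ≤ (8 * (A + 1)) * (9216 * Y) + 4 * Z := add_le_add h2 h4
      _ = _ := by ring
  have h4q : 4 / (q : ℝ) = 4 * (1 / q) := by ring
  rw [h4q]
  have hAY : Y ≤ (A + 1) * Y := by nlinarith
  have hfin : 1 / 2 + (((c : ℝ) + 1) * ((1 / 2) ^ k + 4 * (k / q)) +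
        (2 * ((c + 1) / n + 4 * (1 / q)) + 2 * (1 / 2) ^ c)) / 2 +
        4 * ((2 * w : ℕ) / n + (1 / 2) ^ k) +
        2 * (4 * ((2 * A + 1) + (2 * h + 1) * (1 / 2) ^ w) / (2 * h + 1)) +
        2 * (1 / 2) ^ c + 4 * (k / q) ≤
      1 / 2 + (147456 * ((A + 1) * Y) + 200 * Z) := by
    have k1 : 2 * ((1 : ℝ) / 2) ^ c ≤ 2 * Z := by linarith
    linarith
  refine hfin.trans ?_
  have : 150000 * ((A : ℝ) + 1) * Y = 150000 * ((A + 1) * Y) := by ring
  rw [this]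
  linarith

theorem lam'_le {l u v : ℝ} (h0 : 0 ≤ l) (hu : 0 ≤ u) (hv : 0 ≤ v)
    (h : l * (1 - u) * (1 - v) ≤ Real.log 2) (huv : u + v ≤ 1 / 4) :
    l ≤ Real.log 2 + (u + v) := by
  by_contra hc
  push Not at hc
  have h1 := Real.log_two_lt_d9
  have h2 : l * (1 - (u + v)) ≤ l * (1 - u) * (1 - v) := by
    have h3 : l * (1 - u) * (1 - v) = l * (1 - (u + v)) + l * (u * v) := by ring
    rw [h3]
    have : 0 ≤ l * (u * v) := by positivity
    linarith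
  have h3 : (Real.log 2 + (u + v)) * (1 - (u + v)) < l * (1 - (u + v)) := by
    have : 0 < 1 - (u + v) := by linarith
    exact mul_lt_mul_of_pos_right hc this
  have h4 : Real.log 2 ≤ (Real.log 2 + (u + v)) * (1 - (u + v)) := by
    have h5 : (Real.log 2 + (u + v)) * (1 - (u + v)) =
        Real.log 2 + (u + v) * (1 - Real.log 2 - (u + v)) := by ring
    rw [h5]
    have h6 : 0 ≤ (u + v) * (1 - Real.log 2 - (u + v)) :=
      mul_nonneg (by linarith) (by linarith)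
    linarith
  linarith

/-- The bound for the uniform distribution. -/
theorem main_bound {n : ℕ} (hn : 1 ≤ n) {gs : List Gate} {out A : ℕ} (hA : AltLe n gs A)
    (hs : mons gs ≤ 2 ^ ((Nat.log 2 n + 1) ^ 2)) :
    pr (fun x : Fin n → Bool => Correct LangU gs out (List.ofFn x)) ≤
      1 / 2 + 150000 * (A + 1) * (Nat.log 2 n + 1) ^ 8 / Real.sqrt n := by
  obtain ⟨a, ha⟩ : ∃ a, a = Nat.log 2 n := ⟨_, rfl⟩
  obtain ⟨c, hc⟩ : ∃ c, c = a + 1 := ⟨_, rfl⟩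
  have hnR : (1 : ℝ) ≤ n := by exact_mod_cast hn
  have hx0 : 0 < Real.sqrt n := Real.sqrt_pos.2 (by linarith)
  have hxx : Real.sqrt n * Real.sqrt n = n := Real.mul_self_sqrt (by linarith)
  have hx1 : 1 ≤ Real.sqrt n := by
    rw [Real.one_le_sqrt]
    exact hnR
  have hAR : (0 : ℝ) ≤ A := Nat.cast_nonneg A
  have hcR : ((Nat.log 2 n : ℕ) : ℝ) + 1 = c := by
    rw [hc, ha]
    push_cast
    rfl
  rw [hcR]
  have hc1 : 1 ≤ c := by omega
  have hc1R : (1 : ℝ) ≤ c := by exact_mod_cast hc1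
  set x : ℝ := Real.sqrt n with hx
  set Y : ℝ := (c : ℝ) ^ 8 / x with hY
  have hY0 : 0 ≤ Y := by positivity
  have eY : 150000 * ((A : ℝ) + 1) * (c : ℝ) ^ 8 / x = 150000 * (A + 1) * Y := by
    rw [hY]
    ring
  rw [eY]
  by_cases hbigR : 300000 * (c : ℝ) ^ 8 ≤ x
  swap
  · push Not at hbigR
    refine (pr_le_one _).trans ?_
    have h1 : 1 / 300000 ≤ Y := by
      rw [hY, div_le_div_iff₀ (by norm_num) hx0]
      linarith
    nlinarith
  -- natural numbers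
  have hbig : 90000000000 * c ^ 16 ≤ n := by
    have h1 : (300000 * (c : ℝ) ^ 8) * (300000 * (c : ℝ) ^ 8) ≤ x * x :=
      mul_le_mul hbigR hbigR (by positivity) (by positivity)
    rw [hxx] at h1
    have h2 : ((90000000000 * c ^ 16 : ℕ) : ℝ) ≤ n := by
      push_cast
      linarith
    exact_mod_cast h2
  obtain ⟨w, hwdef⟩ : ∃ w, w = c * c := ⟨_, rfl⟩
  have ht : tU n = 2 * w := by
    unfold tU
    rw [hwdef, hc, ha]
  have hKdef : KU n = (2 * w + 1) * c := by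
    unfold KU
    rw [ht, hc, ha]
  have hp : ∀ i j : ℕ, i ≤ j → c ^ i ≤ c ^ j := fun i j hij => Nat.pow_le_pow_right hc1 hij
  have hK3' : KU n ≤ 3 * c ^ 3 := by
    rw [hKdef, hwdef]
    have h1 : 2 * (c * c) + 1 ≤ 3 * (c * c) := by nlinarith
    calc (2 * (c * c) + 1) * c ≤ 3 * (c * c) * c := Nat.mul_le_mul_right _ h1
      _ = _ := by ring
  have h316 : c ^ 3 ≤ c ^ 16 := hp _ _ (by norm_num)
  obtain ⟨hqp, hqn⟩ := qU_large (n := n) (by omega)
  have hfact : Fact (qU n).Prime := ⟨hqp⟩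
  have hKq := KU_mul_qU n
  have hK2 : 2 ≤ KU n := by
    rw [hKdef]
    have : 1 ≤ w := by rw [hwdef]; nlinarith
    nlinarith
  have h2q : 2 * qU n ≤ n := le_trans (Nat.mul_le_mul_right _ hK2) hKq
  have hkK : kU n ≤ KU n := kU_le (by omega) hqp.pos h2q
  have htk : tU n + 1 ≤ kU n := le_kU (by omega) hqp.two_le
  have hAq : AU n ≤ qU n := AU_le (by omega) hqp.pos
  have hlamU := lam_upper (n := n) (by omega) hqp.pos
  have hlamL := lam_lower (n := n) (by omega) hqp.pos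
  have hkn : kU n * qU n ≤ n := (Nat.mul_le_mul_right _ hkK).trans hKq
  have hmem := fun (z : Fin n → Bool) (X : Finset (Fin (kU n) × ZMod (qU n))) =>
    mem_langU hqp hkn z X
  unfold lam at hlamU hlamL
  revert hmem
  generalize kU n = k at *
  revert hkn
  generalize qU n = q at *
  intro hkn
  generalize tU n = t at *
  generalize AU n = A₀ at *
  generalize KU n = K at *
  intro hmem
  have hw1 : 1 ≤ w := by rw [hwdef]; nlinarith
  obtain ⟨b, hb⟩ : ∃ b, b = 4 * (w * (c + 1)) + 4 := ⟨_, rfl⟩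
  obtain ⟨s, hsdef⟩ : ∃ s, s = Nat.sqrt n + 1 := ⟨_, rfl⟩
  obtain ⟨N, hN⟩ : ∃ N, N = q / (8 * w) := ⟨_, rfl⟩
  obtain ⟨h, hh⟩ : ∃ h, h = N / (4 * b * s) := ⟨_, rfl⟩
  obtain ⟨f1, f2, f3, f4, f5, f6, f7, f8, f9, f10, f11⟩ :=
    nat_facts hc1 hbig hKdef hwdef hqn hN hb hsdef hh
  have hnlt : n < 2 ^ c := by
    rw [hc, ha]
    exact Nat.lt_pow_succ_log_self (by norm_num) n
  have hq0 : 0 < q := hqp.pos
  have hqR : (0 : ℝ) < q := by exact_mod_cast hq0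
  have hn0 : (0 : ℝ) < n := by linarith
  have hkw : 2 * w + 1 ≤ k := by omega
  have hnum := numeric (A := A) (b := b) hc1 hn hnlt hwdef hqn hkK hkw hq0 hsdef f7 f8 f9 f10
  -- small quantities
  have hc16 : (c : ℝ) ≤ c ^ 16 := le_self_pow₀ hc1R (by norm_num)
  have hc216 : (c : ℝ) ^ 2 ≤ c ^ 16 := pow_le_pow_right₀ hc1R (by norm_num)
  have hc13 : (1 : ℝ) ≤ c ^ 13 := one_le_pow₀ hc1R
  have hbigR' : 90000000000 * (c : ℝ) ^ 16 ≤ n := by exact_mod_cast hbig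
  have hqbigR : 10000000000 * (c : ℝ) ^ 13 ≤ q := by exact_mod_cast f11
  have s1 : ((c : ℝ) + 1) / n ≤ 1 / 100 := by
    rw [div_le_div_iff₀ hn0 (by norm_num)]
    linarith
  have s2 : 4 / (q : ℝ) ≤ 1 / 100 := by
    rw [div_le_div_iff₀ hqR (by norm_num)]
    linarith
  have s3 : ((2 * w : ℕ) : ℝ) / n ≤ 1 / 100 := by
    rw [div_le_div_iff₀ hn0 (by norm_num), hwdef]
    push_cast
    nlinarith
  have s4 : ((1 : ℝ) / 2) ^ k ≤ 1 / 8 := by
    have h1 : 3 ≤ k := by omega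
    calc ((1 : ℝ) / 2) ^ k ≤ (1 / 2) ^ 3 := pow_le_pow_of_le_one (by norm_num) (by norm_num) h1
      _ = 1 / 8 := by norm_num
  have hlog := Real.log_two_gt_d9
  have hlog' := Real.log_two_lt_d9
  have hL : Real.log 2 - (((c : ℝ) + 1) / n + 4 / q) ≤ (A₀ * (q : ℝ) ^ t) / 2 ^ k := by
    have e : ((Nat.log 2 n : ℕ) : ℝ) + 2 = c + 1 := by linarith
    rw [e] at hlamL
    linarith
  have hA0 : 0 < A₀ := by
    rcases Nat.eq_zero_or_pos A₀ with h0 | h0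
    · exfalso
      rw [h0, Nat.cast_zero, zero_mul, zero_div] at hL
      linarith
    · exact h0
  have hk2 : (0 : ℝ) < 2 ^ k - 1 := by
    have : (2 : ℝ) ^ 1 ≤ 2 ^ k := pow_le_pow_right₀ (by norm_num) (by omega)
    linarith
  have hU : (A₀ * (q : ℝ) ^ t) / (2 ^ k - 1) ≤ Real.log 2 + ((1 / 2) ^ k + (2 * w : ℕ) / n) := by
    refine lam'_le (by positivity) (by positivity) (by positivity) ?_ (by linarith)
    have e1 : (A₀ * (q : ℝ) ^ t) / (2 ^ k - 1) * (1 - (1 / 2) ^ k) = (A₀ * (q : ℝ) ^ t) / 2 ^ k := by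
      rw [one_div, inv_pow]
      have : (2 : ℝ) ^ k ≠ 0 := by positivity
      field_simp
    rw [e1, ← ht]
    exact hlamU
  have key := core (L := LangU) (out := out) hkn hmem (hkK.trans f1) (by rw [ht]; exact f2) (by omega) hAq hA0
    ht hw1 f3 f4 (by rw [hb]; omega) f5 f6 hA c (ε := (c + 1) / n + 4 / q)
    (ε' := (2 * w : ℕ) / n + (1 / 2) ^ k) (E := (2 * A + 1) + (2 * h + 1) * (1 / 2) ^ w)
    (by linarith) hL (by linarith) (by positivity) (by positivity) (by linarith) (by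
      have h1 := eps_le (n := n) (w := w) (a := a) (b := b) (s := mons gs)
        (V := Fin k × ZMod q) (by
          rw [Fintype.card_prod, Fintype.card_fin, ZMod.card]
          exact hkn) (by rw [← hc]; exact hnlt) (by rw [hb, hc]) (by
          refine hs.trans (le_of_eq ?_)
          rw [← ha, ← hc, hwdef, sq])
      have h2 : ((2 * h + 1 : ℕ) : ℝ) = 2 * h + 1 := by push_cast; ring
      rw [h2]
      gcongr)
  exact key.trans hnum

end Pool.Agent.Lib.MP_70d3b5_lc.Real
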