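import Pool.Agent.Lib.MP_70d3b5_lc.Real.UniformFinal

/-!
# The main theorem for the uniform distribution
-/

open Finset

namespace Pool.Agent.Lib.MP_70d3b5_lc.Real

/-- The fraction of the inputs of length `n` on which the circuit with gates `gs` and output wire
`out` is correct for `L`. -/
noncomputable def agreement (L : Set (List Bool)) (n : ℕ) (gs : List Gate) (out : ℕ) : ℝ :=
  (Nat.card {x : Fin n → Bool // Correct L gs out (List.ofFn x)} : ℝ) / 2 ^ n

theorem agreement_eq (L : Set (List Bool)) (n : ℕ) (gs : List Gate) (out : ℕ) :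
    agreement L n gs out = pr (fun x : Fin n → Bool => Correct L gs out (List.ofFn x)) := by
  classical
  unfold agreement
  rw [pr_def, Nat.card_eq_fintype_card, Fintype.card_subtype]
  simp

theorem uniform_main {n : ℕ} (hn : 1 ≤ n) {gs : List Gate} {out : ℕ}
    (hs : mons gs ≤ 2 ^ ((Nat.log 2 n + 1) ^ 2)) :
    (∀ A, AltLe n gs A → agreement LangU n gs out ≤
      1 / 2 + 150000 * (A + 1) * (Nat.log 2 n + 1) ^ 8 / Real.sqrt n) ∧
    (agreement LangU n gs out ≤
      1 / 2 + 150000 * (traces n gs).card * (Nat.log 2 n + 1) ^ 8 / Real.sqrt n) ∧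
    ∀ d, 1 ≤ d → depth n gs ≤ d → agreement LangU n gs out ≤
      1 / 2 + 150000 * (fan gs / d + 1) ^ d * (Nat.log 2 n + 1) ^ 8 / Real.sqrt n := by
  have hnR : (0 : ℝ) < n := by exact_mod_cast hn
  have hx : 0 < Real.sqrt n := Real.sqrt_pos.2 hnR
  rw [agreement_eq]
  refine ⟨fun A hA => main_bound hn hA hs, ?_, fun d hd hdep => ?_⟩
  · have h3 := main_bound (out := out) hn (altLe_traces n gs) hs
    have h4 : (((traces n gs).card - 1 : ℕ) : ℝ) + 1 = (traces n gs).card := by
      have := traces_card_pos n gs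
      rw [Nat.cast_sub this]
      push_cast
      ring
    rwa [h4] at h3
  · obtain ⟨A, hA, hA'⟩ := altLe_depth hd hdep
    refine (main_bound hn hA hs).trans ?_
    gcongr

end Pool.Agent.Lib.MP_70d3b5_lc.Real
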